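import Mathlib

/-! f4aa65-D: abstract arithmetic lemma (finitely generated group acting, simultaneous divisibility
at all large primes). -/

set_option autoImplicit false

open Polynomial Topology

namespace Pool.Agent.W327.F4

/-- `x` is divisible by `ℓ` in the localisation of `ℤ` at the prime `ℓ` -/
def Dv (ℓ : ℕ) (x : ℚ) : Prop := ∃ a b : ℤ, ¬ (ℓ : ℤ) ∣ b ∧ x * b = ℓ * a

/-- `x` is integral at `ℓ` -/
def Iv (ℓ : ℕ) (x : ℚ) : Prop := ∃ a b : ℤ, ¬ (ℓ : ℤ) ∣ b ∧ x * b = a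

theorem nd_mul {ℓ : ℕ} (hℓ : ℓ.Prime) {b d : ℤ} (hb : ¬ (ℓ : ℤ) ∣ b) (hd : ¬ (ℓ : ℤ) ∣ d) :
    ¬ (ℓ : ℤ) ∣ b * d := fun h =>
  ((Nat.prime_iff_prime_int.1 hℓ).dvd_or_dvd h).elim hb hd

theorem nd_one {ℓ : ℕ} (hℓ : ℓ.Prime) : ¬ (ℓ : ℤ) ∣ 1 := fun h => by
  have := Int.natAbs_dvd_natAbs.2 h
  simp at this
  exact hℓ.one_lt.ne' this

theorem Dv.add {ℓ : ℕ} (hℓ : ℓ.Prime) {x y : ℚ} (hx : Dv ℓ x) (hy : Dv ℓ y) : Dv ℓ (x + y) := by
  obtain ⟨a, b, hb, h1⟩ := hx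
  obtain ⟨c, d, hd, h2⟩ := hy
  refine ⟨a * d + c * b, b * d, nd_mul hℓ hb hd, ?_⟩
  push_cast
  linear_combination (d : ℚ) * h1 + (b : ℚ) * h2

theorem Dv.neg {ℓ : ℕ} {x : ℚ} (hx : Dv ℓ x) : Dv ℓ (-x) := by
  obtain ⟨a, b, hb, h1⟩ := hx
  exact ⟨-a, b, hb, by push_cast; linear_combination - h1⟩

theorem Dv.int {ℓ : ℕ} (hℓ : ℓ.Prime) (k : ℤ) : Dv ℓ ((ℓ : ℚ) * k) :=
  ⟨k, 1, nd_one hℓ, by push_cast; ring⟩

theorem Dv.zero {ℓ : ℕ} (hℓ : ℓ.Prime) : Dv ℓ 0 := ⟨0, 1, nd_one hℓ, by push_cast; ring⟩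

theorem Iv.add {ℓ : ℕ} (hℓ : ℓ.Prime) {x y : ℚ} (hx : Iv ℓ x) (hy : Iv ℓ y) : Iv ℓ (x + y) := by
  obtain ⟨a, b, hb, h1⟩ := hx
  obtain ⟨c, d, hd, h2⟩ := hy
  refine ⟨a * d + c * b, b * d, nd_mul hℓ hb hd, ?_⟩
  push_cast
  linear_combination (d : ℚ) * h1 + (b : ℚ) * h2

theorem Iv.neg {ℓ : ℕ} {x : ℚ} (hx : Iv ℓ x) : Iv ℓ (-x) := by
  obtain ⟨a, b, hb, h1⟩ := hx
  exact ⟨-a, b, hb, by push_cast; linear_combination - h1⟩

theorem Iv.int {ℓ : ℕ} (hℓ : ℓ.Prime) (k : ℤ) : Iv ℓ (k : ℚ) :=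
  ⟨k, 1, nd_one hℓ, by push_cast; ring⟩

theorem common_den {ℓ : ℕ} (hℓ : ℓ.Prime) {M : Type} (f : M → ℚ) (T : Finset M)
    (h : ∀ s ∈ T, Iv ℓ (f s)) : ∃ D : ℤ, ¬ (ℓ : ℤ) ∣ D ∧ ∀ s ∈ T, ∃ u : ℤ, f s * D = u := by
  classical
  induction T using Finset.induction_on with
  | empty => exact ⟨1, nd_one hℓ, by simp⟩
  | insert s T hs ih =>
    obtain ⟨D, hD, h1⟩ := ih fun t ht => h t (Finset.mem_insert_of_mem ht)
    obtain ⟨a, b, hb, h2⟩ := h s (Finset.mem_insert_self s T)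
    refine ⟨D * b, nd_mul hℓ hD hb, fun t ht => ?_⟩
    rcases Finset.mem_insert.1 ht with rfl | ht
    · exact ⟨a * D, by push_cast; linear_combination (D : ℚ) * h2⟩
    · obtain ⟨u, hu⟩ := h1 t ht
      exact ⟨u * b, by push_cast; linear_combination (b : ℚ) * hu⟩

variable {G P M : Type} [Group G] [MulAction G P] [AddCommGroup M]

theorem pow_act (L : P → M →+ ℚ) (g : G) (s : M) (k : ℤ) (h : ∀ p, L (g • p) s = L p s + k)
    (n : ℕ) : ∀ p, L (g ^ n • p) s = L p s + n * k := by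
  induction n with
  | zero => intro p; simp
  | succ n ih =>
    intro p
    rw [pow_succ', mul_smul, h, ih]
    push_cast; ring

/-- the single prime step -/
theorem step {ℓ : ℕ} (hℓ : ℓ.Prime) (N : Subgroup G) (HN : AddSubgroup M) (L : P → M →+ ℚ)
    (hθ : ∀ h ∈ HN, ∀ g ∈ N, ∃ k : ℤ, ∀ p, L (g • p) h = L p h + k)
    (S : Finset M) (hS : (S : Set M) ⊆ HN)
    (hgen : ∀ h ∈ HN, ∃ h' ∈ AddSubgroup.closure (S : Set M), ∀ p, L p h = L p h')
    (hint : ∀ p, ∀ h ∈ HN, Iv ℓ (L p h))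
    (hdiv : ∀ h ∈ HN, (∀ g ∈ N, ∃ k : ℤ, ∀ p, L (g • p) h = L p h + ℓ * k) →
      ∃ h' ∈ HN, h = ℓ • h')
    (m : ℕ) (hm : m.Coprime ℓ) (p : P) :
    ∃ g ∈ N, ∀ h ∈ HN, Dv ℓ (L (g ^ m • p) h) := by
  have : Fact ℓ.Prime := ⟨hℓ⟩
  obtain ⟨D, hD, hu⟩ := common_den hℓ (fun s => L p s) S (fun s hs => hint p s (hS hs))
  have hu' : ∀ s : S, ∃ u : ℤ, L p (s : M) * D = u := fun s => hu s s.2
  choose u hu using hu'
  have hD0 : (D : ZMod ℓ) ≠ 0 := fun h => hD ((ZMod.intCast_zmod_eq_zero_iff_dvd _ _).1 h)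
  have hm0 : (m : ZMod ℓ) ≠ 0 := fun h => by
    rw [ZMod.natCast_eq_zero_iff] at h
    have := Nat.Coprime.eq_one_of_dvd hm.symm h
    exact hℓ.one_lt.ne' this
  -- the subspace of the translation vectors
  let A : Submodule (ZMod ℓ) (S → ZMod ℓ) :=
    { carrier := {v | ∃ g ∈ N, ∀ s : S, ∃ k : ℤ, (∀ q, L (g • q) (s : M) = L q s + k) ∧
        v s = (k : ZMod ℓ)}
      add_mem' := by
        rintro v v' ⟨g, hg, h1⟩ ⟨g', hg', h2⟩
        refine ⟨g * g', N.mul_mem hg hg', fun s => ?_⟩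
        obtain ⟨k, hk, hk'⟩ := h1 s
        obtain ⟨l, hl, hl'⟩ := h2 s
        refine ⟨k + l, fun q => ?_, ?_⟩
        · rw [mul_smul, hk, hl]; push_cast; ring
        · rw [Pi.add_apply, hk', hl']; push_cast; ring
      zero_mem' := ⟨1, N.one_mem, fun s => ⟨0, fun q => by simp, by simp⟩⟩
      smul_mem' := by
        rintro c v ⟨g, hg, h1⟩
        refine ⟨g ^ c.val, N.pow_mem hg _, fun s => ?_⟩
        obtain ⟨k, hk, hk'⟩ := h1 s
        refine ⟨c.val * k, fun q => ?_, ?_⟩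
        · rw [pow_act L g s k hk]; push_cast; ring
        · rw [Pi.smul_apply, hk', smul_eq_mul]; push_cast; rw [ZMod.natCast_zmod_val] }
  set t : S → ZMod ℓ := fun s => -(u s : ZMod ℓ) with ht
  by_cases htA : t ∈ A
  · have h2 : ((D : ZMod ℓ) * m)⁻¹ • t ∈ A := A.smul_mem _ htA
    obtain ⟨g, hg, h3⟩ := h2
    refine ⟨g, hg, ?_⟩
    have hSd : ∀ s ∈ S, Dv ℓ (L (g ^ m • p) s) := by
      intro s hs
      obtain ⟨k, hk, hk'⟩ := h3 ⟨s, hs⟩
      rw [Pi.smul_apply, smul_eq_mul] at hk'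
      have h4 : ((u ⟨s, hs⟩ + D * m * k : ℤ) : ZMod ℓ) = 0 := by
        push_cast
        rw [← hk', ht]
        field_simp
        ring
      rw [ZMod.intCast_zmod_eq_zero_iff_dvd] at h4
      obtain ⟨a, ha⟩ := h4
      refine ⟨a, D, hD, ?_⟩
      rw [pow_act L g s k hk m p]
      have h5 := hu ⟨s, hs⟩
      have h6 : ((u ⟨s, hs⟩ + D * m * k : ℤ) : ℚ) = ((ℓ * a : ℤ) : ℚ) := by rw [ha]
      push_cast at h5 h6
      linear_combination h5 + h6
    intro h hh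
    obtain ⟨h', hh', heq⟩ := hgen h hh
    rw [heq]
    clear heq
    induction hh' using AddSubgroup.closure_induction with
    | mem x hx => exact hSd x hx
    | zero => rw [map_zero]; exact Dv.zero hℓ
    | add x y _ _ hx hy => rw [map_add]; exact Dv.add hℓ hx hy
    | neg x _ hx => rw [map_neg]; exact Dv.neg hx
  · exfalso
    obtain ⟨c, hc1, hc2⟩ := Submodule.exists_dual_map_eq_bot_of_notMem htA inferInstance
    apply hc1
    classical
    set cc : S → ZMod ℓ := fun s => c (fun j => if s = j then 1 else 0) with hcc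
    have hcv : ∀ v : S → ZMod ℓ, c v = ∑ s, v s * cc s := by
      intro v
      rw [LinearMap.pi_apply_eq_sum_univ]
      simp [hcc, smul_eq_mul]
    have hcA : ∀ v ∈ A, c v = 0 := by
      intro v hv
      have : c v ∈ A.map c := Submodule.mem_map_of_mem hv
      rw [hc2] at this
      exact (Submodule.mem_bot (ZMod ℓ)).1 this
    set h : M := ∑ s : S, (cc s).val • (s : M) with hh
    have hhN : h ∈ HN := AddSubgroup.sum_mem _ fun s _ => AddSubgroup.nsmul_mem _ (hS s.2) _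
    obtain ⟨h', hh', hhe⟩ := hdiv h hhN (by
      intro g hg
      have h1 : ∀ s : S, ∃ k : ℤ, ∀ q, L (g • q) (s : M) = L q s + k := fun s =>
        hθ s (hS s.2) g hg
      choose k hk using h1
      have h2 : (fun s => (k s : ZMod ℓ)) ∈ A := ⟨g, hg, fun s => ⟨k s, hk s, rfl⟩⟩
      have h3 := hcA _ h2
      rw [hcv] at h3
      have h4 : ((∑ s : S, k s * ((cc s).val : ℤ) : ℤ) : ZMod ℓ) = 0 := by
        push_cast
        rw [← h3]
        refine Finset.sum_congr rfl fun s _ => ?_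
        rw [ZMod.natCast_zmod_val]
      rw [ZMod.intCast_zmod_eq_zero_iff_dvd] at h4
      obtain ⟨a, ha⟩ := h4
      refine ⟨a, fun q => ?_⟩
      have h5 : ((∑ s : S, k s * ((cc s).val : ℤ) : ℤ) : ℚ) = ((ℓ * a : ℤ) : ℚ) := by rw [ha]
      push_cast at h5
      rw [← h5, hh, map_sum, map_sum, ← Finset.sum_add_distrib]
      refine Finset.sum_congr rfl fun s _ => ?_
      rw [map_nsmul, map_nsmul, hk s q]
      simp only [nsmul_eq_mul]
      ring)
    obtain ⟨a, b, hb, hab⟩ := hint p h' hh'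
    have h1 : L p h * D = ∑ s : S, ((cc s).val : ℚ) * u s := by
      rw [hh, map_sum, Finset.sum_mul]
      refine Finset.sum_congr rfl fun s _ => ?_
      rw [map_nsmul, nsmul_eq_mul, mul_assoc, hu s]
    have h2 : L p h = ℓ * L p h' := by
      rw [hhe, map_nsmul, nsmul_eq_mul]
    have h3 : ((∑ s : S, ((cc s).val : ℤ) * u s : ℤ) : ℚ) * b = ℓ * (a * D : ℤ) := by
      push_cast
      rw [← h1, h2]
      linear_combination (ℓ : ℚ) * D * hab
    have h4 : (∑ s : S, ((cc s).val : ℤ) * u s) * b = ℓ * (a * D) := by exact_mod_cast h3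
    have h5 : (ℓ : ℤ) ∣ ∑ s : S, ((cc s).val : ℤ) * u s := by
      have : (ℓ : ℤ) ∣ (∑ s : S, ((cc s).val : ℤ) * u s) * b := ⟨_, h4⟩
      exact ((Nat.prime_iff_prime_int.1 hℓ).dvd_or_dvd this).resolve_right hb
    have h6 := (ZMod.intCast_zmod_eq_zero_iff_dvd _ _).2 h5
    rw [hcv, ht]
    push_cast at h6
    simp only [ZMod.natCast_zmod_val] at h6
    calc ∑ s, -(u s : ZMod ℓ) * cc s = -∑ s, cc s * (u s : ZMod ℓ) := by
          rw [← Finset.sum_neg_distrib]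
          exact Finset.sum_congr rfl fun s _ => by ring
      _ = 0 := by rw [h6, neg_zero]

/-- integrality at all large primes -/
theorem bound [Nonempty P] (htr : ∀ p q : P, ∃ g : G, g • p = q) (N : Subgroup G) [N.FiniteIndex]
    [N.Normal] (HN : AddSubgroup M) (L : P → M →+ ℚ)
    (hθ : ∀ h ∈ HN, ∀ g ∈ N, ∃ k : ℤ, ∀ p, L (g • p) h = L p h + k)
    (S : Finset M) (hS : (S : Set M) ⊆ HN)
    (hgen : ∀ h ∈ HN, ∃ h' ∈ AddSubgroup.closure (S : Set M), ∀ p, L p h = L p h') :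
    ∃ B : ℕ, ∀ ℓ : ℕ, ℓ.Prime → B ≤ ℓ → ∀ p, ∀ h ∈ HN, Iv ℓ (L p h) := by
  classical
  obtain ⟨p0⟩ := (inferInstance : Nonempty P)
  have : Finite (G ⧸ N) := inferInstance
  have : Fintype (G ⧸ N) := Fintype.ofFinite _
  set d : ℕ := ∏ q : G ⧸ N, ∏ s ∈ S, (L (q.out • p0) s).den with hd
  have hd0 : 0 < d := Finset.prod_pos fun q _ => Finset.prod_pos fun s _ => (L (q.out • p0) s).pos
  refine ⟨d + 1, fun ℓ hℓ hB p h hh => ?_⟩
  have hSd : ∀ s ∈ S, Iv ℓ (L p s) := by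
    intro s hs
    obtain ⟨g, rfl⟩ := htr p0 p
    set q : G ⧸ N := (g : G ⧸ N) with hq
    have h1 : q.out⁻¹ * g ∈ N := by
      rw [← QuotientGroup.eq]
      rw [QuotientGroup.out_eq']
    have h2 : g * q.out⁻¹ ∈ N := by
      have := (inferInstance : N.Normal).conj_mem _ h1 q.out
      simpa [mul_assoc] using this
    obtain ⟨k, hk⟩ := hθ s (hS hs) _ h2
    have h3 := hk (q.out • p0)
    rw [smul_smul, inv_mul_cancel_right] at h3
    rw [h3]
    refine Iv.add hℓ ?_ (Iv.int hℓ k)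
    refine ⟨(L (q.out • p0) s).num, (L (q.out • p0) s).den, fun hdv => ?_, ?_⟩
    · have h4 : ℓ ∣ d := by
        refine (Int.natCast_dvd_natCast.1 hdv).trans ?_
        refine (Finset.dvd_prod_of_mem (fun s => (L (q.out • p0) s).den) hs).trans ?_
        exact Finset.dvd_prod_of_mem (fun q : G ⧸ N => ∏ s ∈ S, (L (q.out • p0) s).den)
          (Finset.mem_univ q)
      have := Nat.le_of_dvd hd0 h4
      omega
    · push_cast
      exact Rat.mul_den_eq_num _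
  obtain ⟨h', hh', heq⟩ := hgen h hh
  rw [heq]
  clear heq
  induction hh' using AddSubgroup.closure_induction with
  | mem x hx => exact hSd x hx
  | zero => rw [map_zero]; exact_mod_cast Iv.int hℓ 0
  | add x y _ _ hx hy => rw [map_add]; exact Iv.add hℓ hx hy
  | neg x _ hx => rw [map_neg]; exact Iv.neg hx

/-- a decreasing cofinal sequence of normal subgroups of finite index -/
theorem cofinal (G : Type) [Group G] [Group.FG G] : ∃ f : ℕ → Subgroup G,
    (∀ n, (f n).FiniteIndex) ∧ (∀ n, (f n).Normal) ∧ Antitone f ∧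
    ∀ N : Subgroup G, N.FiniteIndex → N.Normal → ∃ n, f n ≤ N := by
  have : Countable G := by
    obtain ⟨S, hS, φ, hφ⟩ := (Group.fg_iff_exists_freeGroup_hom_surjective).1
      (inferInstance : Group.FG G)
    have h0 : Countable S := hS.countable.to_subtype
    have h1 : Countable (FreeGroup S) := by
      have : Function.Surjective (FreeGroup.mk : List (S × Bool) → FreeGroup S) :=
        Quot.mk_surjective
      exact this.countable
    exact hφ.countable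
  set T : Set (Subgroup G) := {N | N.FiniteIndex ∧ N.Normal} with hT
  have hc : T.Countable := by
    refine (Set.countable_range (fun S : Finset G => Subgroup.closure (S : Set G))).mono ?_
    rintro N ⟨h1, h2⟩
    have h3 : Group.FG N := inferInstance
    obtain ⟨S, hS⟩ := (Group.fg_iff_subgroup_fg N).1 h3
    exact ⟨S, hS⟩
  obtain ⟨e, he⟩ := hc.exists_eq_range ⟨⊤, by constructor <;> infer_instance⟩
  have heT : ∀ n, (e n).FiniteIndex ∧ (e n).Normal := fun n => by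
    have : e n ∈ T := by rw [he]; exact ⟨n, rfl⟩
    exact this
  let f : ℕ → Subgroup G := fun n => Nat.rec (e 0) (fun k g => g ⊓ e (k + 1)) n
  have hf0 : f 0 = e 0 := rfl
  have hfs : ∀ n, f (n + 1) = f n ⊓ e (n + 1) := fun n => rfl
  refine ⟨f, ?_, ?_, antitone_nat_of_succ_le fun n => by rw [hfs]; exact inf_le_left, ?_⟩
  · intro n
    induction n with
    | zero => exact (heT 0).1
    | succ n ih =>
      rw [hfs]
      have h1 := (heT (n + 1)).1
      exact ⟨Subgroup.index_inf_ne_zero ih.index_ne_zero h1.index_ne_zero⟩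
  · intro n
    induction n with
    | zero => exact (heT 0).2
    | succ n ih =>
      rw [hfs]
      exact @Subgroup.normal_inf_normal G _ (f n) (e (n + 1)) ih (heT (n + 1)).2
  · intro N h1 h2
    have : N ∈ T := ⟨h1, h2⟩
    rw [he] at this
    obtain ⟨n, rfl⟩ := this
    refine ⟨n, ?_⟩
    cases n with
    | zero => exact le_rfl
    | succ n => rw [hfs]; exact inf_le_right

theorem abs_main {G P M : Type} [Group G] [Group.FG G] [MulAction G P] [Nonempty P]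
    (htr : ∀ p q : P, ∃ g : G, g • p = q) [AddCommGroup M]
    (H : Subgroup G → AddSubgroup M) (hmono : ∀ N N', N ≤ N' → H N' ≤ H N)
    (L : P → M →+ ℚ)
    (hL : ∀ N : Subgroup G, N.FiniteIndex → N.Normal → ∀ h ∈ H N, ∀ g ∈ N, ∃ k : ℤ,
      ∀ p, L (g • p) h = L p h + k)
    (hfg : ∀ N : Subgroup G, N.FiniteIndex → N.Normal → ∃ S : Finset M, (S : Set M) ⊆ H N ∧
      ∀ h ∈ H N, ∃ h' ∈ AddSubgroup.closure (S : Set M), ∀ p, L p h = L p h')
    (hdiv : ∀ N : Subgroup G, N.FiniteIndex → N.Normal → ∀ ℓ : ℕ, ℓ.Prime → ∀ h ∈ H N,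
      (∀ g ∈ N, ∃ k : ℤ, ∀ p, L (g • p) h = L p h + ℓ * k) → ∃ h' ∈ H N, h = ℓ • h') :
    ∃ p : ℕ → P, ∀ N : Subgroup G, N.FiniteIndex → N.Normal → ∃ K : ℕ, ∀ ℓ : ℕ, ℓ.Prime →
      K ≤ ℓ → ∀ j, ℓ ≤ j → ∀ h ∈ H N, Dv ℓ (L (p j) h) := by
  classical
  obtain ⟨f, hfi, hfn, hfa, hfc⟩ := cofinal G
  have hfS := fun k => hfg (f k) (hfi k) (hfn k)
  choose S hS hSg using hfS
  have hB : ∀ k, ∃ B : ℕ, ∀ ℓ : ℕ, ℓ.Prime → B ≤ ℓ → ∀ p, ∀ h ∈ H (f k), Iv ℓ (L p h) := by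
    intro k
    have := hfi k
    have := hfn k
    exact bound htr (f k) (H (f k)) L (hL (f k) (hfi k) (hfn k)) (S k) (hS k) (hSg k)
  choose B hB using hB
  -- a strictly increasing bound
  set β : ℕ → ℕ := fun k => k + ∑ i ∈ Finset.range (k + 1), B i with hβ
  have hβk : ∀ k, k ≤ β k := fun k => by simp [hβ]
  have hβB : ∀ k, B k ≤ β k := fun k => by
    have := Finset.single_le_sum (f := B) (s := Finset.range (k + 1)) (fun i _ => Nat.zero_le _)
      (Finset.mem_range.2 (Nat.lt_succ_self k))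
    simp only [hβ]
    omega
  have hcond : ∀ j : ℕ, ∃ p : P, ∀ ℓ : ℕ, ℓ.Prime → ℓ ≤ j → ∀ k, β k < ℓ →
      ∀ h ∈ H (f k), Dv ℓ (L p h) := by
    intro j
    induction j with
    | zero =>
      obtain ⟨p0⟩ := (inferInstance : Nonempty P)
      refine ⟨p0, fun ℓ hℓ h0 => ?_⟩
      exact absurd hℓ.pos (by omega)
    | succ j ih =>
      obtain ⟨p, hp⟩ := ih
      by_cases hpr : (j + 1).Prime
      swap
      · refine ⟨p, fun ℓ hℓ hle => ?_⟩
        have : ℓ ≠ j + 1 := fun h => hpr (h ▸ hℓ)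
        exact hp ℓ hℓ (by omega)
      set ℓ := j + 1 with hℓ
      by_cases hex : ∃ k, β k < ℓ
      swap
      · refine ⟨p, fun ℓ' hℓ' hle k hk => ?_⟩
        rcases Nat.lt_or_ge ℓ' ℓ with h1 | h1
        · exact hp ℓ' hℓ' (by omega) k hk
        · exfalso; exact hex ⟨k, by omega⟩
      -- the largest k with β k < ℓ
      set k := Nat.findGreatest (fun k => β k < ℓ) ℓ with hk
      obtain ⟨k0, hk0⟩ := hex
      have hkβ : β k < ℓ := Nat.findGreatest_spec (P := fun k => β k < ℓ)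
        (show k0 ≤ ℓ by have := hβk k0; omega) hk0
      have hkmax : ∀ k', β k' < ℓ → k' ≤ k := fun k' hk' =>
        Nat.le_findGreatest (by have := hβk k'; omega) hk'
      have hcop : (j.factorial).Coprime ℓ := by
        rw [Nat.coprime_comm]
        exact (Nat.coprime_factorial_iff hpr.one_lt.ne').2 (by
          rw [hpr.minFac_eq]; omega)
      obtain ⟨g, hg, hgD⟩ := step hpr (f k) (H (f k)) L (hL (f k) (hfi k) (hfn k)) (S k) (hS k)
        (hSg k) (hB k ℓ hpr (by have := hβB k; omega)) (hdiv (f k) (hfi k) (hfn k) ℓ hpr)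
        j.factorial hcop p
      refine ⟨g ^ j.factorial • p, fun ℓ' hℓ' hle k' hk' h hh => ?_⟩
      rcases Nat.lt_or_ge ℓ' ℓ with h1 | h1
      · have hkk : k' ≤ k := hkmax k' (by omega)
        have hgk : g ∈ f k' := hfa hkk hg
        obtain ⟨c, hc⟩ := hL (f k') (hfi k') (hfn k') h hh g hgk
        rw [pow_act L g h c hc]
        refine Dv.add hℓ' (hp ℓ' hℓ' (by omega) k' hk' h hh) ?_
        obtain ⟨e, he⟩ := (Nat.Prime.dvd_factorial hℓ').2 (show ℓ' ≤ j by omega)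
        rw [he]
        have := Dv.int hℓ' ((e : ℤ) * c)
        push_cast at this ⊢
        rwa [← mul_assoc] at this
      · have h2 : ℓ' = ℓ := by omega
        rw [h2] at hk' ⊢
        have hkk : k' ≤ k := hkmax k' hk'
        exact hgD h (hmono _ _ (hfa hkk) hh)
  choose p hp using hcond
  refine ⟨p, fun N h1 h2 => ?_⟩
  obtain ⟨k, hk⟩ := hfc N h1 h2
  refine ⟨β k + 1, fun ℓ hℓ hle j hj h hh => ?_⟩
  exact hp j ℓ hℓ hj k (by omega) h (hmono _ _ hk hh)

end Pool.Agent.W327.F4
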