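import Mathlib

/-!
# A continuous function satisfying a polynomial equation is holomorphic
-/

set_option autoImplicit false

open Polynomial Topology

namespace Pool.Agent.W327.F4

/-- evaluation at `(s, y)` -/
noncomputable def e2 (s y : ℂ) (q : Polynomial (Polynomial ℂ)) : ℂ :=
  (q.map (Polynomial.evalRingHom s)).eval y

theorem e2_mul (s y : ℂ) (p q : Polynomial (Polynomial ℂ)) :
    e2 s y (p * q) = e2 s y p * e2 s y q := by
  simp [e2]

theorem e2_add (s y : ℂ) (p q : Polynomial (Polynomial ℂ)) :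
    e2 s y (p + q) = e2 s y p + e2 s y q := by
  simp [e2]

theorem e2_pow (s y : ℂ) (p : Polynomial (Polynomial ℂ)) (n : ℕ) :
    e2 s y (p ^ n) = e2 s y p ^ n := by
  simp [e2]

theorem e2_C (s y : ℂ) (d : Polynomial ℂ) : e2 s y (C d) = d.eval s := by
  simp [e2]

theorem e2_eq_sum (s y : ℂ) (q : Polynomial (Polynomial ℂ)) :
    e2 s y q = ∑ k ∈ Finset.range (q.natDegree + 1), (q.coeff k).eval s * y ^ k := by
  rw [e2, eval_map, eval₂_eq_sum_range]
  rfl

/-- divided difference in the second variable -/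
noncomputable def RD (q : Polynomial (Polynomial ℂ)) (s y y₀ : ℂ) : ℂ :=
  ∑ k ∈ Finset.range (q.natDegree + 1), (q.coeff k).eval s *
    ∑ i ∈ Finset.range k, y ^ i * y₀ ^ (k - 1 - i)

theorem RD_mul (q : Polynomial (Polynomial ℂ)) (s y y₀ : ℂ) :
    RD q s y y₀ * (y - y₀) = e2 s y q - e2 s y₀ q := by
  rw [e2_eq_sum, e2_eq_sum, RD, Finset.sum_mul, ← Finset.sum_sub_distrib]
  refine Finset.sum_congr rfl fun k _ => ?_
  rw [mul_assoc, (Commute.all y y₀).geom_sum₂_mul]
  ring

theorem RD_self (q : Polynomial (Polynomial ℂ)) (s y₀ : ℂ) :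
    RD q s y₀ y₀ = e2 s y₀ (derivative q) := by
  rw [e2, ← derivative_map]
  have h1 : (q.map (Polynomial.evalRingHom s)) = ∑ k ∈ Finset.range (q.natDegree + 1),
      C ((q.coeff k).eval s) * X ^ k := by
    conv_lhs => rw [q.as_sum_range_C_mul_X_pow]
    rw [Polynomial.map_sum]
    refine Finset.sum_congr rfl fun k _ => ?_
    simp
  rw [h1, derivative_sum, eval_finsetSum, RD]
  refine Finset.sum_congr rfl fun k _ => ?_
  rw [derivative_C_mul_X_pow]
  simp only [eval_mul, eval_C, eval_pow, eval_X]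
  have h2 : ∀ i ∈ Finset.range k, y₀ ^ i * y₀ ^ (k - 1 - i) = y₀ ^ (k - 1) := by
    intro i hi
    rw [← pow_add]
    congr 1
    have := Finset.mem_range.1 hi
    omega
  rw [Finset.sum_congr rfl h2, Finset.sum_const, Finset.card_range, nsmul_eq_mul]
  ring

theorem differentiableAt_of_simple_root (q : Polynomial (Polynomial ℂ)) (F : ℂ → ℂ) (s : ℂ)
    (hF : ContinuousAt F s) (hq : ∀ᶠ t in 𝓝 s, e2 t (F t) q = 0)
    (hd : e2 s (F s) (derivative q) ≠ 0) : DifferentiableAt ℂ F s := by
  set y₀ := F s with hy₀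
  have hq0 : e2 s y₀ q = 0 := hq.self_of_nhds
  have hdiff : DifferentiableAt ℂ (fun t => e2 t y₀ q) s := by
    simp only [e2_eq_sum]
    fun_prop
  have hR : ContinuousAt (fun t => RD q t (F t) y₀) s := by
    unfold RD
    refine tendsto_finsetSum _ fun k _ => ?_
    apply ContinuousAt.mul
    · exact (q.coeff k).continuous.continuousAt
    · refine tendsto_finsetSum _ fun i _ => ?_
      exact (hF.pow i).mul continuousAt_const
  have hR0 : RD q s (F s) y₀ ≠ 0 := by
    rw [← hy₀, RD_self]; exact hd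
  have hRe : ∀ᶠ t in 𝓝 s, RD q t (F t) y₀ ≠ 0 := hR.eventually_ne hR0
  have h1 := hdiff.hasDerivAt
  rw [hasDerivAt_iff_tendsto_slope] at h1
  have h2 : Filter.Tendsto (slope F s) (𝓝[≠] s)
      (𝓝 (- deriv (fun t => e2 t y₀ q) s / RD q s (F s) y₀)) := by
    have h3 := (h1.neg).div (hR.tendsto.mono_left nhdsWithin_le_nhds) hR0
    refine h3.congr' ?_
    filter_upwards [self_mem_nhdsWithin, nhdsWithin_le_nhds hq, nhdsWithin_le_nhds hRe]
      with t ht hqt hRt
    have hts : t - s ≠ 0 := sub_ne_zero.2 ht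
    rw [Pi.div_apply, slope_def_field, slope_def_field, hq0, sub_zero]
    have h4 := RD_mul q t (F t) y₀
    rw [hqt, zero_sub] at h4
    rw [← hy₀]
    field_simp
    linear_combination -h4
  exact (hasDerivAt_iff_tendsto_slope.2 h2).differentiableAt

/-- squarefree part, with denominators cleared -/
theorem exists_radical (P : Polynomial (Polynomial ℂ)) (hP : P ≠ 0) :
    ∃ (q u v w : Polynomial (Polynomial ℂ)) (d d' : Polynomial ℂ) (N : ℕ), d ≠ 0 ∧ d' ≠ 0 ∧
      u * q + v * derivative q = C d ∧ C d' * q ^ N = P * w := by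
  classical
  let K := FractionRing (Polynomial ℂ)
  let φ : Polynomial ℂ →+* K := algebraMap (Polynomial ℂ) K
  have hφ : Function.Injective φ := IsFractionRing.injective _ _
  have hφ' : Function.Injective (Polynomial.map φ) := Polynomial.map_injective φ hφ
  have hcl : ∀ p : Polynomial K, ∃ (a : Polynomial ℂ) (p' : Polynomial (Polynomial ℂ)), a ≠ 0 ∧
      p'.map φ = C (φ a) * p := by
    intro p
    obtain ⟨a, ha, h⟩ := IsLocalization.integerNormalization_spec
      (nonZeroDivisors (Polynomial ℂ)) p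
    refine ⟨a, _, nonZeroDivisors.ne_zero ha, h.trans ?_⟩
    rw [← smul_eq_C_mul]
    exact (algebraMap_smul K a p).symm
  have hPm : P.map φ ≠ 0 := by
    rw [Ne, Polynomial.map_eq_zero_iff hφ]; exact hP
  set Q : Polynomial K := UniqueFactorizationMonoid.radical (P.map φ) with hQ
  have hsq : Squarefree Q := UniqueFactorizationMonoid.squarefree_radical
  have hsep : Q.Separable := PerfectField.separable_iff_squarefree.2 hsq
  obtain ⟨U, V, hUV⟩ := hsep
  obtain ⟨N, W, hN⟩ := UniqueFactorizationMonoid.exists_dvd_radical_self_pow hPm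
  rw [← hQ] at hN
  obtain ⟨a, q, ha, hq⟩ := hcl Q
  obtain ⟨a₁, u, ha₁, hu⟩ := hcl U
  obtain ⟨a₂, v, ha₂, hv⟩ := hcl V
  obtain ⟨a₃, w, ha₃, hw⟩ := hcl W
  refine ⟨q, C a₂ * u, C a₁ * v, C (a ^ N) * w, a * a₁ * a₂, a₃, N,
    mul_ne_zero (mul_ne_zero ha ha₁) ha₂, ha₃, ?_, ?_⟩
  · apply hφ'
    have hdq : (derivative q).map φ = C (φ a) * derivative Q := by
      rw [← derivative_map, hq, derivative_C_mul]
    simp only [Polynomial.map_add, Polynomial.map_mul, hq, hu, hv, hdq, map_C, map_mul]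
    linear_combination (C (φ a) * C (φ a₁) * C (φ a₂)) * hUV
  · apply hφ'
    simp only [Polynomial.map_mul, Polynomial.map_pow, hq, hw, map_C, map_pow]
    rw [mul_pow]
    linear_combination (C (φ a₃) * C (φ a) ^ N) * hN

/-- a continuous function that satisfies a nonzero polynomial equation over `ℂ[s]` is holomorphic -/
theorem holo_of_algebraic {Ω : Set ℂ} (hΩ : IsOpen Ω) (F : ℂ → ℂ) (hF : ContinuousOn F Ω)
    (P : Polynomial (Polynomial ℂ)) (hP : P ≠ 0)
    (h : ∀ s ∈ Ω, (P.map (Polynomial.evalRingHom s)).eval (F s) = 0) :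
    DifferentiableOn ℂ F Ω := by
  classical
  obtain ⟨q, u, v, w, d, d', N, hd, hd', h1, h2⟩ := exists_radical P hP
  have hq : ∀ s ∈ Ω, d'.eval s ≠ 0 → e2 s (F s) q = 0 := by
    intro s hs hds
    have h3 := congrArg (e2 s (F s)) h2
    rw [e2_mul, e2_mul, e2_C, e2_pow] at h3
    have h4 : e2 s (F s) P = 0 := h s hs
    rw [h4, zero_mul] at h3
    rcases mul_eq_zero.1 h3 with h5 | h5
    · exact absurd h5 hds
    · exact eq_zero_of_pow_eq_zero h5
  have hgood : ∀ s ∈ Ω, (d * d').eval s ≠ 0 → DifferentiableAt ℂ F s := by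
    intro s hs hds
    rw [eval_mul] at hds
    have hds1 : d.eval s ≠ 0 := left_ne_zero_of_mul hds
    have hds2 : d'.eval s ≠ 0 := right_ne_zero_of_mul hds
    refine differentiableAt_of_simple_root q F s (hF.continuousAt (hΩ.mem_nhds hs)) ?_ ?_
    · have h3 : ∀ᶠ t in 𝓝 s, d'.eval t ≠ 0 := (d'.continuous.continuousAt).eventually_ne hds2
      filter_upwards [hΩ.mem_nhds hs, h3] with t ht1 ht2
      exact hq t ht1 ht2
    · intro h3
      have h4 := congrArg (e2 s (F s)) h1
      rw [e2_add, e2_mul, e2_mul, e2_C, hq s hs hds2, h3] at h4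
      simp only [mul_zero, add_zero] at h4
      exact hds1 h4.symm
  intro c hc
  have hb : d * d' ≠ 0 := mul_ne_zero hd hd'
  have hev : ∀ᶠ z in 𝓝[≠] c, DifferentiableAt ℂ F z := by
    have h1 : (((d * d').roots.toFinset.erase c : Finset ℂ) : Set ℂ)ᶜ ∈ 𝓝 c :=
      ((Finset.finite_toSet _).isClosed).isOpen_compl.mem_nhds (by simp)
    filter_upwards [self_mem_nhdsWithin, nhdsWithin_le_nhds h1,
      nhdsWithin_le_nhds (hΩ.mem_nhds hc)] with w hw hw2 hw3
    apply hgood w hw3
    intro h3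
    apply hw2
    simp only [Finset.coe_erase, Set.mem_sdiff, Finset.mem_coe, Multiset.mem_toFinset,
      mem_roots hb, IsRoot]
    exact ⟨h3, hw⟩
  exact (Complex.analyticAt_of_differentiable_on_punctured_nhds_of_continuousAt hev
    (hF.continuousAt (hΩ.mem_nhds hc))).differentiableAt.differentiableWithinAt

end Pool.Agent.W327.F4
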