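import Pool.Agent.W327.F4.Growth
import Pool.Agent.W327.F4.Holo

/-!
# Functions of several variables that are polynomials along coordinate lines
-/

set_option autoImplicit false

open Polynomial Topology

namespace Pool.Agent.W327.F4

/-- the restriction of `D` to a coordinate line -/
noncomputable def lineP {n : ℕ} (D : MvPolynomial (Fin n) ℂ) (x : Fin n → ℂ) (i : Fin n) :
    Polynomial ℂ :=
  MvPolynomial.aeval (fun j => if j = i then X else C (x j)) D

theorem lineP_eval {n : ℕ} (D : MvPolynomial (Fin n) ℂ) (x : Fin n → ℂ) (i : Fin n) (t : ℂ) :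
    (lineP D x i).eval t = MvPolynomial.eval (Function.update x i t) D := by
  unfold lineP
  have h : ∀ p : MvPolynomial (Fin n) ℂ, (Polynomial.evalRingHom t)
      (MvPolynomial.aeval (fun j => if j = i then (X : Polynomial ℂ) else C (x j)) p) =
      MvPolynomial.eval (Function.update x i t) p := by
    intro p
    induction p using MvPolynomial.induction_on with
    | C a => simp
    | add p q hp hq => rw [map_add, map_add, hp, hq, map_add]
    | mul_X p j hp =>
      rw [map_mul, map_mul, hp, map_mul, MvPolynomial.aeval_X, MvPolynomial.eval_X]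
      congr 1
      by_cases hj : j = i
      · subst hj; simp
      · simp [hj]
  exact h D

theorem exists_eval_ne {n : ℕ} (D : MvPolynomial (Fin n) ℂ) (hD : D ≠ 0) :
    ∃ x, MvPolynomial.eval x D ≠ 0 := by
  by_contra h
  push Not at h
  exact hD (MvPolynomial.funext fun x => by rw [h x, map_zero])

theorem interpolation (r : ℕ) : ∀ (n : ℕ) (c : (Fin n → ℂ) → ℂ) (D : MvPolynomial (Fin n) ℂ)
    (_hD : D ≠ 0) (_H : ∀ x i, ∃ q : Polynomial ℂ, q.natDegree ≤ r ∧ ∀ t,
      MvPolynomial.eval (Function.update x i t) D ≠ 0 → c (Function.update x i t) = q.eval t),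
    ∃ (D' Q : MvPolynomial (Fin n) ℂ), D' ≠ 0 ∧ ∀ x, MvPolynomial.eval x D' ≠ 0 →
      c x = MvPolynomial.eval x Q := by
  classical
  intro n
  induction n with
  | zero =>
    intro c D _ _
    refine ⟨1, MvPolynomial.C (c 0), one_ne_zero, fun x _ => ?_⟩
    rw [MvPolynomial.eval_C]
    congr 1
    exact Subsingleton.elim _ _
  | succ n ih =>
    intro c D hD H
    obtain ⟨xs, hxs⟩ := exists_eval_ne D hD
    set ys := Fin.tail xs with hys
    have hline : lineP D xs 0 ≠ 0 := by
      intro h
      have := lineP_eval D xs 0 (xs 0)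
      rw [h, Function.update_eq_self, eval_zero] at this
      exact hxs this.symm
    have hinf : {t : ℂ | (lineP D xs 0).eval t ≠ 0}.Infinite := by
      have h1 : {t : ℂ | (lineP D xs 0).eval t ≠ 0} = (((lineP D xs 0).roots.toFinset : Set ℂ))ᶜ := by
        ext s
        simp [hline]
      rw [h1]
      exact (Finset.finite_toSet _).infinite_compl
    obtain ⟨s, hs, hcard⟩ := hinf.exists_subset_card_eq (r + 1)
    -- slices of D
    let Dt : ℂ → MvPolynomial (Fin n) ℂ := fun t =>
      MvPolynomial.aeval (Fin.cons (MvPolynomial.C t) MvPolynomial.X :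
        Fin (n+1) → MvPolynomial (Fin n) ℂ) D
    have hDt : ∀ t y, MvPolynomial.eval y (Dt t) = MvPolynomial.eval (Fin.cons t y) D := by
      intro t y
      have h : ∀ p : MvPolynomial (Fin (n+1)) ℂ, MvPolynomial.eval y
          (MvPolynomial.aeval (Fin.cons (MvPolynomial.C t) MvPolynomial.X :
            Fin (n+1) → MvPolynomial (Fin n) ℂ) p) = MvPolynomial.eval (Fin.cons t y) p := by
        intro p
        induction p using MvPolynomial.induction_on with
        | C a => simp
        | add p q hp hq => rw [map_add, map_add, hp, hq, map_add]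
        | mul_X p j hp =>
          rw [map_mul, map_mul, hp, map_mul, MvPolynomial.aeval_X, MvPolynomial.eval_X]
          congr 1
          refine Fin.cases ?_ (fun j => ?_) j
          · simp
          · simp
      exact h D
    have hDt0 : ∀ t ∈ s, Dt t ≠ 0 := by
      intro t ht h
      have h1 := hs ht
      rw [Set.mem_ofPred_eq, lineP_eval] at h1
      apply h1
      have h2 : Function.update xs 0 t = Fin.cons t ys := by
        conv_lhs => rw [← Fin.cons_self_tail xs]
        rw [Fin.update_cons_zero]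
      rw [h2, ← hDt, h, map_zero]
    have hex : ∀ t, ∃ (D' Q : MvPolynomial (Fin n) ℂ), t ∈ s → (D' ≠ 0 ∧
        ∀ y, MvPolynomial.eval y D' ≠ 0 → c (Fin.cons t y) = MvPolynomial.eval y Q) := by
      intro t
      by_cases ht : t ∈ s
      · obtain ⟨D', Q, h1, h2⟩ := ih (fun y => c (Fin.cons t y)) (Dt t) (hDt0 t ht) (by
          intro y i
          obtain ⟨q, hq1, hq2⟩ := H (Fin.cons t y) i.succ
          refine ⟨q, hq1, fun u hu => ?_⟩
          rw [hDt, Fin.cons_update] at hu
          rw [Fin.cons_update]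
          exact hq2 u hu)
        exact ⟨D', Q, fun _ => ⟨h1, h2⟩⟩
      · exact ⟨0, 0, fun h => absurd h ht⟩
    choose D' Q hDQ using hex
    refine ⟨D * ∏ t ∈ s, MvPolynomial.rename Fin.succ (Dt t * D' t),
      ∑ t ∈ s, MvPolynomial.rename Fin.succ (Q t) *
        Polynomial.aeval (MvPolynomial.X 0 : MvPolynomial (Fin (n+1)) ℂ)
          (Lagrange.basis s id t), ?_, ?_⟩
    · refine mul_ne_zero hD (Finset.prod_ne_zero_iff.2 fun t ht => ?_)
      rw [Ne, map_eq_zero_iff _ (MvPolynomial.rename_injective _ (Fin.succ_injective n))]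
      exact mul_ne_zero (hDt0 t ht) (hDQ t ht).1
    · intro x hx
      obtain ⟨t₀, y, rfl⟩ : ∃ t₀ y, x = Fin.cons t₀ y := ⟨x 0, Fin.tail x, (Fin.cons_self_tail x).symm⟩
      have hren : ∀ P : MvPolynomial (Fin n) ℂ, MvPolynomial.eval (Fin.cons t₀ y)
          (MvPolynomial.rename Fin.succ P) = MvPolynomial.eval y P := by
        intro P
        rw [MvPolynomial.eval_rename]
        congr 1
      rw [map_mul, map_prod] at hx
      have hx1 : MvPolynomial.eval (Fin.cons t₀ y) D ≠ 0 := left_ne_zero_of_mul hx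
      have hx2 : ∀ t ∈ s, MvPolynomial.eval (Fin.cons t y) D ≠ 0 ∧
          MvPolynomial.eval y (D' t) ≠ 0 := by
        intro t ht
        have := Finset.prod_ne_zero_iff.1 (right_ne_zero_of_mul hx) t ht
        rw [hren, map_mul, hDt] at this
        exact ⟨left_ne_zero_of_mul this, right_ne_zero_of_mul this⟩
      obtain ⟨q, hq1, hq2⟩ := H (Fin.cons t₀ y) 0
      have hq3 : ∀ t, MvPolynomial.eval (Fin.cons t y) D ≠ 0 → c (Fin.cons t y) = q.eval t := by
        intro t ht
        have := hq2 t
        rw [Fin.update_cons_zero] at this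
        exact this ht
      have hq4 : q = Lagrange.interpolate s id fun t => q.eval t := by
        apply Lagrange.eq_interpolate (v := id) (Function.injective_id.injOn)
        rw [hcard]
        refine lt_of_le_of_lt degree_le_natDegree ?_
        exact_mod_cast Nat.lt_succ_of_le hq1
      rw [hq3 t₀ hx1, hq4, Lagrange.interpolate_apply, eval_finsetSum, map_sum]
      refine Finset.sum_congr rfl fun t ht => ?_
      rw [eval_mul, eval_C, map_mul, hren, ← (hDQ t ht).2 y (hx2 t ht).2, hq3 t (hx2 t ht).1]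
      congr 1
      have h : ∀ p : Polynomial ℂ, MvPolynomial.eval (Fin.cons t₀ y)
          (Polynomial.aeval (MvPolynomial.X 0 : MvPolynomial (Fin (n+1)) ℂ) p) = p.eval t₀ := by
        intro p
        induction p using Polynomial.induction_on with
        | C a => simp [MvPolynomial.algebraMap_eq]
        | add p q hp hq => rw [map_add, map_add, hp, hq, eval_add]
        | monomial m a _ => simp [MvPolynomial.algebraMap_eq]
      exact (h _).symm

/-- polynomial growth -/
def PG {n : ℕ} (g : (Fin n → ℂ) → ℝ) : Prop := ∃ (C : ℝ) (r : ℕ), 0 ≤ C ∧ ∀ x, g x ≤ C * (1 + ‖x‖) ^ r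

theorem PG.const {n : ℕ} (a : ℝ) : PG (fun _ : Fin n → ℂ => a) :=
  ⟨|a|, 0, abs_nonneg a, fun x => by simpa using le_abs_self a⟩

theorem PG.mono {n : ℕ} {g g' : (Fin n → ℂ) → ℝ} (h : PG g) (hg : ∀ x, g' x ≤ g x) : PG g' := by
  obtain ⟨C, r, h1, h2⟩ := h
  exact ⟨C, r, h1, fun x => (hg x).trans (h2 x)⟩

theorem PG.add {n : ℕ} {g g' : (Fin n → ℂ) → ℝ} (h : PG g) (h' : PG g') :
    PG (fun x => g x + g' x) := by
  obtain ⟨C, r, h1, h2⟩ := h
  obtain ⟨C', r', h1', h2'⟩ := h'
  refine ⟨C + C', max r r', by positivity, fun x => ?_⟩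
  have h0 : (1:ℝ) ≤ 1 + ‖x‖ := by linarith [norm_nonneg x]
  have h3 : (1 + ‖x‖) ^ r ≤ (1 + ‖x‖) ^ (max r r') := pow_le_pow_right₀ h0 (le_max_left _ _)
  have h4 : (1 + ‖x‖) ^ r' ≤ (1 + ‖x‖) ^ (max r r') := pow_le_pow_right₀ h0 (le_max_right _ _)
  calc g x + g' x ≤ C * (1 + ‖x‖) ^ r + C' * (1 + ‖x‖) ^ r' := add_le_add (h2 x) (h2' x)
    _ ≤ C * (1 + ‖x‖) ^ (max r r') + C' * (1 + ‖x‖) ^ (max r r') := by gcongr
    _ = _ := by ring

theorem PG.mul {n : ℕ} {g g' : (Fin n → ℂ) → ℝ} (h : PG g) (h' : PG g') (hg : ∀ x, 0 ≤ g' x) :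
    PG (fun x => g x * g' x) := by
  obtain ⟨C, r, h1, h2⟩ := h
  obtain ⟨C', r', h1', h2'⟩ := h'
  refine ⟨C * C', r + r', by positivity, fun x => ?_⟩
  calc g x * g' x ≤ (C * (1 + ‖x‖) ^ r) * (C' * (1 + ‖x‖) ^ r') :=
        mul_le_mul (h2 x) (h2' x) (hg x) (by positivity)
    _ = _ := by ring

theorem PG.pow {n : ℕ} {g : (Fin n → ℂ) → ℝ} (h : PG g) (hg : ∀ x, 0 ≤ g x) (k : ℕ) :
    PG (fun x => g x ^ k) := by
  induction k with
  | zero => simpa using PG.const 1
  | succ k ih => simpa only [pow_succ] using ih.mul h hg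

theorem PG.sum {n : ℕ} {ι : Type*} (s : Finset ι) {g : ι → (Fin n → ℂ) → ℝ}
    (h : ∀ i ∈ s, PG (g i)) : PG (fun x => ∑ i ∈ s, g i x) := by
  classical
  induction s using Finset.induction_on with
  | empty => simpa using PG.const 0
  | insert a s ha ih =>
    simp only [Finset.sum_insert ha]
    exact (h a (Finset.mem_insert_self _ _)).add (ih fun i hi => h i (Finset.mem_insert_of_mem hi))

theorem PG.mv {n : ℕ} (p : MvPolynomial (Fin n) ℂ) : PG (fun x => ‖MvPolynomial.eval x p‖) := by
  induction p using MvPolynomial.induction_on with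
  | C a => simpa using PG.const ‖a‖
  | add p q hp hq => exact (hp.add hq).mono fun x => by rw [map_add]; exact norm_add_le _ _
  | mul_X p i hp =>
    have h : PG (fun x : Fin n → ℂ => ‖x i‖) :=
      ⟨1, 1, zero_le_one, fun x => by
        have := norm_le_pi_norm x i
        linarith⟩
    exact (hp.mul h fun x => norm_nonneg _).mono fun x => by rw [map_mul, norm_mul, MvPolynomial.eval_X]

end Pool.Agent.W327.F4
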