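import Pool.Agent.W327.F4.AcA

/-!
# Local root functions and power sums over a clopen set of roots
-/

set_option autoImplicit false

open Polynomial Topology

namespace Pool.Agent.W327.F4

/-- value of a polynomial in `T` over `ℂ[x₁..xₙ]` at `(x, τ)` -/
noncomputable def ev {n : ℕ} (x : Fin n → ℂ) (τ : ℂ) (f : Polynomial (MvPolynomial (Fin n) ℂ)) : ℂ :=
  (f.map (MvPolynomial.eval x)).eval τ

section
variable {n : ℕ} (x : Fin n → ℂ) (τ : ℂ) (f g : Polynomial (MvPolynomial (Fin n) ℂ))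

theorem ev_mul : ev x τ (f * g) = ev x τ f * ev x τ g := by simp [ev]
theorem ev_add : ev x τ (f + g) = ev x τ f + ev x τ g := by simp [ev]
theorem ev_sub : ev x τ (f - g) = ev x τ f - ev x τ g := by simp [ev]
theorem ev_C (a : MvPolynomial (Fin n) ℂ) : ev x τ (C a) = MvPolynomial.eval x a := by simp [ev]
theorem ev_X : ev x τ (X : Polynomial (MvPolynomial (Fin n) ℂ)) = τ := by simp [ev]
theorem ev_pow (k : ℕ) : ev x τ (f ^ k) = ev x τ f ^ k := by simp [ev]
theorem ev_one : ev x τ (1 : Polynomial (MvPolynomial (Fin n) ℂ)) = 1 := by simp [ev]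
theorem ev_zero : ev x τ (0 : Polynomial (MvPolynomial (Fin n) ℂ)) = 0 := by simp [ev]

theorem ev_sum {ι : Type*} (s : Finset ι) (F : ι → Polynomial (MvPolynomial (Fin n) ℂ)) :
    ev x τ (∑ i ∈ s, F i) = ∑ i ∈ s, ev x τ (F i) := by
  simp [ev, Polynomial.map_sum, eval_finsetSum]

theorem ev_eq_sum : ev x τ f =
    ∑ k ∈ Finset.range (f.natDegree + 1), MvPolynomial.eval x (f.coeff k) * τ ^ k := by
  rw [ev, eval_map, eval₂_eq_sum_range]

theorem ev_derivative : ev x τ (derivative f) = (derivative (f.map (MvPolynomial.eval x))).eval τ := by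
  rw [ev, derivative_map]
end

theorem analytic_ev {n : ℕ} (f : Polynomial (MvPolynomial (Fin n) ℂ)) (z : (Fin n → ℂ) × ℂ) :
    AnalyticAt ℂ (fun z : (Fin n → ℂ) × ℂ => ev z.1 z.2 f) z := by
  simp only [ev_eq_sum]
  refine Finset.analyticAt_fun_sum _ fun k _ => ?_
  apply AnalyticAt.mul
  · have h1 := (AnalyticOnNhd.eval_mvPolynomial (f.coeff k)) z.1 (Set.mem_univ _)
    exact AnalyticAt.fun_comp (g := fun x => MvPolynomial.eval x (f.coeff k))
      (f := fun z : (Fin n → ℂ) × ℂ => z.1) h1 analyticAt_fst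
  · exact analyticAt_snd.pow k

theorem continuous_ev {n : ℕ} (f : Polynomial (MvPolynomial (Fin n) ℂ)) :
    Continuous (fun z : (Fin n → ℂ) × ℂ => ev z.1 z.2 f) :=
  continuous_iff_continuousAt.2 fun z => (analytic_ev f z).continuousAt

theorem loc_root {n : ℕ} (f : Polynomial (MvPolynomial (Fin n) ℂ)) (x : Fin n → ℂ) (τ : ℂ)
    (h0 : ev x τ f = 0) (h1 : ev x τ (derivative f) ≠ 0) :
    ∃ T : (Fin n → ℂ) → ℂ, T x = τ ∧ DifferentiableAt ℂ T x ∧ ∀ᶠ x' in 𝓝 x, ev x' (T x') f = 0 := by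
  set Φ : (Fin n → ℂ) × ℂ → ℂ := fun z => ev z.1 z.2 f with hΦ
  have hs : HasStrictFDerivAt Φ (fderiv ℂ Φ (x, τ)) (x, τ) := (analytic_ev f (x, τ)).hasStrictFDerivAt
  set L := fderiv ℂ Φ (x, τ) with hL
  have hL1 : L (0, 1) = ev x τ (derivative f) := by
    have h2 : HasDerivAt (fun t : ℂ => Φ (x, t)) (L (0, 1)) τ := by
      have h3 : HasDerivAt (fun t : ℂ => ((x, t) : (Fin n → ℂ) × ℂ)) ((0 : Fin n → ℂ), (1:ℂ)) τ :=
        (hasDerivAt_const τ x).prodMk (hasDerivAt_id τ)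
      exact hs.hasFDerivAt.comp_hasDerivAt τ h3
    have h4 : HasDerivAt (fun t : ℂ => Φ (x, t)) (ev x τ (derivative f)) τ := by
      rw [ev_derivative]
      exact (f.map (MvPolynomial.eval x)).hasDerivAt τ
    exact h2.unique h4
  have hinv : (L ∘L .inr ℂ (Fin n → ℂ) ℂ).IsInvertible := by
    refine ⟨ContinuousLinearEquiv.unitsEquivAut ℂ (Units.mk0 _ h1), ?_⟩
    ext
    simp [hL1]
  refine ⟨hs.implicitFunctionOfProdDomain hinv, ?_, ?_, ?_⟩
  · exact (hs.eventually_apply_eq_iff_implicitFunctionOfProdDomain hinv).self_of_nhds.1 rfl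
  · exact (hs.hasStrictFDerivAt_implicitFunctionOfProdDomain hinv).hasFDerivAt.differentiableAt
  · have := hs.eventually_apply_implicitFunctionOfProdDomain hinv
    filter_upwards [this] with x' hx'
    exact hx'.trans h0

/-- the roots -/
noncomputable def rts {n : ℕ} (f : Polynomial (MvPolynomial (Fin n) ℂ)) (x : Fin n → ℂ) : Finset ℂ :=
  (f.map (MvPolynomial.eval x)).roots.toFinset

section
variable {n : ℕ} {f : Polynomial (MvPolynomial (Fin n) ℂ)} (hf : f.Monic)
include hf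

theorem mem_rts {x : Fin n → ℂ} {τ : ℂ} : τ ∈ rts f x ↔ ev x τ f = 0 := by
  unfold rts ev
  rw [Multiset.mem_toFinset, mem_roots (hf.map _).ne_zero, IsRoot]

theorem card_rts_le (x : Fin n → ℂ) : (rts f x).card ≤ f.natDegree := by
  unfold rts
  refine (Multiset.toFinset_card_le _).trans ((card_roots' _).trans ?_)
  rw [hf.natDegree_map]

theorem card_rts {x : Fin n → ℂ} (hx : ∀ τ, ev x τ f = 0 → ev x τ (derivative f) ≠ 0) :
    (rts f x).card = f.natDegree := by
  have hm := hf.map (MvPolynomial.eval x)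
  have hnd : (f.map (MvPolynomial.eval x)).roots.Nodup := by
    rw [Multiset.nodup_iff_count_le_one]
    intro a
    rw [count_roots]
    by_contra h
    push Not at h
    have h2 := (one_lt_rootMultiplicity_iff_isRoot hm.ne_zero).1 h
    exact hx a h2.1 (by rw [ev_derivative]; exact h2.2)
  unfold rts
  rw [Multiset.toFinset_card_of_nodup hnd, ← hf.natDegree_map (MvPolynomial.eval x)]
  exact (IsAlgClosed.splits _).natDegree_eq_card_roots.symm

theorem root_growth : ∃ g : (Fin n → ℂ) → ℝ, PG g ∧ (∀ x, 0 ≤ g x) ∧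
    ∀ x τ, ev x τ f = 0 → ‖τ‖ ≤ g x := by
  refine ⟨fun x => 1 + ∑ k ∈ Finset.range f.natDegree, ‖MvPolynomial.eval x (f.coeff k)‖, ?_, ?_, ?_⟩
  · exact (PG.const 1).add (PG.sum _ fun k _ => PG.mv _)
  · intro x; positivity
  · intro x τ h
    have hS : 0 ≤ ∑ k ∈ Finset.range f.natDegree, ‖MvPolynomial.eval x (f.coeff k)‖ := by positivity
    rcases le_or_gt ‖τ‖ 1 with h1 | h1
    · linarith
    · rw [ev_eq_sum, Finset.sum_range_succ, hf.coeff_natDegree, map_one, one_mul] at h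
      have hd : f.natDegree ≠ 0 := by
        intro hd
        rw [hd] at h
        simp at h
      have h2 : τ ^ f.natDegree = - ∑ k ∈ Finset.range f.natDegree,
          MvPolynomial.eval x (f.coeff k) * τ ^ k := by
        linear_combination h
      have h3 : ‖τ‖ ^ f.natDegree ≤ (∑ k ∈ Finset.range f.natDegree,
          ‖MvPolynomial.eval x (f.coeff k)‖) * ‖τ‖ ^ (f.natDegree - 1) := by
        rw [← norm_pow, h2, norm_neg, Finset.sum_mul]
        refine (norm_sum_le _ _).trans (Finset.sum_le_sum fun k hk => ?_)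
        rw [norm_mul, norm_pow]
        have hk' := Finset.mem_range.1 hk
        have : ‖τ‖ ^ k ≤ ‖τ‖ ^ (f.natDegree - 1) := pow_le_pow_right₀ h1.le (by omega)
        gcongr
      have h4 : ‖τ‖ ^ f.natDegree = ‖τ‖ * ‖τ‖ ^ (f.natDegree - 1) := by
        rw [← pow_succ']
        congr 1
        omega
      rw [h4] at h3
      have := le_of_mul_le_mul_right h3 (by positivity)
      linarith

end

/-- power sums over the roots in a subset -/
noncomputable def cs {n : ℕ} (f : Polynomial (MvPolynomial (Fin n) ℂ))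
    (χ : (Fin n → ℂ) × ℂ → Bool) (k : ℕ) (x : Fin n → ℂ) : ℂ :=
  ∑ τ ∈ rts f x, (if χ (x, τ) then 1 else 0) * τ ^ k

theorem cs_diff {n : ℕ} {f : Polynomial (MvPolynomial (Fin n) ℂ)} (hf : f.Monic)
    (V : Set ((Fin n → ℂ) × ℂ)) (χ : (Fin n → ℂ) × ℂ → Bool) (hχ : ContinuousOn χ V)
    (x : Fin n → ℂ) (hx : ∀ τ, ev x τ f = 0 → ev x τ (derivative f) ≠ 0)
    (hV : ∀ᶠ x' in 𝓝 x, ∀ τ, ev x' τ f = 0 → (x', τ) ∈ V) (k : ℕ) :
    DifferentiableAt ℂ (cs f χ k) x := by
  classical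
  have hroot : ∀ τ ∈ rts f x, ∃ T : (Fin n → ℂ) → ℂ, T x = τ ∧ DifferentiableAt ℂ T x ∧
      ∀ᶠ x' in 𝓝 x, ev x' (T x') f = 0 := by
    intro τ hτ
    have h0 := (mem_rts hf).1 hτ
    exact loc_root f x τ h0 (hx τ h0)
  choose! T hT1 hT2 hT3 using hroot
  have hall : ∀ᶠ x' in 𝓝 x, ∀ τ ∈ rts f x, ev x' (T τ x') f = 0 := by
    rw [Filter.eventually_all_finset]
    exact fun τ hτ => hT3 τ hτ
  have hdist : ∀ᶠ x' in 𝓝 x, ∀ τ ∈ rts f x, ∀ τ' ∈ rts f x, τ ≠ τ' → T τ x' ≠ T τ' x' := by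
    rw [Filter.eventually_all_finset]
    intro τ hτ
    rw [Filter.eventually_all_finset]
    intro τ' hτ'
    by_cases h : τ = τ'
    · exact Filter.Eventually.of_forall fun _ h' => absurd h h'
    · have h1 : ContinuousAt (fun x' => T τ x' - T τ' x') x :=
        (hT2 τ hτ).continuousAt.sub (hT2 τ' hτ').continuousAt
      have h2 : T τ x - T τ' x ≠ 0 := by
        rw [hT1 τ hτ, hT1 τ' hτ']; exact sub_ne_zero.2 h
      filter_upwards [h1.eventually_ne h2] with x' hx' _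
      exact sub_ne_zero.1 hx'
  have hchi : ∀ᶠ x' in 𝓝 x, ∀ τ ∈ rts f x, χ (x', T τ x') = χ (x, τ) := by
    rw [Filter.eventually_all_finset]
    intro τ hτ
    have h0 := (mem_rts hf).1 hτ
    have hmem : (x, τ) ∈ V := hV.self_of_nhds τ h0
    have h1 : Filter.Tendsto χ (𝓝[V] (x, τ)) (𝓝 (χ (x, τ))) := hχ _ hmem
    have h2 : Filter.Tendsto (fun x' => (x', T τ x')) (𝓝 x) (𝓝[V] (x, τ)) := by
      rw [tendsto_nhdsWithin_iff]
      constructor
      · have h3 : Filter.Tendsto (T τ) (𝓝 x) (𝓝 τ) := by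
          have := (hT2 τ hτ).continuousAt.tendsto
          rwa [hT1 τ hτ] at this
        exact Filter.tendsto_id.prodMk_nhds h3
      · filter_upwards [hV, hT3 τ hτ] with x' h4 h5
        exact h4 _ h5
    have h3 := h1.comp h2
    rw [nhds_discrete Bool] at h3
    exact (Filter.tendsto_pure.1 h3)
  have heq : cs f χ k =ᶠ[𝓝 x] fun x' => ∑ τ ∈ rts f x, (if χ (x, τ) then 1 else 0) * (T τ x') ^ k := by
    filter_upwards [hall, hdist, hchi] with x' h1 h2 h3
    have hinj : Set.InjOn (fun τ => T τ x') (rts f x) := by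
      intro τ hτ τ' hτ' h
      by_contra hne
      exact h2 τ hτ τ' hτ' hne h
    have himg : (rts f x).image (fun τ => T τ x') = rts f x' := by
      apply Finset.eq_of_subset_of_card_le
      · intro σ hσ
        obtain ⟨τ, hτ, rfl⟩ := Finset.mem_image.1 hσ
        exact (mem_rts hf).2 (h1 τ hτ)
      · rw [Finset.card_image_of_injOn hinj, card_rts hf hx]
        exact card_rts_le hf x'
    rw [cs, ← himg, Finset.sum_image hinj]
    refine Finset.sum_congr rfl fun τ hτ => ?_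
    rw [h3 τ hτ]
  refine DifferentiableAt.congr_of_eventuallyEq ?_ heq
  apply DifferentiableAt.fun_sum
  intro τ hτ
  exact ((hT2 τ hτ).pow k).const_mul _

theorem cs_growth {n : ℕ} {f : Polynomial (MvPolynomial (Fin n) ℂ)} (hf : f.Monic)
    (χ : (Fin n → ℂ) × ℂ → Bool) (k : ℕ) : PG (fun x => ‖cs f χ k x‖) := by
  obtain ⟨g, hg, hg0, hgr⟩ := root_growth hf
  refine ((PG.const (n := n) f.natDegree).mul (hg.pow hg0 k) (fun x => by have := hg0 x; positivity)).mono
    fun x => ?_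
  unfold cs
  refine (norm_sum_le _ _).trans ?_
  have h1 : ∀ τ ∈ rts f x, ‖(if χ (x, τ) then (1:ℂ) else 0) * τ ^ k‖ ≤ g x ^ k := by
    intro τ hτ
    rw [norm_mul, norm_pow]
    have h2 : ‖(if χ (x, τ) then (1:ℂ) else 0)‖ ≤ 1 := by split_ifs <;> simp
    have h3 : ‖τ‖ ^ k ≤ g x ^ k := by
      have := hgr x τ ((mem_rts hf).1 hτ)
      gcongr
    have h4 : 0 ≤ ‖τ‖ ^ k := by positivity
    nlinarith
  refine (Finset.sum_le_card_nsmul _ _ _ h1).trans ?_
  rw [nsmul_eq_mul]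
  have : ((rts f x).card : ℝ) ≤ f.natDegree := by exact_mod_cast card_rts_le hf x
  have h5 : 0 ≤ g x ^ k := pow_nonneg (hg0 x) k
  exact mul_le_mul_of_nonneg_right this h5

end Pool.Agent.W327.F4
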