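import Pool.Agent.W327.F4.AcB

/-!
# Irreducible hypersurface pieces are connected
-/

set_option autoImplicit false

open Polynomial Topology

namespace Pool.Agent.W327.F4

theorem dense_ne {n : ℕ} (E : MvPolynomial (Fin n) ℂ) (hE : E ≠ 0) (x : Fin n → ℂ) :
    x ∈ closure {x' : Fin n → ℂ | MvPolynomial.eval x' E ≠ 0} := by
  obtain ⟨xs, hxs⟩ := exists_eval_ne E hE
  let p : Polynomial ℂ := MvPolynomial.aeval (fun i => C (x i) + X * C (xs i - x i)) E
  have hp : ∀ t, p.eval t = MvPolynomial.eval (fun i => x i + t * (xs i - x i)) E := by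
    intro t
    have h : ∀ q : MvPolynomial (Fin n) ℂ, (Polynomial.evalRingHom t)
        (MvPolynomial.aeval (fun i => C (x i) + X * C (xs i - x i)) q) =
        MvPolynomial.eval (fun i => x i + t * (xs i - x i)) q := by
      intro q
      induction q using MvPolynomial.induction_on with
      | C a => simp
      | add p q hp hq => rw [map_add, map_add, hp, hq, map_add]
      | mul_X p j hp =>
        rw [map_mul, map_mul, hp, map_mul, MvPolynomial.aeval_X, MvPolynomial.eval_X]
        simp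
    exact h E
  have hp0 : p ≠ 0 := by
    intro h
    have := hp 1
    rw [h, eval_zero] at this
    apply hxs
    rw [this]
    congr 2
    funext i
    ring
  have h1 : (0:ℂ) ∈ closure {t : ℂ | p.eval t ≠ 0} := by
    rw [(dense_compl_roots p hp0).closure_eq]; trivial
  have hc : Continuous (fun t : ℂ => (fun i => x i + t * (xs i - x i) : Fin n → ℂ)) := by
    fun_prop
  have h2 := image_closure_subset_closure_image hc (Set.mem_image_of_mem _ h1)
  simp only [zero_mul, add_zero] at h2
  refine closure_mono ?_ h2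
  rintro _ ⟨t, ht, rfl⟩
  show MvPolynomial.eval _ E ≠ 0
  rw [← hp t]
  exact ht

/-- divided difference of a polynomial in one variable -/
noncomputable def RD1 (p : Polynomial ℂ) (y y₀ : ℂ) : ℂ :=
  ∑ k ∈ Finset.range (p.natDegree + 1), p.coeff k *
    ∑ i ∈ Finset.range k, y ^ i * y₀ ^ (k - 1 - i)

theorem RD1_mul (p : Polynomial ℂ) (y y₀ : ℂ) :
    RD1 p y y₀ * (y - y₀) = p.eval y - p.eval y₀ := by
  rw [eval_eq_sum_range, eval_eq_sum_range, RD1, Finset.sum_mul, ← Finset.sum_sub_distrib]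
  refine Finset.sum_congr rfl fun k _ => ?_
  rw [mul_assoc, (Commute.all y y₀).geom_sum₂_mul]
  ring

theorem RD1_self (p : Polynomial ℂ) (y₀ : ℂ) : RD1 p y₀ y₀ = (derivative p).eval y₀ := by
  conv_rhs => rw [p.as_sum_range_C_mul_X_pow]
  rw [derivative_sum, eval_finsetSum, RD1]
  refine Finset.sum_congr rfl fun k _ => ?_
  rw [derivative_C_mul_X_pow]
  simp only [eval_mul, eval_C, eval_pow, eval_X]
  have h2 : ∀ i ∈ Finset.range k, y₀ ^ i * y₀ ^ (k - 1 - i) = y₀ ^ (k - 1) := by
    intro i hi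
    rw [← pow_add]
    congr 1
    have := Finset.mem_range.1 hi
    omega
  rw [Finset.sum_congr rfl h2, Finset.sum_const, Finset.card_range, nsmul_eq_mul]
  ring

/-- the coprimality relation -/
theorem bezout {A : Type*} [CommRing A] [IsDomain A] [IsIntegrallyClosed A]
    (f H : Polynomial A) (hf : f.Monic) (hfi : Irreducible f) (hH : ¬ f ∣ H) :
    ∃ (u v : Polynomial A) (D : A), D ≠ 0 ∧ u * f + v * H = C D := by
  classical
  let K := FractionRing A
  let φ : A →+* K := algebraMap A K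
  have hφ : Function.Injective φ := IsFractionRing.injective _ _
  have hφ' : Function.Injective (Polynomial.map φ) := Polynomial.map_injective φ hφ
  have hcl : ∀ p : Polynomial K, ∃ (a : A) (p' : Polynomial A), a ≠ 0 ∧
      p'.map φ = C (φ a) * p := by
    intro p
    obtain ⟨a, ha, h⟩ := IsLocalization.integerNormalization_spec (nonZeroDivisors A) p
    refine ⟨a, _, nonZeroDivisors.ne_zero ha, h.trans ?_⟩
    rw [← smul_eq_C_mul]
    exact (algebraMap_smul K a p).symm
  have hirr : Irreducible (f.map φ) :=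
    (hf.irreducible_iff_irreducible_map_fraction_map (K := K)).1 hfi
  have hnd : ¬ f.map φ ∣ H.map φ := by
    rw [Polynomial.map_dvd_map φ hφ hf]; exact hH
  obtain ⟨U, V, hUV⟩ := (hirr.coprime_iff_not_dvd).2 hnd
  obtain ⟨a₁, u, ha₁, hu⟩ := hcl U
  obtain ⟨a₂, v, ha₂, hv⟩ := hcl V
  refine ⟨C a₂ * u, C a₁ * v, a₁ * a₂, mul_ne_zero ha₁ ha₂, hφ' ?_⟩
  simp only [Polynomial.map_add, Polynomial.map_mul, hu, hv, map_C, map_mul]
  linear_combination (C (φ a₁) * C (φ a₂)) * hUV

/-- main step for an irreducible polynomial -/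
theorem irred_connected {n : ℕ} (f H : Polynomial (MvPolynomial (Fin n) ℂ)) (hf : f.Monic)
    (hfi : Irreducible f) (hH : ¬ f ∣ H)
    (hs : ∀ x τ, ev x τ f = 0 → ev x τ H ≠ 0 → ev x τ (derivative f) ≠ 0) :
    IsPreconnected {z : (Fin n → ℂ) × ℂ | ev z.1 z.2 f = 0 ∧ ev z.1 z.2 H ≠ 0} := by
  classical
  set V : Set ((Fin n → ℂ) × ℂ) := {z | ev z.1 z.2 f = 0 ∧ ev z.1 z.2 H ≠ 0} with hVdef
  apply isPreconnected_of_forall_constant
  intro χ hχ
  obtain ⟨u, v, D, hD, huv⟩ := bezout f H hf hfi hH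
  -- over D ≠ 0
  have hDV : ∀ x τ, MvPolynomial.eval x D ≠ 0 → ev x τ f = 0 → (x, τ) ∈ V := by
    intro x τ hx h0
    refine ⟨h0, fun h1 => hx ?_⟩
    have h2 := congrArg (ev x τ) huv
    rw [ev_add, ev_mul, ev_mul, ev_C] at h2
    change ev x τ f = 0 at h0
    change ev x τ H = 0 at h1
    rw [h0, h1, mul_zero, mul_zero, add_zero] at h2
    exact h2.symm
  have hsimple : ∀ x, MvPolynomial.eval x D ≠ 0 → ∀ τ, ev x τ f = 0 →
      ev x τ (derivative f) ≠ 0 := by
    intro x hx τ h0
    exact hs x τ h0 (hDV x τ hx h0).2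
  have hDopen : IsOpen {x : Fin n → ℂ | MvPolynomial.eval x D ≠ 0} :=
    isOpen_ne_fun (MvPolynomial.continuous_eval D) continuous_const
  have hdiff : ∀ k x, MvPolynomial.eval x D ≠ 0 → DifferentiableAt ℂ (cs f χ k) x := by
    intro k x hx
    apply cs_diff hf V χ hχ x (hsimple x hx)
    filter_upwards [hDopen.mem_nhds hx] with x' hx' τ h0
    exact hDV x' τ hx' h0
  -- polynomiality
  have hpoly : ∀ k, ∃ (D' Q : MvPolynomial (Fin n) ℂ), D' ≠ 0 ∧ ∀ x, MvPolynomial.eval x D' ≠ 0 →
      cs f χ k x = MvPolynomial.eval x Q := by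
    intro k
    obtain ⟨C₀, r, hC₀, hCr⟩ := cs_growth hf χ k
    apply interpolation r n (cs f χ k) D hD
    intro x i
    by_cases hb : lineP D x i = 0
    · refine ⟨0, by simp, fun t ht => ?_⟩
      rw [← lineP_eval, hb, eval_zero] at ht
      exact absurd rfl ht
    · obtain ⟨q, hq1, hq2⟩ := poly_of_growth (fun t => cs f χ k (Function.update x i t))
        (lineP D x i) hb (by
          intro t ht
          rw [lineP_eval] at ht
          have h1 := hdiff k _ ht
          have h2 : DifferentiableAt ℂ (fun t : ℂ => Function.update x i t) t := by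
            rw [differentiableAt_pi]
            intro j
            by_cases hj : j = i
            · subst hj; simp
            · simp [hj]
          exact h1.comp t h2) r (C₀ * (1 + ‖x‖) ^ r) (by
          intro t _
          refine (hCr _).trans ?_
          rw [mul_assoc, ← mul_pow]
          have h1 : ‖Function.update x i t‖ ≤ ‖x‖ + ‖t‖ := by
            rw [pi_norm_le_iff_of_nonneg (by positivity)]
            intro j
            by_cases hj : j = i
            · subst hj; simp
            · simp only [ne_eq, hj, not_false_eq_true, Function.update_of_ne]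
              have := norm_le_pi_norm x j
              linarith [norm_nonneg t]
          have h2 : 1 + ‖Function.update x i t‖ ≤ (1 + ‖x‖) * (1 + ‖t‖) := by
            nlinarith [norm_nonneg x, norm_nonneg t]
          gcongr)
      exact ⟨q, hq1, fun t ht => hq2 t (by rw [lineP_eval]; exact ht)⟩
  choose D' Q hD' hQ using hpoly
  set d := f.natDegree with hd
  set E : MvPolynomial (Fin n) ℂ := D * ∏ k ∈ Finset.range (d + 1), D' k with hE
  have hE0 : E ≠ 0 := mul_ne_zero hD (Finset.prod_ne_zero_iff.2 fun k _ => hD' k)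
  have hE1 : ∀ x, MvPolynomial.eval x E ≠ 0 → MvPolynomial.eval x D ≠ 0 ∧
      ∀ k ≤ d, cs f χ k x = MvPolynomial.eval x (Q k) := by
    intro x hx
    rw [hE, map_mul, map_prod] at hx
    refine ⟨left_ne_zero_of_mul hx, fun k hk => hQ k x ?_⟩
    exact Finset.prod_ne_zero_iff.1 (right_ne_zero_of_mul hx) k (Finset.mem_range.2 (by omega))
  -- the interpolating polynomial
  set W : Polynomial (MvPolynomial (Fin n) ℂ) := ∑ m ∈ Finset.range (d + 1),
    C (f.coeff m) * ∑ i ∈ Finset.range m, X ^ i * C (Q (m - 1 - i)) with hW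
  have hWe : ∀ x τ, MvPolynomial.eval x E ≠ 0 → ev x τ f = 0 →
      ev x τ W = (if χ (x, τ) then 1 else 0) * ev x τ (derivative f) := by
    intro x τ hx h0
    obtain ⟨hx1, hx2⟩ := hE1 x hx
    have hτ : τ ∈ rts f x := (mem_rts hf).2 h0
    have h1 : ev x τ W = ∑ σ ∈ rts f x, (if χ (x, σ) then 1 else 0) *
        RD1 (f.map (MvPolynomial.eval x)) τ σ := by
      rw [hW, ev_sum]
      have h2 : ∀ m ∈ Finset.range (d + 1), ev x τ (C (f.coeff m) *
          ∑ i ∈ Finset.range m, X ^ i * C (Q (m - 1 - i))) =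
          ∑ σ ∈ rts f x, (if χ (x, σ) then (1:ℂ) else 0) * (MvPolynomial.eval x (f.coeff m) *
            ∑ i ∈ Finset.range m, τ ^ i * σ ^ (m - 1 - i)) := by
        intro m hm
        have hm' := Finset.mem_range.1 hm
        rw [ev_mul, ev_C, ev_sum]
        have h3 : ∀ i ∈ Finset.range m, ev x τ (X ^ i * C (Q (m - 1 - i))) =
            ∑ σ ∈ rts f x, (if χ (x, σ) then (1:ℂ) else 0) * (τ ^ i * σ ^ (m - 1 - i)) := by
          intro i hi
          rw [ev_mul, ev_pow, ev_X, ev_C, ← hx2 (m - 1 - i) (by omega), cs, Finset.mul_sum]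
          refine Finset.sum_congr rfl fun σ _ => ?_
          ring
        rw [Finset.sum_congr rfl h3, Finset.sum_comm, Finset.mul_sum]
        refine Finset.sum_congr rfl fun σ _ => ?_
        rw [← Finset.mul_sum]
        ring
      rw [Finset.sum_congr rfl h2, Finset.sum_comm]
      refine Finset.sum_congr rfl fun σ _ => ?_
      rw [← Finset.mul_sum, RD1, hf.natDegree_map]
      congr 1
      refine Finset.sum_congr rfl fun m _ => ?_
      rw [coeff_map]
    rw [h1, Finset.sum_eq_single τ]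
    · rw [RD1_self, ev_derivative]
    · intro σ hσ hne
      have h4 := RD1_mul (f.map (MvPolynomial.eval x)) τ σ
      have h5 : (f.map (MvPolynomial.eval x)).eval σ = 0 := (mem_rts hf).1 hσ
      have h6 : (f.map (MvPolynomial.eval x)).eval τ = 0 := h0
      rw [h5, h6, sub_zero] at h4
      have h7 : τ - σ ≠ 0 := sub_ne_zero.2 (Ne.symm hne)
      rw [(mul_eq_zero.1 h4).resolve_right h7, mul_zero]
    · intro h; exact absurd hτ h
  -- divisibility
  have hdvd : f ∣ W * (W - derivative f) := by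
    set U := W * (W - derivative f) with hU
    have hUe : ∀ x τ, MvPolynomial.eval x E ≠ 0 → ev x τ f = 0 → ev x τ U = 0 := by
      intro x τ hx h0
      rw [hU, ev_mul, ev_sub, hWe x τ hx h0]
      split_ifs <;> ring
    rw [← modByMonic_eq_zero_iff_dvd hf]
    set R := U %ₘ f with hR
    have hRdeg : R.degree < f.degree := degree_modByMonic_lt U hf
    have hRe : ∀ x τ, MvPolynomial.eval x E ≠ 0 → ev x τ f = 0 → ev x τ R = 0 := by
      intro x τ hx h0
      have h1 := congrArg (ev x τ) (modByMonic_add_div U f)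
      rw [ev_add, ev_mul, h0, zero_mul, add_zero, hUe x τ hx h0] at h1
      exact h1
    have hRx : ∀ x, MvPolynomial.eval x E ≠ 0 → R.map (MvPolynomial.eval x) = 0 := by
      intro x hx
      by_contra hne
      have hlt : (R.map (MvPolynomial.eval x)).natDegree < d := by
        have h1 : (R.map (MvPolynomial.eval x)).degree < f.degree :=
          lt_of_le_of_lt degree_map_le hRdeg
        rw [degree_eq_natDegree hf.ne_zero, degree_eq_natDegree hne] at h1
        exact_mod_cast h1
      have h2 : (rts f x).card ≤ (R.map (MvPolynomial.eval x)).natDegree := by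
        refine le_trans ?_ (card_roots' _)
        refine le_trans ?_ (Multiset.toFinset_card_le _)
        apply Finset.card_le_card
        intro τ hτ
        rw [Multiset.mem_toFinset, mem_roots hne, IsRoot]
        exact hRe x τ hx ((mem_rts hf).1 hτ)
      rw [card_rts hf (hsimple x (hE1 x hx).1)] at h2
      omega
    ext1 k
    rw [coeff_zero]
    have h3 : R.coeff k * E = 0 := by
      apply MvPolynomial.funext
      intro x
      rw [map_mul, map_zero]
      by_cases hx : MvPolynomial.eval x E = 0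
      · rw [hx, mul_zero]
      · have h4 := congrArg (fun p => p.coeff k) (hRx x hx)
        simp only [coeff_map, coeff_zero] at h4
        rw [h4, zero_mul]
    exact (mul_eq_zero.1 h3).resolve_right hE0
  have hprime : Prime f := UniqueFactorizationMonoid.irreducible_iff_prime.1 hfi
  -- χ is constant over E ≠ 0
  have hconst : ∃ b : Bool, ∀ x τ, MvPolynomial.eval x E ≠ 0 → ev x τ f = 0 → χ (x, τ) = b := by
    rcases hprime.dvd_or_dvd hdvd with ⟨w, hw⟩ | ⟨w, hw⟩
    · refine ⟨false, fun x τ hx h0 => ?_⟩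
      have h1 := hWe x τ hx h0
      rw [hw, ev_mul, h0, zero_mul] at h1
      have h2 := hsimple x (hE1 x hx).1 τ h0
      by_contra h3
      rw [Bool.not_eq_false] at h3
      rw [h3] at h1
      simp only [if_true, one_mul] at h1
      exact h2 h1.symm
    · refine ⟨true, fun x τ hx h0 => ?_⟩
      have h1 := hWe x τ hx h0
      have h1' := congrArg (ev x τ) hw
      rw [ev_sub, ev_mul, h0, zero_mul, h1] at h1'
      have h2 := hsimple x (hE1 x hx).1 τ h0
      by_contra h3
      rw [Bool.not_eq_true] at h3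
      rw [h3] at h1'
      simp only [Bool.false_eq_true, if_false, zero_mul, zero_sub, neg_eq_zero] at h1'
      exact h2 h1'
  obtain ⟨b, hb⟩ := hconst
  -- density
  have hfin : ∀ z ∈ V, χ z = b := by
    intro z hz
    set S : Set ((Fin n → ℂ) × ℂ) := {w | ev w.1 w.2 f = 0 ∧ MvPolynomial.eval w.1 E ≠ 0} with hS
    have hSV : S ⊆ V := fun w hw => hDV w.1 w.2 (hE1 w.1 hw.2).1 hw.1
    obtain ⟨T, hT1, hT2, hT3⟩ := loc_root f z.1 z.2 hz.1 (hs z.1 z.2 hz.1 hz.2)
    have hzS : z ∈ closure S := by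
      have h1 := dense_ne E hE0 z.1
      rw [mem_closure_iff_frequently] at h1 ⊢
      have h2 := h1.and_eventually hT3
      have h3 : Filter.Tendsto (fun x' => (x', T x')) (𝓝 z.1) (𝓝 z) := by
        have h4 := hT2.continuousAt.tendsto
        rw [hT1] at h4
        exact Filter.tendsto_id.prodMk_nhds h4
      exact h3.frequently (h2.mono fun x' hx' => ⟨hx'.2, hx'.1⟩)
    have h1 : Filter.Tendsto χ (𝓝[S] z) (𝓝 (χ z)) := (hχ z hz).mono_left (nhdsWithin_mono z hSV)
    rw [nhds_discrete Bool, Filter.tendsto_pure] at h1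
    have h2 : (𝓝[S] z).NeBot := mem_closure_iff_nhdsWithin_neBot.1 hzS
    obtain ⟨w, hw1, hw2⟩ := (h1.and self_mem_nhdsWithin).exists
    rw [← hw1]
    exact hb w.1 w.2 hw2.2 hw2.1
  intro x hx y hy
  rw [hfin x hx, hfin y hy]

/-- `ev` as a ring homomorphism -/
noncomputable def evH {n : ℕ} (x : Fin n → ℂ) (τ : ℂ) :
    Polynomial (MvPolynomial (Fin n) ℂ) →+* ℂ :=
  Polynomial.eval₂RingHom (MvPolynomial.eval x) τ

theorem evH_apply {n : ℕ} (x : Fin n → ℂ) (τ : ℂ) (f : Polynomial (MvPolynomial (Fin n) ℂ)) :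
    evH x τ f = ev x τ f := by
  rw [evH, ev, eval_map]; rfl

theorem ac_core {n : ℕ} (f G : Polynomial (MvPolynomial (Fin n) ℂ)) (hf : f.Monic)
    (hs : ∀ x τ, ev x τ f = 0 → ev x τ G ≠ 0 → ev x τ f.derivative ≠ 0)
    (x₀ : Fin n → ℂ) (τ₀ : ℂ) (h0 : ev x₀ τ₀ f = 0) (hG : ev x₀ τ₀ G ≠ 0) :
    ∃ h : Polynomial (MvPolynomial (Fin n) ℂ), ev x₀ τ₀ h ≠ 0 ∧
      IsPreconnected {z : (Fin n → ℂ) × ℂ | ev z.1 z.2 f = 0 ∧ ev z.1 z.2 G ≠ 0 ∧
        ev z.1 z.2 h ≠ 0} := by
  classical
  -- an irreducible factor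
  obtain ⟨b, hbp, hbd, hb0⟩ : ∃ b : Polynomial (MvPolynomial (Fin n) ℂ), Prime b ∧ b ∣ f ∧
      ev x₀ τ₀ b = 0 := by
    obtain ⟨s, hs1, hs2⟩ := UniqueFactorizationMonoid.exists_prime_factors f hf.ne_zero
    obtain ⟨c, hc⟩ := hs2
    have h1 : evH x₀ τ₀ s.prod = 0 := by
      have h2 := congrArg (evH x₀ τ₀) hc
      rw [map_mul, evH_apply x₀ τ₀ f, h0] at h2
      refine (mul_eq_zero.1 h2).resolve_right ?_
      exact (c.isUnit.map (evH x₀ τ₀)).ne_zero
    rw [map_multiset_prod] at h1
    rw [Multiset.prod_eq_zero_iff] at h1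
    obtain ⟨b, hb, hb'⟩ := Multiset.mem_map.1 h1
    refine ⟨b, hs1 b hb, ?_, by rw [← evH_apply]; exact hb'⟩
    exact (Multiset.dvd_prod hb).trans ⟨c, hc.symm⟩
  obtain ⟨h', hh'⟩ := hbd
  have hlc : b.leadingCoeff * h'.leadingCoeff = 1 := by
    rw [← leadingCoeff_mul, ← hh', hf.leadingCoeff]
  set f₁ := C h'.leadingCoeff * b with hf₁
  set h := C b.leadingCoeff * h' with hh
  have hfh : f = f₁ * h := by
    rw [hf₁, hh, hh']
    have : C h'.leadingCoeff * b * (C b.leadingCoeff * h') =
        C (b.leadingCoeff * h'.leadingCoeff) * (b * h') := by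
      rw [C_mul]; ring
    rw [this, hlc, C_1, one_mul]
  have hf₁m : f₁.Monic := by
    rw [Monic, hf₁, leadingCoeff_mul, leadingCoeff_C, mul_comm]
    exact hlc
  have hf₁i : Irreducible f₁ := by
    have hu : IsUnit (C h'.leadingCoeff) := by
      rw [isUnit_C]
      exact IsUnit.of_mul_eq_one_right _ hlc
    exact (irreducible_isUnit_mul hu).2 hbp.irreducible
  have hf₁0 : ev x₀ τ₀ f₁ = 0 := by rw [hf₁, ev_mul, hb0, mul_zero]
  clear_value f₁ h
  have hder : ∀ x τ, ev x τ f₁ = 0 → ev x τ (derivative f) = ev x τ (derivative f₁) * ev x τ h := by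
    intro x τ h1
    rw [hfh, derivative_mul, ev_add, ev_mul, ev_mul, h1, zero_mul, add_zero]
  have hh0 : ev x₀ τ₀ h ≠ 0 := by
    intro h1
    apply hs x₀ τ₀ h0 hG
    rw [hder x₀ τ₀ hf₁0, h1, mul_zero]
  refine ⟨h, hh0, ?_⟩
  have hH : ¬ f₁ ∣ G * h := by
    rintro ⟨w, hw⟩
    have h1 := congrArg (ev x₀ τ₀) hw
    rw [ev_mul, ev_mul, hf₁0, zero_mul] at h1
    exact (mul_ne_zero hG hh0) h1
  have hs' : ∀ x τ, ev x τ f₁ = 0 → ev x τ (G * h) ≠ 0 → ev x τ (derivative f₁) ≠ 0 := by
    intro x τ h1 h2 h3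
    rw [ev_mul] at h2
    apply hs x τ (by rw [hfh, ev_mul, h1, zero_mul]) (left_ne_zero_of_mul h2)
    rw [hder x τ h1, h3, zero_mul]
  have := irred_connected f₁ (G * h) hf₁m hf₁i hH hs'
  convert this using 1
  ext z
  simp only [Set.mem_ofPred_eq]
  rw [hfh, ev_mul, ev_mul z.1 z.2 G h]
  constructor
  · rintro ⟨h1, h2, h3⟩
    exact ⟨(mul_eq_zero.1 h1).resolve_right h3, mul_ne_zero h2 h3⟩
  · rintro ⟨h1, h2⟩
    exact ⟨by rw [h1, zero_mul], left_ne_zero_of_mul h2, right_ne_zero_of_mul h2⟩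

end Pool.Agent.W327.F4
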