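import Pool.Agent.W481.Good

/-!
# Standard étale charts of smooth complex schemes
-/

set_option autoImplicit false

open CategoryTheory CategoryTheory.Limits AlgebraicGeometry Topology Pool.Agent.W481

namespace Pool.Agent.W327.F4

theorem push_comp {X Y Z : Over SpecC} (f : X ⟶ Y) (g : Y ⟶ Z) (x : Pt X) :
    x.push (f ≫ g) = (x.push f).push g :=
  (Category.assoc (show Over.mk (𝟙 SpecC) ⟶ X from x) f g).symm

theorem smooth_algebra {A : Type} [CommRing A] [Algebra ℂ A]
    (h : Smooth (Spec.map (CommRingCat.ofHom (algebraMap ℂ A)))) : Algebra.Smooth ℂ A := by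
  have h1 := (HasRingHomProperty.Spec_iff (P := @Smooth)).1 h
  rw [CommRingCat.hom_ofHom] at h1
  exact (RingHom.smooth_algebraMap).1 h1

theorem openImm_away {A : Type} [CommRing A] [Algebra ℂ A] (f : A) :
    IsOpenImmersion (specMap (IsScalarTower.toAlgHom ℂ A (Localization.Away f))).left := by
  exact (inferInstance : IsOpenImmersion
    (Spec.map (CommRingCat.ofHom (algebraMap A (Localization.Away f)))))

/-- extension of a point, as a point -/
noncomputable def extSp {A : Type} [CommRing A] [Algebra ℂ A] (f : A) (χ : Sp A) (h : χ.hom f ≠ 0) :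
    Sp (Localization.Away f) := extAway f χ h

theorem comap_extSp {A : Type} [CommRing A] [Algebra ℂ A] (f : A) (χ : Sp A) (h : χ.hom f ≠ 0) :
    Sp.comap (IsScalarTower.toAlgHom ℂ A (Localization.Away f)) (extSp f χ h) = χ :=
  AlgHom.ext fun a => extAway_algebraMap f χ h a

theorem smooth_chart (X : Over SpecC) (hX : Smooth X.hom) (x : Pt X) :
    ∃ (n : ℕ) (A : Type) (_ : CommRing A) (_ : Algebra ℂ A)
      (_ : Algebra (MvPolynomial (Fin n) ℂ) A) (_ : IsScalarTower ℂ (MvPolynomial (Fin n) ℂ) A)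
      (_ : Nonempty (StandardEtalePresentation (MvPolynomial (Fin n) ℂ) A))
      (i : specOver A ⟶ X) (_ : IsOpenImmersion i.left) (φ : Sp A), (spPt φ).push i = x := by
  obtain ⟨A₀, _, _, i, hi, -, φ₀, hφ₀⟩ := exists_affine_chart X x ⊤ (mem_top x)
  have h1 : Smooth (i.left ≫ X.hom) := inferInstance
  rw [Over.w i] at h1
  have h2 : Algebra.Smooth ℂ A₀ := smooth_algebra h1
  let Q : Ideal A₀ := RingHom.ker φ₀.hom.toRingHom
  have hQ : Q.IsPrime := RingHom.ker_isPrime _
  obtain ⟨f, hf, n, alg, tow, std⟩ :=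
    Algebra.IsSmoothAt.exists_isStandardEtale_mvPolynomial (R := ℂ) (p := Q)
  have hf' : φ₀.hom f ≠ 0 := hf
  have hop := openImm_away f
  refine ⟨n, Localization.Away f, inferInstance, inferInstance, alg, tow,
    std.nonempty_standardEtalePresentation,
    specMap (IsScalarTower.toAlgHom ℂ A₀ (Localization.Away f)) ≫ i, ?_, extSp f φ₀ hf', ?_⟩
  · rw [Over.comp_left]
    exact inferInstance
  · rw [push_comp, ← spPt_comap, comap_extSp, hφ₀]

end Pool.Agent.W327.F4
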