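import Pool.Agent.W327.F4.Chart
import Pool.Agent.W327.F4.AcC

/-!
# Connectedness of the complex points of a connected smooth complex scheme
-/

set_option autoImplicit false

open CategoryTheory CategoryTheory.Limits AlgebraicGeometry Topology Pool.Agent.W481
open Polynomial

namespace Pool.Agent.W327.F4

section std

variable {n : ℕ} {A : Type} [CommRing A] [Algebra ℂ A] [Algebra (MvPolynomial (Fin n) ℂ) A]
  [IsScalarTower ℂ (MvPolynomial (Fin n) ℂ) A]

/-- the coordinates of a point -/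
noncomputable def crd (φ : Sp A) : Fin n → ℂ :=
  fun i => φ.hom (algebraMap (MvPolynomial (Fin n) ℂ) A (MvPolynomial.X i))

theorem crd_eval (φ : Sp A) (p : MvPolynomial (Fin n) ℂ) :
    φ.hom (algebraMap (MvPolynomial (Fin n) ℂ) A p) = MvPolynomial.eval (crd φ) p := by
  induction p using MvPolynomial.induction_on with
  | C a =>
    rw [MvPolynomial.eval_C, ← MvPolynomial.algebraMap_eq,
      ← IsScalarTower.algebraMap_apply ℂ (MvPolynomial (Fin n) ℂ) A]
    exact φ.hom.commutes a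
  | add p q hp hq => rw [map_add, map_add, hp, hq, map_add]
  | mul_X p i hp =>
    rw [map_mul, map_mul, hp, map_mul, MvPolynomial.eval_X]
    rfl

theorem hom_aeval (φ : Sp A) (a : A) (q : Polynomial (MvPolynomial (Fin n) ℂ)) :
    φ.hom (aeval a q) = ev (crd φ) (φ.hom a) q := by
  rw [aeval_def, ev, Polynomial.eval_map]
  show φ.hom.toRingHom (eval₂ _ _ _) = _
  rw [hom_eval₂]
  congr 1
  ext p
  · exact crd_eval φ _
  · exact crd_eval φ _

theorem exists_point_std (P : StandardEtalePresentation (MvPolynomial (Fin n) ℂ) A)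
    (v : Fin n → ℂ) (t : ℂ) (h0 : ev v t P.f = 0) (h1 : ev v t P.g ≠ 0) :
    ∃ χ : Sp A, (crd χ = v ∧ χ.hom P.x = t) := by
  let alg : Algebra (MvPolynomial (Fin n) ℂ) ℂ := (MvPolynomial.eval v).toAlgebra
  have hal : algebraMap (MvPolynomial (Fin n) ℂ) ℂ = MvPolynomial.eval v := rfl
  have hae : ∀ q : Polynomial (MvPolynomial (Fin n) ℂ), aeval t q = ev v t q := by
    intro q
    rw [aeval_def, ev, Polynomial.eval_map, hal]
  have hmap : P.P.HasMap t := by
    refine ⟨?_, ?_⟩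
    · rw [hae]
      exact h0
    · rw [hae]
      exact isUnit_iff_ne_zero.2 h1
  let r : A →ₐ[MvPolynomial (Fin n) ℂ] ℂ := (P.P.lift t hmap).comp P.equivRing.toAlgHom
  have hrx : r P.x = t := by
    show P.P.lift t hmap (P.equivRing P.x) = t
    rw [P.equivRing_x, P.P.lift_X]
  let χ : A →ₐ[ℂ] ℂ :=
    { r.toRingHom with
      commutes' := fun z => by
        show r (algebraMap ℂ A z) = z
        rw [IsScalarTower.algebraMap_apply ℂ (MvPolynomial (Fin n) ℂ) A, r.commutes, hal,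
          MvPolynomial.algebraMap_eq, MvPolynomial.eval_C] }
  let χ' : Sp A := χ
  refine ⟨χ', ?_, hrx⟩
  funext i
  show r (algebraMap _ A (MvPolynomial.X i)) = v i
  rw [r.commutes, hal, MvPolynomial.eval_X]

theorem root_of_point (P : StandardEtalePresentation (MvPolynomial (Fin n) ℂ) A) (χ : Sp A) :
    ev (crd χ) (χ.hom P.x) P.f = 0 ∧ ev (crd χ) (χ.hom P.x) P.g ≠ 0 := by
  constructor
  · rw [← hom_aeval, P.hasMap.1, map_zero]
  · rw [← hom_aeval]
    exact (P.hasMap.2.map χ.hom).ne_zero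

theorem point_ext (P : StandardEtalePresentation (MvPolynomial (Fin n) ℂ) A) (χ χ' : Sp A)
    (h1 : crd χ = crd (n := n) χ') (h2 : χ.hom P.x = χ'.hom P.x) : χ = χ' := by
  refine AlgHom.ext fun a => ?_
  obtain ⟨q, m, hq⟩ := P.exists_mul_aeval_x_g_pow_eq_aeval_x a
  have e1 := congrArg χ.hom hq
  have e2 := congrArg χ'.hom hq
  rw [map_mul, map_pow, hom_aeval, hom_aeval] at e1 e2
  rw [← h1, ← h2, ← e1] at e2
  exact (mul_right_cancel₀ (pow_ne_zero m (root_of_point P χ).2) e2).symm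

/-- the piece of the spectrum of a standard étale algebra over affine space around a point is
connected -/
theorem std_connected (P : StandardEtalePresentation (MvPolynomial (Fin n) ℂ) A) (φ₀ : Sp A) :
    ∃ a : A, φ₀.hom a ≠ 0 ∧ IsPreconnected {φ : Sp A | φ.hom a ≠ 0} := by
  have hs : ∀ x τ, ev x τ P.f = 0 → ev x τ P.g ≠ 0 → ev x τ P.f.derivative ≠ 0 := by
    intro x τ h0 h1 h2
    obtain ⟨p₁, p₂, m, e⟩ := P.cond
    have h3 := congrArg (ev x τ) e
    rw [ev_add, ev_mul, ev_mul, ev_pow, h0, h2, zero_mul, zero_mul, add_zero] at h3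
    exact pow_ne_zero m h1 h3.symm
  obtain ⟨hr0, hr1⟩ := root_of_point P φ₀
  obtain ⟨h, hh, hpre⟩ := ac_core P.f P.g P.monic_f hs (crd φ₀) (φ₀.hom P.x) hr0 hr1
  have hex : ∀ z : (Fin n → ℂ) × ℂ, ∃ χ : Sp A, ev z.1 z.2 P.f = 0 → ev z.1 z.2 P.g ≠ 0 →
      (crd χ = z.1 ∧ χ.hom P.x = z.2) := by
    intro z
    by_cases h0 : ev z.1 z.2 P.f = 0
    · by_cases h1 : ev z.1 z.2 P.g ≠ 0
      · obtain ⟨χ, hχ⟩ := exists_point_std P z.1 z.2 h0 h1
        exact ⟨χ, fun _ _ => hχ⟩
      · exact ⟨φ₀, fun _ h => absurd h h1⟩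
    · exact ⟨φ₀, fun h _ => absurd h h0⟩
  choose s hs' using hex
  refine ⟨aeval P.x h, by rw [hom_aeval]; exact hh, ?_⟩
  set W : Set ((Fin n → ℂ) × ℂ) := {z | ev z.1 z.2 P.f = 0 ∧ ev z.1 z.2 P.g ≠ 0 ∧
        ev z.1 z.2 h ≠ 0} with hW
  have hcont : ContinuousOn s W := by
    rw [continuousOn_iff_continuous_domRestrict]
    refine continuous_to_sp _ fun a => ?_
    obtain ⟨q, m, hq⟩ := P.exists_mul_aeval_x_g_pow_eq_aeval_x a
    have h2 : ∀ z : W, (s z.1).hom a = ev z.1.1 z.1.2 q / (ev z.1.1 z.1.2 P.g) ^ m := by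
      intro z
      have e1 := congrArg (s z.1).hom hq
      rw [map_mul, map_pow, hom_aeval, hom_aeval, (hs' z.1 z.2.1 z.2.2.1).1,
        (hs' z.1 z.2.1 z.2.2.1).2] at e1
      rw [eq_div_iff (pow_ne_zero m z.2.2.1)]
      exact e1
    refine Continuous.congr ?_ fun z => (h2 z).symm
    exact ((continuous_ev q).comp continuous_subtype_val).div
      (((continuous_ev P.g).comp continuous_subtype_val).pow m)
      (fun z => pow_ne_zero m z.2.2.1)
  have himg : {φ : Sp A | φ.hom (aeval P.x h) ≠ 0} = s '' W := by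
    ext φ
    constructor
    · intro hφ
      rw [Set.mem_ofPred_eq, hom_aeval] at hφ
      obtain ⟨e1, e2⟩ := root_of_point P φ
      refine ⟨(crd φ, φ.hom P.x), ⟨e1, e2, hφ⟩, ?_⟩
      obtain ⟨e3, e4⟩ := hs' (crd φ, φ.hom P.x) e1 e2
      exact point_ext P _ _ e3 e4
    · rintro ⟨z, hz, rfl⟩
      rw [Set.mem_ofPred_eq, hom_aeval, (hs' z hz.1 hz.2.1).1, (hs' z hz.1 hz.2.1).2]
      exact hz.2.2
  rw [himg]
  exact hpre.image s hcont

end std

/-- every complex point has a Zariski open neighbourhood with connected set of complex points -/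
theorem local_connected (X : Over SpecC) (hX : Smooth X.hom) (x : Pt X) :
    ∃ U : X.left.Opens, x.Mem U ∧ IsPreconnected {z : Pt X | z.Mem U} := by
  obtain ⟨n, A, _, _, _, _, ⟨P⟩, i, hi, φ, hφ⟩ := smooth_chart X hX x
  obtain ⟨a, ha, hpre⟩ := std_connected P φ
  have hop := openImm_away a
  let i' := specMap (IsScalarTower.toAlgHom ℂ A (Localization.Away a)) ≫ i
  have hi' : IsOpenImmersion i'.left := by
    show IsOpenImmersion (_ ≫ i.left)
    exact inferInstance
  have himg : {z : Pt X | z.Mem i'.left.opensRange} =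
      (fun ψ : Sp A => (spPt ψ).push i) '' {ψ | ψ.hom a ≠ 0} := by
    rw [← range_push]
    ext z
    constructor
    · rintro ⟨y, rfl⟩
      obtain ⟨ψ, rfl⟩ := isHomeomorph_spPt.surjective y
      refine ⟨Sp.comap (IsScalarTower.toAlgHom ℂ A (Localization.Away a)) ψ, ?_, ?_⟩
      · show ψ.hom (algebraMap A (Localization.Away a) a) ≠ 0
        exact ((IsLocalization.Away.algebraMap_isUnit a).map ψ.hom).ne_zero
      · show (spPt (Sp.comap _ ψ)).push i = _
        rw [spPt_comap, push_comp]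
    · rintro ⟨ψ, hψ, rfl⟩
      refine ⟨spPt (extSp a ψ hψ), ?_⟩
      rw [push_comp, ← spPt_comap, comap_extSp]
  refine ⟨i'.left.opensRange, ?_, ?_⟩
  · have : x ∈ {z : Pt X | z.Mem i'.left.opensRange} := by
      rw [himg]
      exact ⟨φ, ha, hφ⟩
    exact this
  · rw [himg]
    exact hpre.image _ (((continuous_push i).comp isHomeomorph_spPt.continuous).continuousOn)

/-- nonempty locally closed subsets contain complex points -/
theorem exists_pt (X : Over SpecC) (hX : Smooth X.hom) (S : Set X.left) (hS : IsLocallyClosed S)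
    (hne : S.Nonempty) : ∃ z : Pt X, z.pt ∈ S := by
  have hj : JacobsonSpace X.left := LocallyOfFiniteType.jacobsonSpace X.hom
  obtain ⟨y, hyS, hy⟩ := nonempty_inter_closedPoints hne hS
  have hy' : IsClosed {y} := hy
  refine ⟨Pt.mk' (pointOfClosedPoint X.hom y hy') (pointOfClosedPoint_comp X.hom y hy'), ?_⟩
  have : (Pt.mk' (pointOfClosedPoint X.hom y hy')
      (pointOfClosedPoint_comp X.hom y hy') : Pt X).pt = y :=
    pointOfClosedPoint_apply X.hom y hy' _
  rw [this]
  exact hyS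

theorem pt_preconnected (X : Over SpecC) (hX : Smooth X.hom) (hc : ConnectedSpace X.left) :
    PreconnectedSpace (Pt X) := by
  apply preconnectedSpace_of_forall_constant
  intro χ hχ x₀ y₀
  by_contra hne
  choose U hU1 hU2 using local_connected X hX
  have hconst : ∀ x z : Pt X, z.Mem (U x) → χ z = χ x := by
    intro x z hz
    exact (hU2 x).constant hχ.continuousOn hz (hU1 x)
  let O : Bool → X.left.Opens := fun b => ⨆ x : {x : Pt X // χ x = b}, U x.1
  have hO : ∀ (b : Bool) (z : Pt X), z.pt ∈ O b → χ z = b := by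
    intro b z hz
    obtain ⟨x, hx⟩ := TopologicalSpace.Opens.mem_iSup.1 hz
    rw [hconst x.1 z (mem_iff_pt.2 hx), x.2]
  have hOmem : ∀ z : Pt X, z.pt ∈ O (χ z) := by
    intro z
    exact TopologicalSpace.Opens.mem_iSup.2 ⟨⟨z, rfl⟩, mem_iff_pt.1 (hU1 z)⟩
  -- the two open sets cover
  have hcov : (Set.univ : Set X.left) ⊆ (O (χ x₀) : Set X.left) ∪ (O (χ y₀) : Set X.left) := by
    intro w _
    by_contra hw
    have hcl : IsClosed (((O (χ x₀) : Set X.left) ∪ (O (χ y₀) : Set X.left))ᶜ) :=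
      ((O (χ x₀)).isOpen.union (O (χ y₀)).isOpen).isClosed_compl
    obtain ⟨z, hz⟩ := exists_pt X hX _ hcl.isLocallyClosed ⟨w, hw⟩
    apply hz
    have hz' := hOmem z
    have : χ z = χ x₀ ∨ χ z = χ y₀ := by
      revert hne
      cases χ z <;> cases χ x₀ <;> cases χ y₀ <;> simp
    rcases this with h | h
    · rw [h] at hz'; exact Or.inl hz'
    · rw [h] at hz'; exact Or.inr hz'
  obtain ⟨w, -, hw1, hw2⟩ := (isPreconnected_univ (α := X.left)) _ _ (O (χ x₀)).isOpen
    (O (χ y₀)).isOpen hcov ⟨x₀.pt, trivial, hOmem x₀⟩ ⟨y₀.pt, trivial, hOmem y₀⟩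
  have hopn : IsOpen ((O (χ x₀) : Set X.left) ∩ (O (χ y₀) : Set X.left)) :=
    (O (χ x₀)).isOpen.inter (O (χ y₀)).isOpen
  obtain ⟨z, hz1, hz2⟩ := exists_pt X hX _ hopn.isLocallyClosed ⟨w, hw1, hw2⟩
  exact hne ((hO _ z hz1).symm.trans (hO _ z hz2))

end Pool.Agent.W327.F4
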