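import Pool.Agent.W327.F4.Holo
import Pool.Agent.W481.AnaDefs

/-!
# Logarithms of algebraic units on finite covers of a curve
-/

set_option autoImplicit false

open Polynomial Topology Pool.Agent.W481

namespace Pool.Agent.W327.F4

/-- polynomial growth of polynomials in one variable -/
theorem poly_growth1 (p : Polynomial ℂ) : ∃ (C : ℝ) (r : ℕ), 0 ≤ C ∧
    ∀ s : ℂ, ‖p.eval s‖ ≤ C * (1 + ‖s‖) ^ r := by
  refine ⟨∑ i ∈ Finset.range (p.natDegree + 1), ‖p.coeff i‖, p.natDegree, by positivity,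
    fun s => ?_⟩
  rw [eval_eq_sum_range, Finset.sum_mul]
  refine (norm_sum_le _ _).trans (Finset.sum_le_sum fun i hi => ?_)
  rw [norm_mul, norm_pow]
  have h1 : (1:ℝ) ≤ 1 + ‖s‖ := by linarith [norm_nonneg s]
  have h2 : ‖s‖ ^ i ≤ (1 + ‖s‖) ^ i := by
    gcongr
    linarith
  have h3 : (1 + ‖s‖) ^ i ≤ (1 + ‖s‖) ^ p.natDegree :=
    pow_le_pow_right₀ h1 (by have := Finset.mem_range.1 hi; omega)
  have := h2.trans h3
  gcongr

theorem growth_sum {ι : Type} (S : Finset ι) (p : ι → Polynomial ℂ) : ∃ (C : ℝ) (r : ℕ), 0 ≤ C ∧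
    ∀ s : ℂ, ∑ i ∈ S, ‖(p i).eval s‖ ≤ C * (1 + ‖s‖) ^ r := by
  classical
  induction S using Finset.induction_on with
  | empty => exact ⟨0, 0, le_refl _, fun s => by simp⟩
  | insert a S ha ih =>
    obtain ⟨C, r, hC, h⟩ := ih
    obtain ⟨C', r', hC', h'⟩ := poly_growth1 (p a)
    refine ⟨C' + C, max r' r, by positivity, fun s => ?_⟩
    rw [Finset.sum_insert ha]
    have h0 : (1:ℝ) ≤ 1 + ‖s‖ := by linarith [norm_nonneg s]
    have h3 : (1 + ‖s‖) ^ r ≤ (1 + ‖s‖) ^ (max r' r) := pow_le_pow_right₀ h0 (le_max_right _ _)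
    have h4 : (1 + ‖s‖) ^ r' ≤ (1 + ‖s‖) ^ (max r' r) := pow_le_pow_right₀ h0 (le_max_left _ _)
    calc _ ≤ C' * (1 + ‖s‖) ^ r' + C * (1 + ‖s‖) ^ r := add_le_add (h' s) (h s)
      _ ≤ C' * (1 + ‖s‖) ^ (max r' r) + C * (1 + ‖s‖) ^ (max r' r) := by gcongr
      _ = _ := by ring

/-- growth of the roots of a polynomial with leading coefficient `b ^ k` -/
theorem root_growth1 (b : Polynomial ℂ) (P : Polynomial (Polynomial ℂ)) (k : ℕ)
    (hP : P.leadingCoeff = b ^ k) : ∃ (C : ℝ) (r : ℕ), 0 ≤ C ∧ ∀ (s w : ℂ), b.eval s ≠ 0 →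
      (P.map (Polynomial.evalRingHom s)).eval w = 0 → ‖w‖ * ‖b.eval s‖ ^ k ≤ C * (1 + ‖s‖) ^ r := by
  obtain ⟨C, r, hC, h⟩ := growth_sum (Finset.range (P.natDegree + 1)) (fun i => P.coeff i)
  refine ⟨C, r, hC, fun s w hs hw => ?_⟩
  refine le_trans ?_ (h s)
  have hlc : (P.coeff P.natDegree).eval s = b.eval s ^ k := by
    rw [coeff_natDegree, hP, eval_pow]
  rw [Finset.sum_range_succ, hlc, norm_pow]
  have hS : 0 ≤ ∑ i ∈ Finset.range P.natDegree, ‖(P.coeff i).eval s‖ := by positivity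
  have hbk : 0 ≤ ‖b.eval s‖ ^ k := by positivity
  rcases le_or_gt ‖w‖ 1 with h1 | h1
  · nlinarith
  · have hw' : e2 s w P = 0 := hw
    rw [e2_eq_sum, Finset.sum_range_succ, hlc] at hw'
    have hd : P.natDegree ≠ 0 := by
      intro hd
      rw [hd] at hw'
      simp only [Finset.range_zero, Finset.sum_empty, pow_zero, mul_one, zero_add] at hw'
      exact pow_ne_zero k hs hw'
    have h2 : b.eval s ^ k * w ^ P.natDegree = - ∑ i ∈ Finset.range P.natDegree,
        (P.coeff i).eval s * w ^ i := by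
      linear_combination hw'
    have h3 : ‖b.eval s‖ ^ k * ‖w‖ ^ P.natDegree ≤ (∑ i ∈ Finset.range P.natDegree,
        ‖(P.coeff i).eval s‖) * ‖w‖ ^ (P.natDegree - 1) := by
      rw [← norm_pow, ← norm_pow, ← norm_mul, h2, norm_neg, Finset.sum_mul]
      refine (norm_sum_le _ _).trans (Finset.sum_le_sum fun i hi => ?_)
      rw [norm_mul, norm_pow]
      have hi' := Finset.mem_range.1 hi
      have : ‖w‖ ^ i ≤ ‖w‖ ^ (P.natDegree - 1) := pow_le_pow_right₀ h1.le (by omega)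
      gcongr
    have h4 : ‖w‖ ^ P.natDegree = ‖w‖ * ‖w‖ ^ (P.natDegree - 1) := by
      rw [← pow_succ']
      congr 1
      omega
    rw [h4, ← mul_assoc] at h3
    have := le_of_mul_le_mul_right h3 (by positivity)
    linarith

/-- a continuous logarithm of a holomorphic function is holomorphic -/
theorem log_holo {Δ : Set ℂ} (hΔ : IsOpen Δ) (F l : ℂ → ℂ) (hF : DifferentiableOn ℂ F Δ)
    (hl : ContinuousOn l Δ) (h : ∀ s ∈ Δ, Complex.exp (l s) = F s) : DifferentiableOn ℂ l Δ := by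
  intro s₁ hs₁
  have hF1 : DifferentiableAt ℂ F s₁ := (hF s₁ hs₁).differentiableAt (hΔ.mem_nhds hs₁)
  have hl1 : ContinuousAt l s₁ := hl.continuousAt (hΔ.mem_nhds hs₁)
  have hF0 : F s₁ ≠ 0 := by rw [← h s₁ hs₁]; exact Complex.exp_ne_zero _
  have hd : DifferentiableAt ℂ (fun s => l s₁ + Complex.log (F s / F s₁)) s₁ := by
    apply DifferentiableAt.const_add
    apply DifferentiableAt.clog
    · exact hF1.div_const _
    · rw [div_self hF0]
      exact Complex.one_mem_slitPlane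
  apply DifferentiableAt.differentiableWithinAt
  refine hd.congr_of_eventuallyEq ?_
  have hsmall : ∀ᶠ s in 𝓝 s₁, ‖l s - l s₁‖ < Real.pi := by
    have h2 : ContinuousAt (fun s => ‖l s - l s₁‖) s₁ := (hl1.sub continuousAt_const).norm
    have h3 : ‖l s₁ - l s₁‖ < Real.pi := by rw [sub_self, norm_zero]; exact Real.pi_pos
    exact h2.eventually_lt_const h3
  filter_upwards [hsmall, hΔ.mem_nhds hs₁] with s hs hs'
  have h4 : F s / F s₁ = Complex.exp (l s - l s₁) := by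
    rw [Complex.exp_sub, h s hs', h s₁ hs₁]
  have h5 : |(l s - l s₁).im| < Real.pi := (Complex.abs_im_le_norm _).trans_lt hs
  rw [abs_lt] at h5
  rw [h4, Complex.log_exp h5.1 h5.2.le]
  ring

theorem loop_of_two {E Y : Type} [TopologicalSpace E] [TopologicalSpace Y] (π : C(E, Y))
    {z w w' : E} {y₀ y : Y} (hz : π z = y₀) (hw : π w = y) (hw' : π w' = y) (r : PH z w)
    (r' : PH z w') (e : w = w') : ∃ ρ : PH z z,
      PHmap π hz hz ρ = (PHmap π hz hw r).trans (PHmap π hz hw' r').symm := by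
  subst e
  exact ⟨r.trans r'.symm, by rw [PHmap_trans π hz hw hz, PHmap_symm]⟩

theorem InH_of_cover {Y : Type} [TopologicalSpace Y] [T2Space Y] (pr : Y → ℂ)
    (hpr : IsLocalHomeomorph pr) (b : Polynomial ℂ) (hb : b ≠ 0) {y₀ : Y}
    (E : Type) [TopologicalSpace E] (π : C(E, Y)) (hπ : IsCoveringMap π)
    (hπf : ∀ y, (π ⁻¹' {y}).Finite) (u : C(E, Cx)) (P P' : Polynomial (Polynomial ℂ)) (k k' : ℕ)
    (hP : P.leadingCoeff = b ^ k) (hP' : P'.leadingCoeff = b ^ k')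
    (h : ∀ e, (P.map (Polynomial.evalRingHom (pr (π e)))).eval (u e).1 = 0)
    (h' : ∀ e, (P'.map (Polynomial.evalRingHom (pr (π e)))).eval ((u e).1⁻¹) = 0)
    (z : E) (hz : π z = y₀) :
    ∃ (N : Subgroup (LG y₀)) (f : ∀ t : Y, PH y₀ t → ℂ), N.FiniteIndex ∧ N.Normal ∧
      InH pr b N f ∧ f y₀ (.refl y₀) = 0 ∧
      ∀ (w : E) (t : Y) (hw : π w = t) (r : PH z w), f t (PHmap π hz hw r) = dl u r := by
  classical
  have hex : ∀ (t : Y) (q : PH y₀ t), ∃ (e' : E) (he' : π e' = t) (r : PH z e'),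
      PHmap π hz he' r = q := fun t q => PH_lift_exists π hπ hz q
  choose L hL R hR using hex
  have huniq : ∀ (w : E) (t : Y) (hw : π w = t) (r : PH z w),
      (⟨L t (PHmap π hz hw r), R t (PHmap π hz hw r)⟩ : Σ z', PH z z') = ⟨w, r⟩ := by
    intro w t hw r
    exact PH_lift_unique π hπ hz _ hw _ _ (hR t _)
  let f : ∀ t : Y, PH y₀ t → ℂ := fun t q => dl u (R t q)
  have hstar : ∀ (w : E) (t : Y) (hw : π w = t) (r : PH z w),
      f t (PHmap π hz hw r) = dl u r := by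
    intro w t hw r
    exact congrArg (fun p : Σ z', PH z z' => dl u p.2) (huniq w t hw r)
  have hLeq : ∀ (w : E) (t : Y) (hw : π w = t) (r : PH z w), L t (PHmap π hz hw r) = w := by
    intro w t hw r
    exact congrArg Sigma.fst (huniq w t hw r)
  have hexp : ∀ (t : Y) (q : PH y₀ t), Complex.exp (f t q) = (u (L t q)).1 / (u z).1 :=
    fun t q => exp_dl u (R t q)
  -- the stabiliser
  let S : Subgroup (LG y₀) :=
    { carrier := {g | ∃ r : PH z z, PHmap π hz hz r = g}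
      one_mem' := ⟨.refl z, PHmap_refl π hz⟩
      mul_mem' := by
        rintro g g' ⟨r, rfl⟩ ⟨r', rfl⟩
        exact ⟨r.trans r', PHmap_trans π hz hz hz r r'⟩
      inv_mem' := by
        rintro g ⟨r, rfl⟩
        exact ⟨r.symm, PHmap_symm π hz hz r⟩ }
  have hSfin : S.FiniteIndex := by
    have : Finite (π ⁻¹' {y₀}) := hπf y₀
    obtain ⟨iv, hiv⟩ : ∃ iv : (LG y₀ ⧸ S) → PH y₀ y₀,
        ∀ c, iv c = (show PH y₀ y₀ from (c.out⁻¹ : LG y₀)) := ⟨_, fun _ => rfl⟩
    have hfinq : Finite (LG y₀ ⧸ S) := by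
      refine Finite.of_injective (fun c : LG y₀ ⧸ S =>
        (⟨L y₀ (iv c), hL y₀ _⟩ : π ⁻¹' {y₀})) ?_
      intro c c' hcc
      have h1 : L y₀ (iv c) = L y₀ (iv c') := congrArg Subtype.val hcc
      rw [← c.out_eq, ← c'.out_eq]
      refine QuotientGroup.eq.2 ?_
      -- the difference is in the stabiliser
      obtain ⟨ρ, hρ⟩ := loop_of_two π hz (hL y₀ (iv c)) (hL y₀ (iv c'))
        (R y₀ (iv c)) (R y₀ (iv c')) h1
      rw [hR, hR] at hρ
      refine ⟨ρ, hρ.trans ?_⟩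
      rw [hiv, hiv]
      show (c.out⁻¹ : LG y₀) * (c'.out⁻¹ : LG y₀)⁻¹ = _
      rw [inv_inv]
    exact Subgroup.finiteIndex_of_finite_quotient
  refine ⟨S.normalCore, f, inferInstance, inferInstance, ⟨?_, ?_, ?_, ?_⟩, ?_, hstar⟩
  · -- holomorphy
    intro Δ σ hσ s₀ hs₀ q
    have hcontr : ContractibleSpace Δ := hσ.convex.contractibleSpace ⟨_, hs₀⟩
    have hlpc : LocallyPathConnectedSpace Δ := hσ.isOpen.locallyPathConnectedSpace
    have hσc : Continuous (fun s : Δ => σ s) := by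
      have := hσ.cont
      rwa [continuousOn_iff_continuous_domRestrict] at this
    obtain ⟨σ', ⟨hσ'0, hσ'⟩, -⟩ := hπ.existsUnique_continuousMap_lifts (A := Δ)
      (⟨fun s : Δ => σ s, hσc⟩ : C(Δ, Y)) ⟨s₀, hs₀⟩ (L (σ s₀) q) (hL (σ s₀) q)
    have hσ'' : ∀ s : Δ, π (σ' s) = σ s := fun s => congrFun hσ' s
    obtain ⟨l, ⟨hl0, hl⟩, -⟩ := Complex.isCoveringMap_exp.existsUnique_continuousMap_lifts (A := Δ)
      (u.comp σ') ⟨s₀, hs₀⟩ (Complex.log (u (L (σ s₀) q)).1) (by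
        refine Subtype.ext ?_
        simp only [ContinuousMap.comp_apply, hσ'0]
        exact Complex.exp_log (u (L (σ s₀) q)).2)
    have hl' : ∀ s : Δ, Complex.exp (l s) = (u (σ' s)).1 := fun s =>
      congrArg Subtype.val (congrFun hl s)
    let F : ℂ → ℂ := fun s => if hs : s ∈ Δ then (u (σ' ⟨s, hs⟩)).1 else 0
    let lo : ℂ → ℂ := fun s => if hs : s ∈ Δ then l ⟨s, hs⟩ else 0
    have hFs : ∀ s (hs : s ∈ Δ), F s = (u (σ' ⟨s, hs⟩)).1 := fun s hs => by simp [F, hs]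
    have hlos : ∀ s (hs : s ∈ Δ), lo s = l ⟨s, hs⟩ := fun s hs => by simp [lo, hs]
    have hFc : ContinuousOn F Δ := by
      rw [continuousOn_iff_continuous_domRestrict]
      have : Δ.domRestrict F = fun s : Δ => (u (σ' s)).1 := by
        funext s
        exact hFs s.1 s.2
      rw [this]
      fun_prop
    have hloc : ContinuousOn lo Δ := by
      rw [continuousOn_iff_continuous_domRestrict]
      have : Δ.domRestrict lo = fun s : Δ => l s := by
        funext s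
        exact hlos s.1 s.2
      rw [this]
      fun_prop
    have hP0 : P ≠ 0 := by
      intro h0
      rw [h0, leadingCoeff_zero] at hP
      exact pow_ne_zero k hb hP.symm
    have hFd : DifferentiableOn ℂ F Δ := by
      refine holo_of_algebraic hσ.isOpen F hFc P hP0 fun s hs => ?_
      have h1 := h (σ' ⟨s, hs⟩)
      rw [hσ'', hσ.sec s hs] at h1
      rw [hFs s hs]
      exact h1
    have hlod : DifferentiableOn ℂ lo Δ := by
      refine log_holo hσ.isOpen F lo hFd hloc fun s hs => ?_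
      rw [hlos s hs, hFs s hs]
      exact hl' _
    refine ⟨fun s => dl u (R (σ s₀) q) + lo s - lo s₀, ?_, ?_⟩
    · exact (hlod.const_add _).sub_const _
    · intro s hs γ hγ
      have hγΔ : ∀ τ, pr (γ τ) ∈ Δ := by
        intro τ
        obtain ⟨s', hs', h1⟩ := hγ τ
        rw [← h1, hσ.sec s' hs']
        exact hs'
      have hγσ : ∀ τ, σ (pr (γ τ)) = γ τ := by
        intro τ
        obtain ⟨s', hs', h1⟩ := hγ τ
        rw [← h1, hσ.sec s' hs']
      let δ : C(unitInterval, Δ) := ⟨fun τ => ⟨pr (γ τ), hγΔ τ⟩,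
        (hpr.continuous.comp γ.continuous).subtype_mk _⟩
      have hδ0 : δ 0 = ⟨s₀, hs₀⟩ := by
        refine Subtype.ext ?_
        show pr (γ 0) = s₀
        rw [γ.source, hσ.sec s₀ hs₀]
      have hδ1 : δ 1 = ⟨s, hs⟩ := by
        refine Subtype.ext ?_
        show pr (γ 1) = s
        rw [γ.target, hσ.sec s hs]
      let γ' : Path (L (σ s₀) q) (σ' ⟨s, hs⟩) :=
        ⟨σ'.comp δ, by
          show σ' (δ 0) = _
          rw [hδ0, hσ'0], by
          show σ' (δ 1) = _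
          rw [hδ1]⟩
      have hlift : PHmap π (hL (σ s₀) q) (hσ'' ⟨s, hs⟩) (.mk γ') = .mk γ := by
        rw [PHmap_mk]
        congr 1
        ext τ
        show π (σ' (δ τ)) = γ τ
        rw [hσ'']
        exact hγσ τ
      have htr := PHmap_trans π hz (hL (σ s₀) q) (hσ'' ⟨s, hs⟩) (R (σ s₀) q) (.mk γ')
      rw [hlift, hR] at htr
      rw [← htr, hstar, dl_trans, dl_mk u γ' (l.comp δ) (fun τ => hl' (δ τ))]
      simp only [ContinuousMap.comp_apply]
      rw [hδ0, hδ1, ← hlos s hs, ← hlos s₀ hs₀]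
      ring
  · obtain ⟨C, r, hC, hg⟩ := root_growth1 b P k hP
    refine ⟨C / ‖(u z).1‖, k, r, fun t q ht => ?_⟩
    have h1 := h (L t q)
    rw [hL t q] at h1
    have h2 := hg _ _ ht h1
    have h3 : 0 < ‖(u z).1‖ := norm_pos_iff.2 (u z).2
    rw [hexp, norm_div, div_mul_eq_mul_div, div_mul_eq_mul_div]
    gcongr
  · obtain ⟨C, r, hC, hg⟩ := root_growth1 b P' k' hP'
    refine ⟨C * ‖(u z).1‖, k', r, fun t q ht => ?_⟩
    have h1 := h' (L t q)
    rw [hL t q] at h1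
    have h2 := hg _ _ ht h1
    have h3 : 0 < ‖(u z).1‖ := norm_pos_iff.2 (u z).2
    have h4 : Complex.exp ((-f) t q) = (u (L t q)).1⁻¹ * (u z).1 := by
      show Complex.exp (-(f t q)) = _
      rw [Complex.exp_neg, hexp, inv_div, div_eq_mul_inv, mul_comm]
    rw [h4, norm_mul]
    calc ‖(u (L t q)).1⁻¹‖ * ‖(u z).1‖ * ‖b.eval (pr t)‖ ^ k'
        = (‖(u (L t q)).1⁻¹‖ * ‖b.eval (pr t)‖ ^ k') * ‖(u z).1‖ := by ring
      _ ≤ (C * (1 + ‖pr t‖) ^ r) * ‖(u z).1‖ := by gcongr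
      _ = _ := by ring
  · intro g hg t q
    obtain ⟨r₀, hr₀⟩ := S.normalCore_le hg
    have h1 := PHmap_trans π hz hz (hL t q) r₀ (R t q)
    rw [hr₀, hR] at h1
    have h2 : g • q = PHmap π hz (hL t q) (r₀.trans (R t q)) := h1.symm
    rw [hexp, hexp, h2, hLeq]
  · have h1 := hstar z y₀ hz (.refl z)
    rw [PHmap_refl, dl_refl] at h1
    exact h1

end Pool.Agent.W327.F4
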