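import Mathlib

/-!
# Finite good covers of finite branched-type covers of `ℂ`
-/

set_option autoImplicit false

open Topology Set

namespace Pool.Agent.W327.F4

/-- finitely many convex open sets cover the complement of a finite set -/
theorem convex_cover (B : Set ℂ) (hB : B.Finite) :
    ∃ 𝒦 : Set (Set ℂ), 𝒦.Finite ∧ (∀ K ∈ 𝒦, IsOpen K ∧ Convex ℝ K ∧ K ⊆ Bᶜ) ∧
      ∀ z ∈ Bᶜ, ∃ K ∈ 𝒦, z ∈ K := by
  induction B, hB using Set.Finite.induction_on with
  | empty =>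
    exact ⟨{univ}, Set.finite_singleton _, fun K hK => by
      rw [Set.mem_singleton_iff] at hK; subst hK
      exact ⟨isOpen_univ, convex_univ, by simp⟩, fun z _ => ⟨univ, rfl, trivial⟩⟩
  | @insert β B hβ hB ih =>
    obtain ⟨𝒦, h1, h2, h3⟩ := ih
    let ℋ : Set (Set ℂ) := {{z | β.re < z.re}, {z | z.re < β.re}, {z | β.im < z.im},
      {z | z.im < β.im}}
    have hℋfin : ℋ.Finite := by simp [ℋ]
    have hℋ : ∀ H ∈ ℋ, IsOpen H ∧ Convex ℝ H ∧ β ∉ H := by
      intro H hH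
      simp only [ℋ, Set.mem_insert_iff, Set.mem_singleton_iff] at hH
      rcases hH with rfl | rfl | rfl | rfl
      · exact ⟨isOpen_lt continuous_const Complex.continuous_re, convex_halfSpace_re_gt _,
          by simp⟩
      · exact ⟨isOpen_lt Complex.continuous_re continuous_const, convex_halfSpace_re_lt _,
          by simp⟩
      · exact ⟨isOpen_lt continuous_const Complex.continuous_im, convex_halfSpace_im_gt _,
          by simp⟩
      · exact ⟨isOpen_lt Complex.continuous_im continuous_const, convex_halfSpace_im_lt _,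
          by simp⟩
    refine ⟨Set.image2 (· ∩ ·) 𝒦 ℋ, h1.image2 _ hℋfin, ?_, ?_⟩
    · rintro _ ⟨K, hK, H, hH, rfl⟩
      obtain ⟨a1, a2, a3⟩ := h2 K hK
      obtain ⟨b1, b2, b3⟩ := hℋ H hH
      refine ⟨a1.inter b1, a2.inter b2, ?_⟩
      rintro z ⟨hz1, hz2⟩ hz
      rcases hz with rfl | hz
      · exact b3 hz2
      · exact a3 hz1 hz
    · intro z hz
      simp only [Set.mem_compl_iff, Set.mem_insert_iff, not_or] at hz
      obtain ⟨K, hK, hzK⟩ := h3 z hz.2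
      have : ∃ H ∈ ℋ, z ∈ H := by
        by_contra hcon
        push Not at hcon
        apply hz.1
        have e1 := hcon {z | β.re < z.re} (by simp [ℋ])
        have e2 := hcon {z | z.re < β.re} (by simp [ℋ])
        have e3 := hcon {z | β.im < z.im} (by simp [ℋ])
        have e4 := hcon {z | z.im < β.im} (by simp [ℋ])
        simp only [Set.mem_ofPred_eq, not_lt] at e1 e2 e3 e4
        exact Complex.ext (le_antisymm e1 e2) (le_antisymm e3 e4)
      obtain ⟨H, hH, hzH⟩ := this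
      exact ⟨K ∩ H, ⟨K, hK, H, hH, rfl⟩, hzK, hzH⟩

variable {Y : Type} [TopologicalSpace Y]

/-- a continuous section over a convex open set -/
structure Good (pr : Y → ℂ) (K : Set ℂ) (σ : ℂ → Y) : Prop where
  op : IsOpen K
  cv : Convex ℝ K
  ct : ContinuousOn σ K
  sec : ∀ z ∈ K, pr (σ z) = z

/-- the image of a section -/
def img (pr : Y → ℂ) (K : Set ℂ) (σ : ℂ → Y) : Set Y := {y | pr y ∈ K ∧ σ (pr y) = y}

theorem img_open {pr : Y → ℂ} (hpr : IsLocalHomeomorph pr) {K : Set ℂ} {σ : ℂ → Y}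
    (h : Good pr K σ) : IsOpen (img pr K σ) := by
  rw [isOpen_iff_mem_nhds]
  rintro y ⟨hy1, hy2⟩
  obtain ⟨e, he, hee⟩ := hpr y
  have hK : ∀ᶠ y' in 𝓝 y, pr y' ∈ K := hpr.continuous.continuousAt.eventually (h.op.mem_nhds hy1)
  have hU : ∀ᶠ y' in 𝓝 y, y' ∈ e.source := e.open_source.mem_nhds he
  have hS : ∀ᶠ y' in 𝓝 y, σ (pr y') ∈ e.source := by
    have h1 : ContinuousAt σ (pr y) := h.ct.continuousAt (h.op.mem_nhds hy1)
    have h2 : ContinuousAt (fun y' => σ (pr y')) y :=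
      ContinuousAt.comp (g := σ) h1 hpr.continuous.continuousAt
    have hU' : ∀ᶠ y' in 𝓝 (σ (pr y)), y' ∈ e.source := by rw [hy2]; exact hU
    exact h2.eventually hU'
  filter_upwards [hK, hU, hS] with y' h1 h2 h3
  refine ⟨h1, ?_⟩
  apply e.injOn h3 h2
  rw [← hee]
  exact h.sec _ h1

theorem eq_on_inter [T2Space Y] {pr : Y → ℂ} (hpr : IsLocalHomeomorph pr) {K K' : Set ℂ}
    {σ σ' : ℂ → Y} (h : Good pr K σ) (h' : Good pr K' σ') {z₀ : ℂ} (h0 : z₀ ∈ K ∩ K')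
    (he : σ z₀ = σ' z₀) : ∀ z ∈ K ∩ K', σ z = σ' z := by
  have hpre : IsPreconnected (K ∩ K') := (h.cv.inter h'.cv).isPreconnected
  have hct : ContinuousOn (fun z => (σ z, σ' z)) (K ∩ K') :=
    (h.ct.mono Set.inter_subset_left).prodMk (h'.ct.mono Set.inter_subset_right)
  have hop : IsOpen (K ∩ K') := h.op.inter h'.op
  have hA : IsOpen {z | z ∈ K ∩ K' ∧ σ z = σ' z} := by
    rw [isOpen_iff_mem_nhds]
    rintro z ⟨hz, hzz⟩
    have hz1 : z ∈ K := hz.1
    have hz2 : z ∈ K' := hz.2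
    have m1 : σ z ∈ img pr K σ := ⟨by rw [h.sec z hz1]; exact hz1, by rw [h.sec z hz1]⟩
    have c2 : ContinuousAt σ' z := h'.ct.continuousAt (h'.op.mem_nhds hz2)
    have : ∀ᶠ w in 𝓝 z, σ' w ∈ img pr K σ := by
      apply c2.eventually
      rw [← hzz]
      exact (img_open hpr h).mem_nhds m1
    filter_upwards [this, hop.mem_nhds hz] with w hw1 hw2
    refine ⟨hw2, ?_⟩
    have := hw1.2
    rwa [h'.sec w hw2.2] at this
  have hB : IsOpen {z | z ∈ K ∩ K' ∧ σ z ≠ σ' z} := by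
    have := hct.isOpen_inter_preimage hop (isClosed_diagonal (X := Y)).isOpen_compl
    convert this using 1
    ext z
    simp [Set.mem_diagonal_iff]
    tauto
  by_contra hcon
  push Not at hcon
  obtain ⟨z, hz, hne⟩ := hcon
  obtain ⟨w, hw1, hw2, hw3⟩ := hpre _ _ hA hB (by
    intro z hz
    by_cases h : σ z = σ' z
    · exact Or.inl ⟨hz, h⟩
    · exact Or.inr ⟨hz, h⟩) ⟨z₀, h0, h0, he⟩ ⟨z, hz, hz, hne⟩
  exact hw3.2 hw2.2

theorem lineMap_mem' {K : Set ℂ} (hK : Convex ℝ K) {a b : ℂ} (ha : a ∈ K) (hb : b ∈ K) (t : unitInterval) :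
    ((1 - (t:ℝ) : ℝ) : ℂ) * a + ((t:ℝ) : ℂ) * b ∈ K := by
  have := hK ha hb (a := 1 - (t:ℝ)) (b := t) (by linarith [t.2.2]) t.2.1 (by ring)
  simpa only [Complex.real_smul] using this

/-- straight path in a section -/
theorem joined_img {pr : Y → ℂ} {K K' : Set ℂ} {σ σ' : ℂ → Y} (h : Good pr K σ)
    (h' : Good pr K' σ') (heq : ∀ z ∈ K ∩ K', σ z = σ' z) {t t' : Y}
    (ht : t ∈ img pr K σ ∩ img pr K' σ') (ht' : t' ∈ img pr K σ ∩ img pr K' σ') :
    JoinedIn (img pr K σ ∩ img pr K' σ') t t' := by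
  have hmem : ∀ s : unitInterval, ((1 - (s:ℝ) : ℝ) : ℂ) * pr t + ((s:ℝ) : ℂ) * pr t' ∈ K ∩ K' :=
    fun s => lineMap_mem' (h.cv.inter h'.cv) ⟨ht.1.1, ht.2.1⟩ ⟨ht'.1.1, ht'.2.1⟩ s
  let γ : Path t t' :=
    { toFun := fun s => σ (((1 - (s:ℝ) : ℝ) : ℂ) * pr t + ((s:ℝ) : ℂ) * pr t')
      continuous_toFun := by
        apply (h.ct.mono Set.inter_subset_left).comp_continuous (by fun_prop) hmem
      source' := by
        simp only [Set.Icc.coe_zero, sub_zero, Complex.ofReal_one, one_mul,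
          Complex.ofReal_zero, zero_mul, add_zero]
        exact ht.1.2
      target' := by
        simp only [Set.Icc.coe_one, sub_self, Complex.ofReal_one, one_mul,
          Complex.ofReal_zero, zero_mul, zero_add]
        exact ht'.1.2 }
  refine ⟨γ, fun s => ?_⟩
  have hs := hmem s
  show σ _ ∈ _
  have e := heq _ hs
  constructor
  · exact ⟨by rw [h.sec _ hs.1]; exact hs.1, by rw [h.sec _ hs.1]⟩
  · rw [e]
    exact ⟨by rw [h'.sec _ hs.2]; exact hs.2, by rw [h'.sec _ hs.2]⟩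

theorem homotopic_img {pr : Y → ℂ} (hpr : IsLocalHomeomorph pr) {K : Set ℂ} {σ : ℂ → Y}
    (h : Good pr K σ) {t t' : Y} (γ γ' : Path t t') (hγ : ∀ τ, γ τ ∈ img pr K σ)
    (hγ' : ∀ τ, γ' τ ∈ img pr K σ) : γ.Homotopic γ' := by
  refine ⟨{ toFun := fun p => σ (((1 - (p.1:ℝ) : ℝ) : ℂ) * pr (γ p.2) +
              ((p.1:ℝ) : ℂ) * pr (γ' p.2))
            continuous_toFun := ?_
            map_zero_left := ?_
            map_one_left := ?_
            prop' := ?_ }⟩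
  · have hc := hpr.continuous
    apply h.ct.comp_continuous (by fun_prop)
    intro p
    exact lineMap_mem' h.cv (hγ p.2).1 (hγ' p.2).1 p.1
  · intro s
    simp only [Set.Icc.coe_zero, sub_zero, Complex.ofReal_one, one_mul,
          Complex.ofReal_zero, zero_mul, add_zero]
    exact (hγ s).2
  · intro s
    simp only [Set.Icc.coe_one, sub_self, Complex.ofReal_one, one_mul,
          Complex.ofReal_zero, zero_mul, zero_add]
    exact (hγ' s).2
  · intro s x hx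
    simp only [Set.mem_insert_iff, Set.mem_singleton_iff] at hx
    rcases hx with rfl | rfl
    · simp only [ContinuousMap.coe_mk, Path.source, Path.coe_toContinuousMap]
      rw [← add_mul, ← Complex.ofReal_add, sub_add_cancel, Complex.ofReal_one, one_mul]
      have := (hγ 0).2
      rwa [γ.source] at this
    · simp only [ContinuousMap.coe_mk, Path.target, Path.coe_toContinuousMap]
      rw [← add_mul, ← Complex.ofReal_add, sub_add_cancel, Complex.ofReal_one, one_mul]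
      have := (hγ 1).2
      rwa [γ.target] at this

/-- sections over a convex set where `pr` is a covering -/
theorem cov_sections [T2Space Y] (pr : Y → ℂ) (hpr : IsLocalHomeomorph pr) (U : Set ℂ)
    (hcov : IsCoveringMapOn pr U) (hfin : ∀ s, (pr ⁻¹' {s}).Finite) (K : Set ℂ) (hK : IsOpen K)
    (hKc : Convex ℝ K) (hKU : K ⊆ U) :
    ∃ 𝒮 : Set (ℂ → Y), 𝒮.Finite ∧ (∀ σ ∈ 𝒮, Good pr K σ) ∧
      ∀ y, pr y ∈ K → ∃ σ ∈ 𝒮, y ∈ img pr K σ := by
  classical
  -- sections through every point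
  have hsec : ∀ y, pr y ∈ K → ∃ σ, Good pr K σ ∧ σ (pr y) = y := by
    intro y hy
    have : ContractibleSpace K := hKc.contractibleSpace ⟨_, hy⟩
    have : LocallyPathConnectedSpace K := hK.locallyPathConnectedSpace
    obtain ⟨F, ⟨hF1, hF2⟩, -⟩ := hcov.existsUnique_continuousMap_lifts (A := K)
      (⟨Subtype.val, continuous_subtype_val⟩ : C(K, ℂ)) (a₀ := ⟨pr y, hy⟩) (e₀ := y) rfl
      (fun a => hKU a.2)
    refine ⟨fun z => if hz : z ∈ K then F ⟨z, hz⟩ else y, ⟨hK, hKc, ?_, ?_⟩, ?_⟩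
    · rw [continuousOn_iff_continuous_domRestrict]
      have : K.domRestrict (fun z => if hz : z ∈ K then F ⟨z, hz⟩ else y) = F := by
        funext z
        simp [Set.domRestrict_apply, z.2]
      rw [this]
      exact F.continuous
    · intro z hz
      simp only [hz, dif_pos]
      exact congrFun hF2 ⟨z, hz⟩
    · simp only [hy, dif_pos]
      exact hF1
  rcases K.eq_empty_or_nonempty with rfl | ⟨z₀, hz₀⟩
  · exact ⟨∅, Set.finite_empty, by simp, by simp⟩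
  choose! S hS1 hS2 using hsec
  refine ⟨S '' (pr ⁻¹' {z₀}), (hfin z₀).image S, ?_, ?_⟩
  · rintro _ ⟨y, hy, rfl⟩
    apply hS1
    rw [Set.mem_preimage, Set.mem_singleton_iff] at hy
    rw [hy]; exact hz₀
  · intro y hy
    set w := S y z₀ with hw
    have hpw : pr w = z₀ := (hS1 y hy).sec z₀ hz₀
    have hwK : pr w ∈ K := by rw [hpw]; exact hz₀
    refine ⟨S w, ⟨w, hpw, rfl⟩, hy, ?_⟩
    have h1 : S w z₀ = S y z₀ := by
      have := hS2 w hwK
      rw [hpw] at this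
      rw [this]
    have h2 := eq_on_inter hpr (hS1 w hwK) (hS1 y hy) ⟨hz₀, hz₀⟩ h1 (pr y) ⟨hy, hy⟩
    rw [h2]
    exact hS2 y hy

theorem good_cover [T2Space Y] (pr : Y → ℂ)
    (hpr : IsLocalHomeomorph pr) (B : Set ℂ) (hB : B.Finite) (hcov : IsCoveringMapOn pr Bᶜ)
    (hfin : ∀ s, (pr ⁻¹' {s}).Finite) :
    ∃ (ι : Type) (_ : Finite ι) (D : ι → Set Y), (∀ i, IsOpen (D i)) ∧ (∀ y, ∃ i, y ∈ D i) ∧
      (∀ i (t t' : Y) (γ γ' : Path t t'), (∀ τ, γ τ ∈ D i) → (∀ τ, γ' τ ∈ D i) →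
      γ.Homotopic γ') ∧
      ∀ i j, ∀ t ∈ D i ∩ D j, ∀ t' ∈ D i ∩ D j, JoinedIn (D i ∩ D j) t t' := by
  classical
  obtain ⟨𝒦, h1, h2, h3⟩ := convex_cover B hB
  have hS : ∀ K ∈ 𝒦, ∃ 𝒮 : Set (ℂ → Y), 𝒮.Finite ∧ (∀ σ ∈ 𝒮, Good pr K σ) ∧
      ∀ y, pr y ∈ K → ∃ σ ∈ 𝒮, y ∈ img pr K σ := fun K hK =>
    cov_sections pr hpr Bᶜ hcov hfin K (h2 K hK).1 (h2 K hK).2.1 (h2 K hK).2.2
  choose! 𝒮 s1 s2 s3 using hS
  have hL : ∀ y, ∃ (K : Set ℂ) (σ : ℂ → Y), Good pr K σ ∧ y ∈ img pr K σ := by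
    intro y
    obtain ⟨e, he, hee⟩ := hpr y
    have hmem : pr y ∈ e.target := by rw [hee]; exact e.map_source he
    obtain ⟨ε, hε, hball⟩ := Metric.isOpen_iff.1 e.open_target _ hmem
    refine ⟨Metric.ball (pr y) ε, e.symm, ⟨Metric.isOpen_ball, convex_ball _ _,
      e.continuousOn_symm.mono hball, fun z hz => ?_⟩, Metric.mem_ball_self hε, ?_⟩
    · rw [hee]; exact e.right_inv (hball hz)
    · rw [hee]; exact e.left_inv he
  choose KL σL l1 l2 using hL
  let 𝒟 : Set (Set ℂ × (ℂ → Y)) := (⋃ K ∈ 𝒦, (fun σ => (K, σ)) '' 𝒮 K) ∪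
    (fun y => (KL y, σL y)) '' (⋃ β ∈ B, pr ⁻¹' {β})
  have hfinD : 𝒟.Finite := by
    refine Set.Finite.union (h1.biUnion fun K hK => (s1 K hK).image _) (Set.Finite.image _ ?_)
    exact hB.biUnion fun β _ => hfin β
  have hgood : ∀ p ∈ 𝒟, Good pr p.1 p.2 := by
    rintro p (hp | hp)
    · simp only [Set.mem_iUnion] at hp
      obtain ⟨K, hK, σ, hσ, rfl⟩ := hp
      exact s2 K hK σ hσ
    · obtain ⟨y, -, rfl⟩ := hp
      exact l1 y
  have : Finite 𝒟 := hfinD.to_subtype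
  obtain ⟨m, ⟨eqv⟩⟩ := Finite.exists_equiv_fin 𝒟
  have hg : ∀ i : Fin m, Good pr (eqv.symm i).1.1 (eqv.symm i).1.2 := fun i =>
    hgood _ (eqv.symm i).2
  refine ⟨Fin m, inferInstance, fun i => img pr (eqv.symm i).1.1 (eqv.symm i).1.2,
    fun i => img_open hpr (hg i), ?_, ?_, ?_⟩
  · intro y
    have : ∃ p ∈ 𝒟, y ∈ img pr p.1 p.2 := by
      by_cases hy : pr y ∈ B
      · refine ⟨(KL y, σL y), Or.inr ⟨y, ?_, rfl⟩, l2 y⟩
        simp only [Set.mem_iUnion]
        exact ⟨pr y, hy, rfl⟩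
      · obtain ⟨K, hK, hyK⟩ := h3 _ hy
        obtain ⟨σ, hσ, hy2⟩ := s3 K hK y hyK
        refine ⟨(K, σ), Or.inl ?_, hy2⟩
        simp only [Set.mem_iUnion]
        exact ⟨K, hK, σ, hσ, rfl⟩
    obtain ⟨p, hp, hy⟩ := this
    exact ⟨eqv ⟨p, hp⟩, by simpa using hy⟩
  · intro i t t' γ γ' hγ hγ'
    exact homotopic_img hpr (hg i) γ γ' hγ hγ'
  · intro i j t ht t' ht'
    apply joined_img (hg i) (hg j) _ ht ht'
    apply eq_on_inter hpr (hg i) (hg j) (z₀ := pr t) ⟨ht.1.1, ht.2.1⟩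
    rw [ht.1.2, ht.2.2]

end Pool.Agent.W327.F4
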