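import Pool.Agent.W327.F4.GenInt
import Pool.Agent.W481.Cover

/-!
# Complex points of étale algebras over `ℂ[s]`
-/

set_option autoImplicit false

open Polynomial TensorProduct Topology Pool.Agent.W481

namespace Pool.Agent.W327.F4

/-- the points of `ℂ[X]` are complex numbers -/
noncomputable def spPoly : Sp ℂ[X] ≃ₜ ℂ where
  toFun φ := φ.hom X
  invFun s := (aeval s : ℂ[X] →ₐ[ℂ] ℂ)
  left_inv φ := by
    refine Polynomial.algHom_ext ?_
    exact aeval_X _
  right_inv s := by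
    show (aeval s : ℂ[X] →ₐ[ℂ] ℂ) X = s
    exact aeval_X _
  continuous_toFun := continuous_sp_eval X
  continuous_invFun := by
    refine continuous_to_sp _ fun p => ?_
    show Continuous fun s : ℂ => (aeval s : ℂ[X] →ₐ[ℂ] ℂ) p
    exact p.continuous_aeval

section

variable {A : Type} [CommRing A] [Algebra ℂ A] [Algebra (Polynomial ℂ) A]
    [IsScalarTower ℂ (Polynomial ℂ) A] (pr : Sp A → ℂ)
    (hpr : ∀ φ : Sp A, pr φ = (show A →ₐ[ℂ] ℂ from φ) (algebraMap (Polynomial ℂ) A Polynomial.X))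

include hpr

theorem pr_eval (φ : Sp A) (p : ℂ[X]) : φ.hom (algebraMap ℂ[X] A p) = p.eval (pr φ) := by
  have h : φ.hom.comp (IsScalarTower.toAlgHom ℂ ℂ[X] A) = aeval (pr φ) := by
    refine Polynomial.algHom_ext ?_
    rw [aeval_X, hpr]
    rfl
  have := congrArg (fun f : ℂ[X] →ₐ[ℂ] ℂ => f p) h
  simp only [coe_aeval_eq_eval] at this
  exact this

theorem pr_eq : pr = spPoly ∘ Sp.comap (IsScalarTower.toAlgHom ℂ ℂ[X] A) := by
  funext φ
  exact hpr φ

theorem pr_localHomeo [Algebra.Etale (Polynomial ℂ) A] : IsLocalHomeomorph pr := by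
  rw [pr_eq pr hpr]
  exact spPoly.isLocalHomeomorph.comp isLocalHomeomorph_comap

theorem pr_finite [Algebra.Etale (Polynomial ℂ) A] (s : ℂ) : (pr ⁻¹' {s}).Finite := by
  let alg : Algebra ℂ[X] ℂ := (evalRingHom s).toAlgebra
  have hal : ∀ p : ℂ[X], algebraMap ℂ[X] ℂ p = p.eval s := fun _ => rfl
  let B := ℂ ⊗[ℂ[X]] A
  have het : Algebra.Etale ℂ B := inferInstance
  have hfin : Module.Finite ℂ B := Algebra.FormallyUnramified.finite_of_free _ _
  have hft : Finite (B →ₐ[ℂ] ℂ) := inferInstance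
  have hext : ∀ φ : Sp A, pr φ = s → ∃ χ : B →ₐ[ℂ] ℂ, ∀ a : A, χ (1 ⊗ₜ a) = φ.hom a := by
    intro φ hφ
    let φ' : A →ₐ[ℂ[X]] ℂ :=
      { φ.hom.toRingHom with
        commutes' := fun p => by
          show φ.hom (algebraMap ℂ[X] A p) = _
          rw [pr_eval pr hpr, hφ, hal] }
    refine ⟨Algebra.TensorProduct.lift (AlgHom.id ℂ ℂ) φ' (fun _ _ => Commute.all _ _), fun a => ?_⟩
    rw [Algebra.TensorProduct.lift_tmul, map_one, one_mul]
    rfl
  choose F hF using hext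
  have hfi : Finite (pr ⁻¹' {s}) := by
    refine Finite.of_injective (fun φ : (pr ⁻¹' {s} : Set (Sp A)) => F φ.1 φ.2) ?_
    intro φ φ' h
    refine Subtype.ext (AlgHom.ext fun a => ?_)
    show φ.1.hom a = φ'.1.hom a
    have h' : F φ.1 φ.2 = F φ'.1 φ'.2 := h
    rw [← hF φ.1 φ.2, ← hF φ'.1 φ'.2, h']
  exact Set.toFinite _

theorem conv_integral (𝒰 : Ultrafilter (Sp A)) (s₀ : ℂ) (h : Filter.Tendsto pr 𝒰 (𝓝 s₀)) (a : A)
    (ha : IsIntegral ℂ[X] a) : ∃ z : ℂ, Filter.Tendsto (fun χ : Sp A => χ.hom a) 𝒰 (𝓝 z) := by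
  obtain ⟨P, hP, hPb⟩ := ha
  let c : ℝ := 1 + ∑ i ∈ Finset.range P.natDegree, (‖(P.coeff i).eval s₀‖ + 1)
  have hroot : ∀ χ : Sp A, (P.map (evalRingHom (pr χ))).eval (χ.hom a) = 0 := by
    intro χ
    have h2 := congrArg χ.hom hPb
    rw [map_zero] at h2
    rw [eval_map, ← h2]
    show _ = χ.hom.toRingHom (eval₂ (algebraMap ℂ[X] A) a P)
    rw [hom_eval₂]
    congr 1
    refine RingHom.ext fun p => ?_
    exact (pr_eval pr hpr χ p).symm
  have hev : ∀ᶠ χ : Sp A in (𝒰 : Filter (Sp A)), ‖χ.hom a‖ ≤ c := by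
    have h3 : ∀ i, ∀ᶠ χ : Sp A in (𝒰 : Filter (Sp A)),
        ‖(P.coeff i).eval (pr χ)‖ < ‖(P.coeff i).eval s₀‖ + 1 := by
      intro i
      have h4 : Filter.Tendsto (fun χ : Sp A => ‖(P.coeff i).eval (pr χ)‖) 𝒰
          (𝓝 ‖(P.coeff i).eval s₀‖) :=
        ((P.coeff i).continuous.norm.continuousAt (x := s₀)).tendsto.comp h
      exact h4.eventually_lt_const (by linarith)
    have h5 : ∀ᶠ χ : Sp A in (𝒰 : Filter (Sp A)), ∀ i ∈ Finset.range P.natDegree,
        ‖(P.coeff i).eval (pr χ)‖ < ‖(P.coeff i).eval s₀‖ + 1 :=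
      (Finset.eventually_all _).2 fun i _ => h3 i
    filter_upwards [h5] with χ hχ
    have h6 := root_bound _ (hP.map (evalRingHom (pr χ))) _ (hroot χ)
    refine h6.trans ?_
    rw [hP.natDegree_map]
    simp only [coeff_map]
    exact add_le_add le_rfl (Finset.sum_le_sum fun i hi => (hχ i hi).le)
  have hcomp : IsCompact (Metric.closedBall (0 : ℂ) c) := isCompact_closedBall _ _
  obtain ⟨z, -, hz⟩ := hcomp.ultrafilter_le_nhds (𝒰.map fun χ : Sp A => χ.hom a) (by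
    rw [Filter.le_principal_iff]
    show ∀ᶠ χ : Sp A in (𝒰 : Filter (Sp A)), χ.hom a ∈ Metric.closedBall (0 : ℂ) c
    filter_upwards [hev] with χ hχ
    simpa using hχ)
  exact ⟨z, hz⟩

theorem conv_all (b : ℂ[X]) (hb : b ≠ 0) (hG : GenInt b A) (𝒰 : Ultrafilter (Sp A)) (s₀ : ℂ)
    (hs₀ : b.eval s₀ ≠ 0) (h : Filter.Tendsto pr 𝒰 (𝓝 s₀)) :
    ∃ Ψ : Sp A, pr Ψ = s₀ ∧ (𝒰 : Filter (Sp A)) ≤ 𝓝 Ψ := by
  have h1 : ∀ a : A, ∃ z : ℂ, Filter.Tendsto (fun χ : Sp A => χ.hom a) 𝒰 (𝓝 z) := by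
    intro a
    obtain ⟨m, hm⟩ := (genInt_iff b hb A).1 hG a
    obtain ⟨z, hz⟩ := conv_integral pr hpr 𝒰 s₀ h _ hm
    have hbt : Filter.Tendsto (fun χ : Sp A => b.eval (pr χ)) 𝒰 (𝓝 (b.eval s₀)) :=
      (b.continuous.continuousAt (x := s₀)).tendsto.comp h
    refine ⟨z / (b.eval s₀) ^ m, ?_⟩
    refine (hz.div (hbt.pow m) (pow_ne_zero m hs₀)).congr' ?_
    filter_upwards [hbt.eventually_ne hs₀] with χ hχ
    show χ.hom (b ^ m • a) / (b.eval (pr χ)) ^ m = χ.hom a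
    rw [Algebra.smul_def, map_mul, pr_eval pr hpr, eval_pow]
    rw [mul_div_cancel_left₀ _ (pow_ne_zero m hχ)]
  choose ψ hψ using h1
  let Ψ : A →ₐ[ℂ] ℂ :=
    { toFun := ψ
      map_one' := tendsto_nhds_unique (hψ 1) (by
        simp only [map_one]
        exact tendsto_const_nhds)
      map_mul' := fun a b => tendsto_nhds_unique (hψ (a * b)) (by
        simp only [map_mul]
        exact (hψ a).mul (hψ b))
      map_zero' := tendsto_nhds_unique (hψ 0) (by
        simp only [map_zero]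
        exact tendsto_const_nhds)
      map_add' := fun a b => tendsto_nhds_unique (hψ (a + b)) (by
        simp only [map_add]
        exact (hψ a).add (hψ b))
      commutes' := fun z => tendsto_nhds_unique (hψ _) (by
        refine Filter.Tendsto.congr (fun χ : Sp A => (χ.hom.commutes z).symm) ?_
        exact tendsto_const_nhds) }
  let Ψ' : Sp A := Ψ
  refine ⟨Ψ', ?_, ?_⟩
  · rw [hpr]
    refine tendsto_nhds_unique (hψ (algebraMap ℂ[X] A X)) ?_
    refine h.congr fun χ => ?_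
    rw [hpr]
    rfl
  · have hind : IsInducing (fun (φ : Sp A) (b : A) => φ.hom b) := ⟨rfl⟩
    rw [hind.nhds_eq_comap, ← Filter.tendsto_iff_comap]
    exact tendsto_pi_nhds.2 fun b => hψ b

theorem pr_covering [Algebra.Etale (Polynomial ℂ) A] (b : ℂ[X]) (hb : b ≠ 0) (hG : GenInt b A) :
    IsCoveringMapOn pr {s | b.eval s ≠ 0} := by
  have hlh := pr_localHomeo pr hpr
  have hU : IsOpen {s : ℂ | b.eval s ≠ 0} := isOpen_ne_fun b.continuous continuous_const
  refine IsCoveringMapOn.of_isCoveringMap_restrictPreimage _ hU (hU.preimage hlh.continuous) ?_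
  set U : Set ℂ := {s | b.eval s ≠ 0} with hUdef
  have hprop : IsProperMap (U.restrictPreimage pr) := by
    rw [isProperMap_iff_ultrafilter]
    refine ⟨hlh.continuous.restrictPreimage, fun 𝒰 y hy => ?_⟩
    obtain ⟨Ψ, hΨ1, hΨ2⟩ := conv_all pr hpr b hb hG (𝒰.map Subtype.val) y.1 y.2 (by
      have h2 := (continuous_subtype_val.tendsto y).comp hy
      exact h2)
    refine ⟨⟨Ψ, by rw [Set.mem_preimage, hΨ1]; exact y.2⟩, Subtype.ext hΨ1, ?_⟩
    rw [nhds_subtype_eq_comap, ← Filter.tendsto_iff_comap]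
    exact hΨ2
  rw [isCoveringMap_iff_isCoveringMapOn_univ]
  refine hprop.isClosedMap.isCoveringMapOn_of_isLocalHomeomorphOn (fun x _ => ?_) ?_
  · refine Set.Finite.of_finite_image (f := Subtype.val) ?_ Subtype.val_injective.injOn
    refine (pr_finite pr hpr x.1).subset ?_
    rintro _ ⟨w, hw, rfl⟩
    have : U.restrictPreimage pr w = x := hw
    exact congrArg Subtype.val this
  · intro e _
    have h1 : IsLocalHomeomorph (U.restrictPreimage pr) := by
      have h2 : IsLocalHomeomorph ((Subtype.val : U → ℂ) ∘ U.restrictPreimage pr) :=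
        hlh.comp (hU.preimage hlh.continuous).isOpenEmbedding_subtypeVal.isLocalHomeomorph
      exact IsLocalHomeomorph.of_comp h2 hU.isOpenEmbedding_subtypeVal.isLocalHomeomorph
        hlh.continuous.restrictPreimage
    exact h1 e

end

theorem curve_cover (A : Type) [CommRing A] [Algebra ℂ A] [Algebra (Polynomial ℂ) A]
    [IsScalarTower ℂ (Polynomial ℂ) A] [Algebra.Etale (Polynomial ℂ) A] (b : Polynomial ℂ)
    (hb : b ≠ 0) (h : GenInt b A) (pr : Sp A → ℂ)
    (hpr : ∀ φ : Sp A, pr φ = (show A →ₐ[ℂ] ℂ from φ) (algebraMap (Polynomial ℂ) A Polynomial.X)) :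
    IsLocalHomeomorph pr ∧ IsCoveringMapOn pr {s | b.eval s ≠ 0} ∧ ∀ s, (pr ⁻¹' {s}).Finite :=
  ⟨pr_localHomeo pr hpr, pr_covering pr hpr b hb h, pr_finite pr hpr⟩

end Pool.Agent.W327.F4
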