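import Pool.Agent.W327.F4.Curve
import Pool.Agent.W378.F4C

/-!
# The fundamental group of a finite branched-type cover of `ℂ` minus a finite set is f.g.
-/

set_option autoImplicit false

open Topology

namespace Pool.Agent.W327.F4

theorem curve_fg {Y : Type} [TopologicalSpace Y] [T2Space Y] (pr : Y → ℂ)
    (hpr : IsLocalHomeomorph pr) (B : Set ℂ) (hB : B.Finite) (hcov : IsCoveringMapOn pr Bᶜ)
    (hfin : ∀ s, (pr ⁻¹' {s}).Finite) (y₀ : Y) : Group.FG (FundamentalGroup Y y₀) := by
  obtain ⟨ι, hι, D, h1, h2, h3, h4⟩ := good_cover pr hpr B hB hcov hfin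
  exact Pool.Agent.W378.F4C.fundamentalGroup_fg D h1 h2 h3 h4 y₀

end Pool.Agent.W327.F4
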