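import Mathlib

/-!
# Generic finiteness of étale algebras over `ℂ[s]`
-/

set_option autoImplicit false

open Polynomial TensorProduct

namespace Pool.Agent.W327.F4

/-- every element of `A` becomes integral over `ℂ[s]` after `b` is inverted -/
def GenInt (b : Polynomial ℂ) (A : Type) [CommRing A] [Algebra (Polynomial ℂ) A] : Prop :=
  ∀ a : A, ∃ (k : ℕ) (P : Polynomial (Polynomial ℂ)), P.leadingCoeff = b ^ k ∧
    Polynomial.aeval a P = 0

/-- equivalent form: a power of `b` times the element is integral -/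
theorem genInt_iff (b : Polynomial ℂ) (hb : b ≠ 0) (A : Type) [CommRing A]
    [Algebra (Polynomial ℂ) A] :
    GenInt b A ↔ ∀ a : A, ∃ m : ℕ, IsIntegral (Polynomial ℂ) (b ^ m • a) := by
  constructor
  · intro h a
    obtain ⟨k, P, hP, hPa⟩ := h a
    refine ⟨k, ?_⟩
    rw [← hP]
    exact isIntegral_leadingCoeff_smul P a hPa
  · intro h a
    obtain ⟨m, Q, hQ, hQa⟩ := h a
    have hbm : b ^ m ≠ 0 := pow_ne_zero _ hb
    have hdeg : (C (b ^ m) * X : Polynomial (Polynomial ℂ)).natDegree = 1 := by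
      rw [natDegree_C_mul hbm, natDegree_X]
    refine ⟨m * Q.natDegree, Q.comp (C (b ^ m) * X), ?_, ?_⟩
    · rw [leadingCoeff_comp (by rw [hdeg]; exact one_ne_zero), hQ.leadingCoeff, one_mul,
        leadingCoeff_mul, leadingCoeff_C, leadingCoeff_X, mul_one, pow_mul]
    · rw [aeval_comp]
      simp only [map_mul, aeval_X, aeval_C]
      rw [aeval_def, ← Algebra.smul_def]
      exact hQa

/-- the elements that become integral after inverting `b` form a subalgebra -/
theorem subalg (b : Polynomial ℂ) (A : Type) [CommRing A] [Algebra (Polynomial ℂ) A] :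
    ∃ S : Subalgebra (Polynomial ℂ) A, ∀ a, a ∈ S ↔ ∃ m : ℕ, IsIntegral (Polynomial ℂ) (b ^ m • a) := by
  refine ⟨{ carrier := {a | ∃ m : ℕ, IsIntegral (Polynomial ℂ) (b ^ m • a)}
            mul_mem' := ?_
            add_mem' := ?_
            algebraMap_mem' := ?_ }, fun a => Iff.rfl⟩
  · rintro a c ⟨m, hm⟩ ⟨k, hk⟩
    refine ⟨m + k, ?_⟩
    have := hm.mul hk
    rwa [smul_mul_smul_comm, ← pow_add] at this
  · rintro a c ⟨m, hm⟩ ⟨k, hk⟩
    refine ⟨m + k, ?_⟩
    have h1 : b ^ (m + k) • (a + c) = b ^ k • (b ^ m • a) + b ^ m • (b ^ k • c) := by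
      rw [smul_add, smul_smul, smul_smul, ← pow_add, ← pow_add, add_comm k m]
    rw [h1]
    exact (hm.smul _).add (hk.smul _)
  · intro r
    exact ⟨0, by rw [pow_zero, one_smul]; exact isIntegral_algebraMap⟩

theorem integral_multiple (A : Type) [CommRing A] [Algebra (Polynomial ℂ) A]
    [Algebra.Etale (Polynomial ℂ) A] (a : A) :
    ∃ c : Polynomial ℂ, c ≠ 0 ∧ IsIntegral (Polynomial ℂ) (c • a) := by
  let K := FractionRing (Polynomial ℂ)
  let : Algebra A (K ⊗[ℂ[X]] A) := Algebra.TensorProduct.rightAlgebra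
  have het : Algebra.Etale K (K ⊗[ℂ[X]] A) := inferInstance
  have hfin : Module.Finite K (K ⊗[ℂ[X]] A) := Algebra.FormallyUnramified.finite_of_free _ _
  have hloc : IsLocalization (Algebra.algebraMapSubmonoid A (nonZeroDivisors ℂ[X]))
      (K ⊗[ℂ[X]] A) := IsLocalization.tensorRight _ _
  have hint : IsIntegral K (algebraMap A (K ⊗[ℂ[X]] A) a) := Algebra.IsIntegral.isIntegral _
  obtain ⟨m, hm⟩ := IsIntegral.exists_multiple_integral_of_isLocalization
    (nonZeroDivisors ℂ[X]) (algebraMap A (K ⊗[ℂ[X]] A) a) hint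
  have h1 : m • algebraMap A (K ⊗[ℂ[X]] A) a = algebraMap A (K ⊗[ℂ[X]] A) ((m : ℂ[X]) • a) := by
    rw [Submonoid.smul_def]
    exact (TensorProduct.tmul_smul (m : ℂ[X]) (1 : K) a).symm
  rw [h1] at hm
  obtain ⟨m', hm', h2⟩ := IsLocalization.exists_isIntegral_smul_of_isIntegral_map
    (nonZeroDivisors ℂ[X]) hm
  refine ⟨m' * m, mul_ne_zero (nonZeroDivisors.ne_zero hm') (nonZeroDivisors.ne_zero m.2), ?_⟩
  rw [mul_smul]
  exact h2

theorem generic_finite (A : Type) [CommRing A] [Algebra (Polynomial ℂ) A]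
    [Algebra.Etale (Polynomial ℂ) A] : ∃ b : Polynomial ℂ, b ≠ 0 ∧ GenInt b A := by
  classical
  choose c hc hci using integral_multiple A
  obtain ⟨s, hs⟩ := (inferInstance : Algebra.FiniteType ℂ[X] A).out
  have hb : (∏ a ∈ s, c a) ≠ 0 := Finset.prod_ne_zero_iff.2 fun a _ => hc a
  refine ⟨∏ a ∈ s, c a, hb, (genInt_iff _ hb A).2 ?_⟩
  obtain ⟨S, hS⟩ := subalg (∏ a ∈ s, c a) A
  have hle : Algebra.adjoin ℂ[X] (s : Set A) ≤ S := by
    apply Algebra.adjoin_le
    intro a ha
    rw [SetLike.mem_coe, hS]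
    refine ⟨1, ?_⟩
    rw [pow_one, ← Finset.prod_erase_mul s c ha, mul_smul]
    exact (hci a).smul _
  intro a
  rw [← hS]
  exact hle (by rw [hs]; trivial)

theorem integral_of_coeffs {R A B : Type} [CommRing R] [CommRing A] [CommRing B] [Algebra R A]
    [Algebra R B] [Algebra A B] [IsScalarTower R A B] (P : Polynomial A) (hP : P.Monic)
    (hc : ∀ i, IsIntegral R (P.coeff i)) (y : B) (hy : aeval y P = 0) : IsIntegral R y := by
  let T : Subring A := (integralClosure R A).toSubring
  have hT : (P.coeffs : Set A) ⊆ T := by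
    intro a ha
    rw [Finset.mem_coe, mem_coeffs_iff] at ha
    obtain ⟨i, -, rfl⟩ := ha
    exact hc i
  let P₀ : Polynomial (integralClosure R A) := P.toSubring T hT
  have hP₀ : P₀.Monic := (monic_toSubring P T hT).2 hP
  have hmap : P₀.map (algebraMap (integralClosure R A) A) = P := map_toSubring P T hT
  have h1 : IsIntegral (integralClosure R A) y := by
    refine ⟨P₀, hP₀, ?_⟩
    have : eval₂ (algebraMap (integralClosure R A) B) y P₀ = aeval y P := by
      rw [← hmap, aeval_def, eval₂_map]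
      rfl
    rw [this, hy]
  exact isIntegral_trans (R := R) (A := integralClosure R A) y h1

theorem GenInt.of_finite (b : Polynomial ℂ) (hb : b ≠ 0) (A B : Type) [CommRing A] [CommRing B]
    [Algebra (Polynomial ℂ) A] [Algebra (Polynomial ℂ) B] [Algebra A B]
    [IsScalarTower (Polynomial ℂ) A B] [Module.Finite A B] (h : GenInt b A) : GenInt b B := by
  classical
  rw [genInt_iff b hb] at h ⊢
  intro y
  obtain ⟨Q, hQ, hQy⟩ := Algebra.IsIntegral.isIntegral (R := A) y
  choose m hm using h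
  let M : ℕ := ∑ i ∈ Finset.range Q.natDegree, m (Q.coeff i)
  have hM : ∀ i < Q.natDegree, IsIntegral ℂ[X] (b ^ M • Q.coeff i) := by
    intro i hi
    have h1 : m (Q.coeff i) ≤ M :=
      Finset.single_le_sum (f := fun i => m (Q.coeff i)) (fun _ _ => Nat.zero_le _)
        (Finset.mem_range.2 hi)
    obtain ⟨k, hk⟩ := Nat.exists_eq_add_of_le' h1
    rw [hk, pow_add, mul_smul]
    exact (hm _).smul _
  refine ⟨M, ?_⟩
  set t : A := algebraMap ℂ[X] A (b ^ M) with ht
  have ht' : IsIntegral ℂ[X] t := isIntegral_algebraMap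
  apply integral_of_coeffs (A := A) (Q.scaleRoots t) ((monic_scaleRoots_iff t).2 hQ)
  · intro i
    rw [coeff_scaleRoots]
    rcases lt_trichotomy i Q.natDegree with hi | hi | hi
    · obtain ⟨k, hk⟩ := Nat.exists_eq_add_of_lt hi
      have h2 : Q.natDegree - i = k + 1 := by omega
      rw [h2, pow_succ', ← mul_assoc]
      refine IsIntegral.mul ?_ (ht'.pow k)
      have := hM i hi
      rw [Algebra.smul_def] at this
      rw [mul_comm]
      exact this
    · subst hi
      rw [hQ.coeff_natDegree, Nat.sub_self, pow_zero, mul_one]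
      exact isIntegral_one
    · rw [coeff_eq_zero_of_natDegree_lt hi, zero_mul]
      exact isIntegral_zero
  · have h3 : b ^ M • y = algebraMap A B t * y := by
      rw [Algebra.smul_def, ht, ← IsScalarTower.algebraMap_apply]
    rw [h3]
    exact scaleRoots_aeval_eq_zero hQy

end Pool.Agent.W327.F4
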