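import Mathlib

/-!
# Liouville with polynomial growth off a finite set
-/

set_option autoImplicit false

open Polynomial Topology

namespace Pool.Agent.W327.F4

/-- extension over a finite set of removable singularities -/
theorem ext_entire (Z : Finset ℂ) : ∀ (f : ℂ → ℂ) (_hf : ∀ s, s ∉ Z → DifferentiableAt ℂ f s)
    (_ho : ∀ z ∈ Z, Filter.Tendsto (fun w => f w * (w - z)) (𝓝[≠] z) (𝓝 0)),
    ∃ g : ℂ → ℂ, Differentiable ℂ g ∧ ∀ s, s ∉ Z → f s = g s := by
  classical
  induction Z using Finset.induction_on with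
  | empty =>
    intro f hf _
    exact ⟨f, fun s => hf s (by simp), fun s _ => rfl⟩
  | insert z Z hz ih =>
    intro f hf ho
    have hcl : IsOpen ((Z : Set ℂ)ᶜ) := (Z.finite_toSet.isClosed).isOpen_compl
    have hc : ((Z : Set ℂ)ᶜ) ∈ 𝓝 z := hcl.mem_nhds (by simpa using hz)
    have hd : DifferentiableOn ℂ f (((Z : Set ℂ)ᶜ) \ {z}) := by
      intro s hs
      apply (hf s _).differentiableWithinAt
      simp only [Finset.mem_insert, not_or]
      exact ⟨fun h => hs.2 (by simpa using h), fun h => hs.1 (by simpa using h)⟩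
    have hoz : (fun w => f w - f z) =o[𝓝[≠] z] fun w => (w - z)⁻¹ := by
      rw [Asymptotics.isLittleO_iff_tendsto']
      · have h1 := ho z (Finset.mem_insert_self _ _)
        have h2 : Filter.Tendsto (fun w => f z * (w - z)) (𝓝[≠] z) (𝓝 0) := by
          have h3 : Filter.Tendsto (fun w => f z * (w - z)) (𝓝 z) (𝓝 (f z * (z - z))) := by
            apply Continuous.tendsto
            fun_prop
          rw [sub_self, mul_zero] at h3
          exact h3.mono_left nhdsWithin_le_nhds
        have h4 := h1.sub h2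
        rw [sub_zero] at h4
        refine h4.congr fun w => ?_
        rw [div_inv_eq_mul]
        ring
      · filter_upwards [self_mem_nhdsWithin] with w hw h0
        rw [inv_eq_zero, sub_eq_zero] at h0
        exact absurd h0 hw
    have hg := Complex.differentiableOn_update_limUnder_of_isLittleO hc hd hoz
    set g₀ := Function.update f z ((𝓝[≠] z).limUnder f) with hg₀
    have hne : ∀ w, w ≠ z → g₀ w = f w := by
      intro w hw
      rw [hg₀, Function.update_of_ne hw]
    obtain ⟨g, hg1, hg2⟩ := ih g₀ (fun s hs => (hg s (by simpa using hs)).differentiableAt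
      (hcl.mem_nhds (by simpa using hs))) (by
        intro z' hz'
        have hzz : z' ≠ z := fun h => hz (h ▸ hz')
        have h1 := ho z' (Finset.mem_insert_of_mem hz')
        refine h1.congr' ?_
        have : ∀ᶠ w in 𝓝 z', w ≠ z := isOpen_ne.mem_nhds hzz
        filter_upwards [nhdsWithin_le_nhds this] with w hw
        rw [hne w hw])
    refine ⟨g, hg1, fun s hs => ?_⟩
    simp only [Finset.mem_insert, not_or] at hs
    rw [← hne s hs.1]
    exact hg2 s hs.2

theorem entire_poly (r : ℕ) : ∀ (g : ℂ → ℂ) (_hg : Differentiable ℂ g) (C : ℝ)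
    (_hb : ∀ s, ‖g s‖ ≤ C * (1 + ‖s‖) ^ r),
    ∃ q : Polynomial ℂ, q.natDegree ≤ r ∧ ∀ s, g s = q.eval s := by
  induction r with
  | zero =>
    intro g hg C hb
    obtain ⟨c, hc⟩ := hg.exists_const_forall_eq_of_bounded
      (by
        rw [isBounded_iff_forall_norm_le]
        refine ⟨C, ?_⟩
        rintro _ ⟨s, rfl⟩
        simpa using hb s)
    exact ⟨Polynomial.C c, by simp, fun s => by simp [hc s]⟩
  | succ r ih =>
    intro g hg C hb
    have hC : 0 ≤ C := by
      have := hb 0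
      simp only [norm_zero, add_zero, one_pow, mul_one] at this
      exact le_trans (norm_nonneg _) this
    have hh : Differentiable ℂ (dslope g 0) := by
      rw [← differentiableOn_univ]
      rw [Complex.differentiableOn_dslope Filter.univ_mem]
      exact hg.differentiableOn
    obtain ⟨M, hM⟩ := (isCompact_closedBall (0:ℂ) 1).exists_bound_of_continuousOn
      hh.continuous.continuousOn
    have hM0 : 0 ≤ M := le_trans (norm_nonneg _) (hM 0 (by simp))
    obtain ⟨q, hq1, hq2⟩ := ih (dslope g 0) hh (4 * C + M) (by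
      intro s
      have h1 : (1:ℝ) ≤ (1 + ‖s‖) ^ r := one_le_pow₀ (by linarith [norm_nonneg s])
      rcases le_or_gt ‖s‖ 1 with hs | hs
      · have := hM s (by simpa using hs)
        nlinarith
      · have hs0 : s ≠ 0 := by
          intro h; rw [h, norm_zero] at hs; linarith
        rw [dslope_of_ne _ hs0, slope_def_field, sub_zero, norm_div]
        rw [div_le_iff₀ (by linarith)]
        have h2 : ‖g s - g 0‖ ≤ C * (1 + ‖s‖) ^ (r+1) + C := by
          refine (norm_sub_le _ _).trans ?_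
          have := hb 0
          simp only [norm_zero, add_zero, one_pow, mul_one] at this
          linarith [hb s]
        refine h2.trans ?_
        rw [pow_succ]
        have h3 : 1 + ‖s‖ ≤ 2 * ‖s‖ := by linarith
        have h4 : C * ((1 + ‖s‖) ^ r * (1 + ‖s‖)) ≤ C * ((1 + ‖s‖) ^ r * (2 * ‖s‖)) := by gcongr
        have h5 : C ≤ C * ((1 + ‖s‖) ^ r * (2 * ‖s‖)) := by
          have : 1 ≤ (1 + ‖s‖) ^ r * (2 * ‖s‖) := by nlinarith
          nlinarith
        have h6 : 0 ≤ M * (1 + ‖s‖) ^ r * ‖s‖ := by positivity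
        nlinarith)
    refine ⟨Polynomial.X * q + Polynomial.C (g 0), ?_, ?_⟩
    · refine (natDegree_add_le _ _).trans ?_
      rw [natDegree_C]
      simp only [zero_le, sup_of_le_left]
      refine (natDegree_mul_le).trans ?_
      rw [natDegree_X]
      omega
    · intro s
      simp only [eval_add, eval_mul, eval_X, eval_C]
      rw [← hq2 s]
      have := sub_smul_dslope g 0 s
      simp only [sub_zero, smul_eq_mul] at this
      rw [this]
      ring

theorem dense_compl_roots (b : Polynomial ℂ) (hb : b ≠ 0) : Dense {s : ℂ | b.eval s ≠ 0} := by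
  classical
  have h : {s : ℂ | b.eval s ≠ 0} = ((b.roots.toFinset : Set ℂ))ᶜ := by
    ext s
    simp [hb]
  rw [h]
  exact (b.roots.toFinset.countable_toSet).dense_compl ℂ

theorem poly_of_growth (f : ℂ → ℂ) (b : Polynomial ℂ) (hb : b ≠ 0)
    (hf : ∀ s, b.eval s ≠ 0 → DifferentiableAt ℂ f s)
    (r : ℕ) (C : ℝ) (hg : ∀ s, b.eval s ≠ 0 → ‖f s‖ ≤ C * (1 + ‖s‖) ^ r) :
    ∃ q : Polynomial ℂ, q.natDegree ≤ r ∧ ∀ s, b.eval s ≠ 0 → f s = q.eval s := by
  classical
  have hC : 0 ≤ C := by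
    obtain ⟨s, hs⟩ := (dense_compl_roots b hb).nonempty
    have := (norm_nonneg _).trans (hg s hs)
    exact nonneg_of_mul_nonneg_left this (by positivity)
  have hmem : ∀ s, s ∉ b.roots.toFinset ↔ b.eval s ≠ 0 := by
    intro s; simp [hb]
  obtain ⟨g, hg1, hg2⟩ := ext_entire b.roots.toFinset f (fun s hs => hf s ((hmem s).1 hs)) (by
    intro z hz
    have hev : ∀ᶠ w in 𝓝[≠] z, b.eval w ≠ 0 := by
      have h1 : ((b.roots.toFinset.erase z : Finset ℂ) : Set ℂ)ᶜ ∈ 𝓝 z :=
        ((Finset.finite_toSet _).isClosed).isOpen_compl.mem_nhds (by simp)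
      filter_upwards [self_mem_nhdsWithin, nhdsWithin_le_nhds h1] with w hw hw2
      rw [← hmem]
      intro h3
      apply hw2
      simp only [Finset.coe_erase, Set.mem_sdiff, Finset.mem_coe]
      exact ⟨h3, hw⟩
    have hb1 : Filter.Tendsto (fun w => C * (1 + ‖w‖) ^ r * ‖w - z‖) (𝓝[≠] z) (𝓝 0) := by
      have h3 : Filter.Tendsto (fun w : ℂ => C * (1 + ‖w‖) ^ r * ‖w - z‖) (𝓝 z)
          (𝓝 (C * (1 + ‖z‖) ^ r * ‖z - z‖)) := by
        apply Continuous.tendsto
        fun_prop
      rw [sub_self, norm_zero, mul_zero] at h3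
      exact h3.mono_left nhdsWithin_le_nhds
    refine squeeze_zero_norm' ?_ hb1
    filter_upwards [hev] with w hw
    rw [norm_mul]
    exact mul_le_mul_of_nonneg_right (hg w hw) (norm_nonneg _))
  obtain ⟨q, hq1, hq2⟩ := entire_poly r g hg1 C (by
    intro s
    have hcl : IsClosed {s : ℂ | ‖g s‖ ≤ C * (1 + ‖s‖) ^ r} :=
      isClosed_le hg1.continuous.norm (by fun_prop)
    have hsub : {s : ℂ | b.eval s ≠ 0} ⊆ {s : ℂ | ‖g s‖ ≤ C * (1 + ‖s‖) ^ r} := by
      intro s hs
      have h1 := hg2 s ((hmem s).2 hs)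
      show ‖g s‖ ≤ _
      rw [← h1]
      exact hg s hs
    have := closure_minimal hsub hcl
    rw [(dense_compl_roots b hb).closure_eq] at this
    exact this (Set.mem_univ s))
  exact ⟨q, hq1, fun s hs => (hg2 s ((hmem s).2 hs)).trans (hq2 s)⟩

/-- a nonzero polynomial is bounded below near infinity -/
theorem lower_bound (b : Polynomial ℂ) (hb : b ≠ 0) :
    ∃ c₀ : ℝ, 0 < c₀ ∧ ∃ R : ℝ, ∀ s : ℂ, R ≤ ‖s‖ → c₀ ≤ ‖b.eval s‖ := by
  rcases Nat.eq_zero_or_pos b.natDegree with h | h
  · rw [eq_C_of_natDegree_eq_zero h] at hb ⊢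
    have hb0 : b.coeff 0 ≠ 0 := by
      intro h0; rw [h0] at hb; simp at hb
    exact ⟨‖b.coeff 0‖, norm_pos_iff.2 hb0, 0, fun s _ => by simp⟩
  · have h1 : 0 < b.degree := natDegree_pos_iff_degree_pos.1 h
    have h2 := b.tendsto_norm_atTop h1 (tendsto_norm_cocompact_atTop (E := ℂ))
    have h3 := h2.eventually_ge_atTop 1
    rw [Filter.eventually_iff_exists_mem] at h3
    obtain ⟨v, hv, hv2⟩ := h3
    rw [Filter.mem_cocompact] at hv
    obtain ⟨t, ht, htv⟩ := hv
    obtain ⟨R, hR⟩ := ht.isBounded.exists_norm_le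
    refine ⟨1, one_pos, R + 1, fun s hs => hv2 s (htv ?_)⟩
    intro hst
    linarith [hR s hst]

theorem tendsto_zero_of_pow {α : Type*} {l : Filter α} (x : α → ℝ) (hx : ∀ a, 0 ≤ x a) (n : ℕ)
    (hn : n ≠ 0) (h : Filter.Tendsto (fun a => x a ^ n) l (𝓝 0)) : Filter.Tendsto x l (𝓝 0) := by
  rw [Metric.tendsto_nhds] at h ⊢
  intro ε hε
  filter_upwards [h (ε ^ n) (by positivity)] with a ha
  rw [Real.dist_eq, sub_zero] at ha ⊢
  rw [abs_of_nonneg (pow_nonneg (hx a) n)] at ha
  rw [abs_of_nonneg (hx a)]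
  exact lt_of_pow_lt_pow_left₀ n hε.le ha

theorem const_of_growth (f : ℂ → ℂ) (b : Polynomial ℂ) (hb : b ≠ 0)
    (hf : ∀ s, b.eval s ≠ 0 → DifferentiableAt ℂ f s)
    (n K : ℕ) (hn : K * (b.natDegree + 1) < n) (C : ℝ)
    (hg : ∀ s, b.eval s ≠ 0 → ‖f s‖ ^ n * ‖b.eval s‖ ^ K ≤ C * (1 + ‖s‖) ^ K) :
    ∃ c, ∀ s, b.eval s ≠ 0 → f s = c := by
  classical
  have hC : 0 ≤ C := by
    obtain ⟨s, hs⟩ := (dense_compl_roots b hb).nonempty
    have := (by positivity : 0 ≤ ‖f s‖ ^ n * ‖b.eval s‖ ^ K).trans (hg s hs)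
    exact nonneg_of_mul_nonneg_left this (by positivity)
  have hn0 : n ≠ 0 := by omega
  have hKn : K < n := lt_of_le_of_lt (Nat.le_mul_of_pos_right K (Nat.succ_pos _)) hn
  have hmem : ∀ s, s ∉ b.roots.toFinset ↔ b.eval s ≠ 0 := by
    intro s; simp [hb]
  obtain ⟨g, hg1, hg2⟩ := ext_entire b.roots.toFinset f (fun s hs => hf s ((hmem s).1 hs)) (by
    intro z hz
    obtain ⟨c, hc1, hc2⟩ := exists_eq_pow_rootMultiplicity_mul_and_not_dvd b hb z
    set m := rootMultiplicity z b with hm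
    have hmd : m ≤ b.natDegree := by
      have hc0 : c ≠ 0 := by
        rintro rfl
        exact hc2 (dvd_zero _)
      have := congrArg natDegree hc1
      rw [natDegree_mul (pow_ne_zero _ (X_sub_C_ne_zero z)) hc0, natDegree_pow, natDegree_X_sub_C]
        at this
      omega
    have hcz : c.eval z ≠ 0 := by
      intro h
      exact hc2 (dvd_iff_isRoot.2 h)
    have hmK : m * K < n := by
      refine lt_of_le_of_lt ?_ hn
      rw [mul_comm]
      exact Nat.mul_le_mul_left _ (by omega)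
    have hevc : ∀ᶠ w in 𝓝 z, c.eval w ≠ 0 :=
      (c.continuous.continuousAt).eventually_ne hcz
    have hb1 : Filter.Tendsto (fun w => C * (1 + ‖w‖) ^ K / ‖c.eval w‖ ^ K * ‖w - z‖ ^ (n - m * K))
        (𝓝[≠] z) (𝓝 0) := by
      have h3 : ContinuousAt (fun w : ℂ => C * (1 + ‖w‖) ^ K / ‖c.eval w‖ ^ K *
          ‖w - z‖ ^ (n - m * K)) z := by
        apply ContinuousAt.mul
        · apply ContinuousAt.div
          · fun_prop
          · exact (c.continuous.norm.pow K).continuousAt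
          · exact pow_ne_zero _ (norm_ne_zero_iff.2 hcz)
        · fun_prop
      have h4 := h3.tendsto
      simp only [sub_self, norm_zero] at h4
      rw [zero_pow (by omega), mul_zero] at h4
      exact h4.mono_left nhdsWithin_le_nhds
    rw [tendsto_zero_iff_norm_tendsto_zero]
    apply tendsto_zero_of_pow _ (fun _ => norm_nonneg _) n hn0
    refine squeeze_zero' (Filter.Eventually.of_forall fun _ => by positivity) ?_ hb1
    filter_upwards [self_mem_nhdsWithin, nhdsWithin_le_nhds hevc] with w hw hcw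
    have hwz : w - z ≠ 0 := sub_ne_zero.2 hw
    have hbw : b.eval w = (w - z) ^ m * c.eval w := by
      conv_lhs => rw [hc1]
      simp
    have hbw0 : b.eval w ≠ 0 := by
      rw [hbw]; exact mul_ne_zero (pow_ne_zero _ hwz) hcw
    have h5 := hg w hbw0
    rw [hbw, norm_mul, norm_pow, mul_pow, ← pow_mul] at h5
    have h6 : 0 < ‖c.eval w‖ ^ K := by positivity
    rw [norm_mul, mul_pow, div_mul_eq_mul_div, le_div_iff₀ h6]
    have h7 : ‖w - z‖ ^ n = ‖w - z‖ ^ (m * K) * ‖w - z‖ ^ (n - m * K) := by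
      rw [← pow_add]; congr 1; omega
    rw [h7]
    calc ‖f w‖ ^ n * (‖w - z‖ ^ (m * K) * ‖w - z‖ ^ (n - m * K)) * ‖eval w c‖ ^ K
        = (‖f w‖ ^ n * (‖w - z‖ ^ (m * K) * ‖eval w c‖ ^ K)) * ‖w - z‖ ^ (n - m * K) := by ring
      _ ≤ (C * (1 + ‖w‖) ^ K) * ‖w - z‖ ^ (n - m * K) :=
          mul_le_mul_of_nonneg_right h5 (by positivity))
  obtain ⟨c₀, hc₀, R, hR⟩ := lower_bound b hb
  obtain ⟨M, hM⟩ := (isCompact_closedBall (0:ℂ) R).exists_bound_of_continuousOn
      hg1.continuous.continuousOn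
  set C₂ : ℝ := C / c₀ ^ K + |M| ^ n with hC₂
  have hC₂0 : 0 ≤ C₂ := by positivity
  have hbd : ∀ s, ‖g s‖ ^ n ≤ C₂ * (1 + ‖s‖) ^ K := by
    intro s
    have h1 : (1:ℝ) ≤ (1 + ‖s‖) ^ K := one_le_pow₀ (by linarith [norm_nonneg s])
    rcases le_or_gt ‖s‖ R with hs | hs
    · have h2 : ‖g s‖ ≤ |M| := (hM s (by simpa using hs)).trans (le_abs_self M)
      have h3 : ‖g s‖ ^ n ≤ |M| ^ n := by gcongr
      have h4 : |M| ^ n ≤ C₂ := by rw [hC₂]; have : 0 ≤ C / c₀ ^ K := by positivity
                                   linarith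
      nlinarith
    · have h2 := hR s hs.le
      have hbs : b.eval s ≠ 0 := by
        intro h; rw [h, norm_zero] at h2; linarith
      rw [← hg2 s ((hmem s).2 hbs)]
      have h3 := hg s hbs
      have h4 : ‖f s‖ ^ n * c₀ ^ K ≤ C * (1 + ‖s‖) ^ K :=
        le_trans (by gcongr) h3
      have h5 : ‖f s‖ ^ n ≤ C / c₀ ^ K * (1 + ‖s‖) ^ K := by
        rw [div_mul_eq_mul_div, le_div_iff₀ (by positivity)]
        exact h4
      have h6 : C / c₀ ^ K ≤ C₂ := by rw [hC₂]; have : 0 ≤ |M| ^ n := by positivity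
                                      linarith
      exact h5.trans (by gcongr)
  obtain ⟨q, hq1, hq2⟩ := entire_poly 1 g hg1 (C₂ + 1) (by
    intro s
    have h0 : 1 ≤ 1 + ‖s‖ := by linarith [norm_nonneg s]
    have h1 : ‖g s‖ ^ n ≤ ((C₂ + 1) * (1 + ‖s‖) ^ 1) ^ n := by
      rw [mul_pow, ← pow_mul, one_mul]
      refine (hbd s).trans ?_
      have h2 : (1 + ‖s‖) ^ K ≤ (1 + ‖s‖) ^ n := pow_le_pow_right₀ h0 hKn.le
      have h3 : C₂ ≤ (C₂ + 1) ^ n := by
        have : (C₂ + 1) ^ 1 ≤ (C₂ + 1) ^ n := pow_le_pow_right₀ (by linarith) (by omega)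
        linarith
      gcongr
    exact le_of_pow_le_pow_left₀ hn0 (by positivity) h1)
  obtain ⟨a, c, hac⟩ := exists_eq_X_add_C_of_natDegree_le_one hq1
  have ha : a = 0 := by
    by_contra ha
    set E : ℝ := 1 + (1 + ‖c‖) / ‖a‖ with hE
    have hE0 : 0 < E := by positivity
    have key : ∀ t : ℝ, 1 ≤ t → t ≤ C₂ * (E * 2) ^ K := by
      intro t ht
      set s : ℂ := ((t:ℂ) - c) / a with hs
      have hgs : g s = t := by
        rw [hq2, hac]
        simp only [eval_add, eval_mul, eval_C, eval_X]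
        rw [hs, mul_div_cancel₀ _ ha]
        ring
      have h1 := hbd s
      rw [hgs, Complex.norm_real, Real.norm_of_nonneg (by linarith : 0 ≤ t)] at h1
      have h2 : ‖s‖ ≤ (t + ‖c‖) / ‖a‖ := by
        rw [hs, norm_div]
        gcongr
        refine (norm_sub_le _ _).trans ?_
        rw [Complex.norm_real, Real.norm_of_nonneg (by linarith : 0 ≤ t)]
      have h3 : 1 + ‖s‖ ≤ E * 2 * t := by
        have h4 : (t + ‖c‖) / ‖a‖ ≤ (1 + ‖c‖) / ‖a‖ * t := by
          rw [div_mul_eq_mul_div]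
          gcongr
          nlinarith [norm_nonneg c]
        rw [hE]
        have h5 : 0 ≤ (1 + ‖c‖) / ‖a‖ * t := by positivity
        nlinarith
      have h4 : t ^ n ≤ C₂ * (E * 2) ^ K * t ^ K := by
        refine h1.trans ?_
        rw [mul_assoc, ← mul_pow]
        gcongr
      have h5 : t ^ n = t ^ (n - K) * t ^ K := by
        rw [← pow_add]; congr 1; omega
      rw [h5] at h4
      have h6 := le_of_mul_le_mul_right h4 (by positivity)
      have h7 : t ^ 1 ≤ t ^ (n - K) := pow_le_pow_right₀ ht (by omega)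
      rw [pow_one] at h7
      exact h7.trans h6
    have h8 := key (C₂ * (E * 2) ^ K + 1) (by
      have : 0 ≤ C₂ * (E * 2) ^ K := by positivity
      linarith)
    linarith
  refine ⟨c, fun s hs => ?_⟩
  rw [hg2 s ((hmem s).2 hs), hq2, hac, ha]
  simp

end Pool.Agent.W327.F4
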