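import Pool.Agent.W327.F4.Growth

/-!
# Liouville with two growth exponents
-/

set_option autoImplicit false

open Polynomial Topology

namespace Pool.Agent.W327.F4

theorem const_of_growth2 (f : ℂ → ℂ) (b : Polynomial ℂ) (hb : b ≠ 0)
    (hf : ∀ s, b.eval s ≠ 0 → DifferentiableAt ℂ f s)
    (n K K' : ℕ) (hn : K * b.natDegree < n) (hKn : K' < n) (C : ℝ)
    (hg : ∀ s, b.eval s ≠ 0 → ‖f s‖ ^ n * ‖b.eval s‖ ^ K ≤ C * (1 + ‖s‖) ^ K') :
    ∃ c, ∀ s, b.eval s ≠ 0 → f s = c := by
  classical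
  have hC : 0 ≤ C := by
    obtain ⟨s, hs⟩ := (dense_compl_roots b hb).nonempty
    have := (by positivity : 0 ≤ ‖f s‖ ^ n * ‖b.eval s‖ ^ K).trans (hg s hs)
    exact nonneg_of_mul_nonneg_left this (by positivity)
  have hn0 : n ≠ 0 := by omega
  have hmem : ∀ s, s ∉ b.roots.toFinset ↔ b.eval s ≠ 0 := by
    intro s; simp [hb]
  obtain ⟨g, hg1, hg2⟩ := ext_entire b.roots.toFinset f (fun s hs => hf s ((hmem s).1 hs)) (by
    intro z hz
    obtain ⟨c, hc1, hc2⟩ := exists_eq_pow_rootMultiplicity_mul_and_not_dvd b hb z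
    set m := rootMultiplicity z b with hm
    have hmd : m ≤ b.natDegree := by
      have hc0 : c ≠ 0 := by
        rintro rfl
        exact hc2 (dvd_zero _)
      have := congrArg natDegree hc1
      rw [natDegree_mul (pow_ne_zero _ (X_sub_C_ne_zero z)) hc0, natDegree_pow, natDegree_X_sub_C]
        at this
      omega
    have hcz : c.eval z ≠ 0 := by
      intro h
      exact hc2 (dvd_iff_isRoot.2 h)
    have hmK : m * K < n := by
      refine lt_of_le_of_lt ?_ hn
      rw [mul_comm]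
      exact Nat.mul_le_mul_left _ hmd
    have hevc : ∀ᶠ w in 𝓝 z, c.eval w ≠ 0 :=
      (c.continuous.continuousAt).eventually_ne hcz
    have hb1 : Filter.Tendsto (fun w => C * (1 + ‖w‖) ^ K' / ‖c.eval w‖ ^ K * ‖w - z‖ ^ (n - m * K))
        (𝓝[≠] z) (𝓝 0) := by
      have h3 : ContinuousAt (fun w : ℂ => C * (1 + ‖w‖) ^ K' / ‖c.eval w‖ ^ K *
          ‖w - z‖ ^ (n - m * K)) z := by
        apply ContinuousAt.mul
        · apply ContinuousAt.div
          · fun_prop
          · exact (c.continuous.norm.pow K).continuousAt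
          · exact pow_ne_zero _ (norm_ne_zero_iff.2 hcz)
        · fun_prop
      have h4 := h3.tendsto
      simp only [sub_self, norm_zero] at h4
      rw [zero_pow (by omega), mul_zero] at h4
      exact h4.mono_left nhdsWithin_le_nhds
    rw [tendsto_zero_iff_norm_tendsto_zero]
    apply tendsto_zero_of_pow _ (fun _ => norm_nonneg _) n hn0
    refine squeeze_zero' (Filter.Eventually.of_forall fun _ => by positivity) ?_ hb1
    filter_upwards [self_mem_nhdsWithin, nhdsWithin_le_nhds hevc] with w hw hcw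
    have hwz : w - z ≠ 0 := sub_ne_zero.2 hw
    have hbw : b.eval w = (w - z) ^ m * c.eval w := by
      conv_lhs => rw [hc1]
      simp
    have hbw0 : b.eval w ≠ 0 := by
      rw [hbw]; exact mul_ne_zero (pow_ne_zero _ hwz) hcw
    have h5 := hg w hbw0
    rw [hbw, norm_mul, norm_pow, mul_pow, ← pow_mul] at h5
    have h6 : 0 < ‖c.eval w‖ ^ K := by positivity
    rw [norm_mul, mul_pow, div_mul_eq_mul_div, le_div_iff₀ h6]
    have h7 : ‖w - z‖ ^ n = ‖w - z‖ ^ (m * K) * ‖w - z‖ ^ (n - m * K) := by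
      rw [← pow_add]; congr 1; omega
    rw [h7]
    calc ‖f w‖ ^ n * (‖w - z‖ ^ (m * K) * ‖w - z‖ ^ (n - m * K)) * ‖eval w c‖ ^ K
        = (‖f w‖ ^ n * (‖w - z‖ ^ (m * K) * ‖eval w c‖ ^ K)) * ‖w - z‖ ^ (n - m * K) := by ring
      _ ≤ (C * (1 + ‖w‖) ^ K') * ‖w - z‖ ^ (n - m * K) :=
          mul_le_mul_of_nonneg_right h5 (by positivity))
  obtain ⟨c₀, hc₀, R, hR⟩ := lower_bound b hb
  obtain ⟨M, hM⟩ := (isCompact_closedBall (0:ℂ) R).exists_bound_of_continuousOn
      hg1.continuous.continuousOn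
  set C₂ : ℝ := C / c₀ ^ K + |M| ^ n with hC₂
  have hC₂0 : 0 ≤ C₂ := by positivity
  have hbd : ∀ s, ‖g s‖ ^ n ≤ C₂ * (1 + ‖s‖) ^ K' := by
    intro s
    have h1 : (1:ℝ) ≤ (1 + ‖s‖) ^ K' := one_le_pow₀ (by linarith [norm_nonneg s])
    rcases le_or_gt ‖s‖ R with hs | hs
    · have h2 : ‖g s‖ ≤ |M| := (hM s (by simpa using hs)).trans (le_abs_self M)
      have h3 : ‖g s‖ ^ n ≤ |M| ^ n := by gcongr
      have h4 : |M| ^ n ≤ C₂ := by rw [hC₂]; have : 0 ≤ C / c₀ ^ K := by positivity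
                                   linarith
      nlinarith
    · have h2 := hR s hs.le
      have hbs : b.eval s ≠ 0 := by
        intro h; rw [h, norm_zero] at h2; linarith
      rw [← hg2 s ((hmem s).2 hbs)]
      have h3 := hg s hbs
      have h4 : ‖f s‖ ^ n * c₀ ^ K ≤ C * (1 + ‖s‖) ^ K' :=
        le_trans (by gcongr) h3
      have h5 : ‖f s‖ ^ n ≤ C / c₀ ^ K * (1 + ‖s‖) ^ K' := by
        rw [div_mul_eq_mul_div, le_div_iff₀ (by positivity)]
        exact h4
      have h6 : C / c₀ ^ K ≤ C₂ := by rw [hC₂]; have : 0 ≤ |M| ^ n := by positivity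
                                      linarith
      exact h5.trans (by gcongr)
  obtain ⟨q, hq1, hq2⟩ := entire_poly 1 g hg1 (C₂ + 1) (by
    intro s
    have h0 : 1 ≤ 1 + ‖s‖ := by linarith [norm_nonneg s]
    have h1 : ‖g s‖ ^ n ≤ ((C₂ + 1) * (1 + ‖s‖) ^ 1) ^ n := by
      rw [mul_pow, ← pow_mul, one_mul]
      refine (hbd s).trans ?_
      have h2 : (1 + ‖s‖) ^ K' ≤ (1 + ‖s‖) ^ n := pow_le_pow_right₀ h0 hKn.le
      have h3 : C₂ ≤ (C₂ + 1) ^ n := by
        have : (C₂ + 1) ^ 1 ≤ (C₂ + 1) ^ n := pow_le_pow_right₀ (by linarith) (by omega)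
        linarith
      gcongr
    exact le_of_pow_le_pow_left₀ hn0 (by positivity) h1)
  obtain ⟨a, c, hac⟩ := exists_eq_X_add_C_of_natDegree_le_one hq1
  have ha : a = 0 := by
    by_contra ha
    set E : ℝ := 1 + (1 + ‖c‖) / ‖a‖ with hE
    have hE0 : 0 < E := by positivity
    have key : ∀ t : ℝ, 1 ≤ t → t ≤ C₂ * (E * 2) ^ K' := by
      intro t ht
      set s : ℂ := ((t:ℂ) - c) / a with hs
      have hgs : g s = t := by
        rw [hq2, hac]
        simp only [eval_add, eval_mul, eval_C, eval_X]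
        rw [hs, mul_div_cancel₀ _ ha]
        ring
      have h1 := hbd s
      rw [hgs, Complex.norm_real, Real.norm_of_nonneg (by linarith : 0 ≤ t)] at h1
      have h2 : ‖s‖ ≤ (t + ‖c‖) / ‖a‖ := by
        rw [hs, norm_div]
        gcongr
        refine (norm_sub_le _ _).trans ?_
        rw [Complex.norm_real, Real.norm_of_nonneg (by linarith : 0 ≤ t)]
      have h3 : 1 + ‖s‖ ≤ E * 2 * t := by
        have h4 : (t + ‖c‖) / ‖a‖ ≤ (1 + ‖c‖) / ‖a‖ * t := by
          rw [div_mul_eq_mul_div]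
          gcongr
          nlinarith [norm_nonneg c]
        rw [hE]
        have h5 : 0 ≤ (1 + ‖c‖) / ‖a‖ * t := by positivity
        nlinarith
      have h4 : t ^ n ≤ C₂ * (E * 2) ^ K' * t ^ K' := by
        refine h1.trans ?_
        rw [mul_assoc, ← mul_pow]
        gcongr
      have h5 : t ^ n = t ^ (n - K') * t ^ K' := by
        rw [← pow_add]; congr 1; omega
      rw [h5] at h4
      have h6 := le_of_mul_le_mul_right h4 (by positivity)
      have h7 : t ^ 1 ≤ t ^ (n - K') := pow_le_pow_right₀ ht (by omega)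
      rw [pow_one] at h7
      exact h7.trans h6
    have h8 := key (C₂ * (E * 2) ^ K' + 1) (by
      have : 0 ≤ C₂ * (E * 2) ^ K' := by positivity
      linarith)
    linarith
  refine ⟨c, fun s hs => ?_⟩
  rw [hg2 s ((hmem s).2 hs), hq2, hac, ha]
  simp

end Pool.Agent.W327.F4
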