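import Pool.Agent.W327.F4.Growth2
import Pool.Agent.W327.F4.Curve
import Pool.Agent.W327.F4.CovLog
import Pool.Agent.W378.F4C

/-!
# A single valued logarithm of an algebraic unit is constant
-/

set_option autoImplicit false

open Topology Set Pool.Agent.W481

namespace Pool.Agent.W327.F4

section sections

variable {Y : Type} [TopologicalSpace Y]

theorem Good.toSec {pr : Y → ℂ} {K : Set ℂ} {σ : ℂ → Y} (h : Good pr K σ) : Sec pr K σ :=
  ⟨h.op, h.cv, h.ct, h.sec⟩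

theorem Good.img_eq {pr : Y → ℂ} {K : Set ℂ} {σ : ℂ → Y} (h : Good pr K σ) :
    img pr K σ = σ '' K := by
  ext y
  constructor
  · rintro ⟨h1, h2⟩
    exact ⟨_, h1, h2⟩
  · rintro ⟨z, hz, rfl⟩
    exact ⟨by rw [h.sec z hz]; exact hz, by rw [h.sec z hz]⟩

theorem Good.mem {pr : Y → ℂ} {K : Set ℂ} {σ : ℂ → Y} (h : Good pr K σ) {s : ℂ} (hs : s ∈ K) :
    σ s ∈ img pr K σ := by
  rw [h.img_eq]; exact ⟨s, hs, rfl⟩

theorem Good.exists_path {pr : Y → ℂ} {K : Set ℂ} {σ : ℂ → Y} (h : Good pr K σ) {s₀ s : ℂ}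
    (hs₀ : s₀ ∈ K) (hs : s ∈ K) : ∃ γ : Path (σ s₀) (σ s), ∀ τ, γ τ ∈ σ '' K := by
  obtain ⟨γ, hγ⟩ := joined_img h h (fun _ _ => rfl) (t := σ s₀) (t' := σ s)
    ⟨h.mem hs₀, h.mem hs₀⟩ ⟨h.mem hs, h.mem hs⟩
  exact ⟨γ, fun τ => by rw [← h.img_eq]; exact (hγ τ).1⟩

theorem exists_section [T2Space Y] (pr : Y → ℂ) (U : Set ℂ)
    (hcov : IsCoveringMapOn pr U) (K : Set ℂ) (hK : IsOpen K)
    (hKc : Convex ℝ K) (hKU : K ⊆ U) (y : Y) (hy : pr y ∈ K) :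
    ∃ σ, Good pr K σ ∧ σ (pr y) = y := by
  classical
  have : ContractibleSpace K := hKc.contractibleSpace ⟨_, hy⟩
  have : LocallyPathConnectedSpace K := hK.locallyPathConnectedSpace
  obtain ⟨F, ⟨hF1, hF2⟩, -⟩ := hcov.existsUnique_continuousMap_lifts (A := K)
    (⟨Subtype.val, continuous_subtype_val⟩ : C(K, ℂ)) (a₀ := ⟨pr y, hy⟩) (e₀ := y) rfl
    (fun a => hKU a.2)
  refine ⟨fun z => if hz : z ∈ K then F ⟨z, hz⟩ else y, ⟨hK, hKc, ?_, ?_⟩, ?_⟩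
  · rw [continuousOn_iff_continuous_domRestrict]
    have : K.domRestrict (fun z => if hz : z ∈ K then F ⟨z, hz⟩ else y) = F := by
      funext z
      simp [Set.domRestrict_apply, z.2]
    rw [this]
    exact F.continuous
  · intro z hz
    simp only [hz, dif_pos]
    exact congrFun hF2 ⟨z, hz⟩
  · simp only [hy, dif_pos]
    exact hF1

theorem local_section {pr : Y → ℂ} (hpr : IsLocalHomeomorph pr) (y : Y) :
    ∃ (K : Set ℂ) (σ : ℂ → Y), Good pr K σ ∧ y ∈ img pr K σ := by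
  obtain ⟨e, he, hee⟩ := hpr y
  have hmem : pr y ∈ e.target := by rw [hee]; exact e.map_source he
  obtain ⟨ε, hε, hball⟩ := Metric.isOpen_iff.1 e.open_target _ hmem
  refine ⟨Metric.ball (pr y) ε, e.symm, ⟨Metric.isOpen_ball, convex_ball _ _,
    e.continuousOn_symm.mono hball, fun z hz => ?_⟩, Metric.mem_ball_self hε, ?_⟩
  · rw [hee]; exact e.right_inv (hball hz)
  · rw [hee]; exact e.left_inv he

/-- trivialisation of the fibres over a convex open set -/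
theorem fib_sections [T2Space Y] (pr : Y → ℂ) (hpr : IsLocalHomeomorph pr) (U : Set ℂ)
    (hcov : IsCoveringMapOn pr U) (K : Set ℂ) (hK : IsOpen K)
    (hKc : Convex ℝ K) (hKU : K ⊆ U) (s₀ : ℂ) (hs₀ : s₀ ∈ K) :
    ∃ S : Y → ℂ → Y, (∀ t, pr t = s₀ → Good pr K (S t) ∧ S t s₀ = t) ∧
      ∀ s ∈ K, Set.BijOn (fun t => S t s) (pr ⁻¹' {s₀}) (pr ⁻¹' {s}) := by
  classical
  have h1 : ∀ t, ∃ σ : ℂ → Y, pr t = s₀ → Good pr K σ ∧ σ s₀ = t := by
    intro t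
    by_cases ht : pr t = s₀
    · obtain ⟨σ, hσ1, hσ2⟩ := exists_section pr U hcov K hK hKc hKU t (by rw [ht]; exact hs₀)
      exact ⟨σ, fun _ => ⟨hσ1, by rw [← ht]; exact hσ2⟩⟩
    · exact ⟨fun _ => t, fun h => absurd h ht⟩
  choose S hS using h1
  refine ⟨S, hS, fun s hs => ⟨?_, ?_, ?_⟩⟩
  · intro t ht
    exact (hS t ht).1.sec s hs
  · intro t ht t' ht' htt
    have h2 := eq_on_inter hpr (hS t ht).1 (hS t' ht').1 ⟨hs, hs⟩ htt s₀ ⟨hs₀, hs₀⟩
    rwa [(hS t ht).2, (hS t' ht').2] at h2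
  · intro y hy
    have hy' : pr y = s := hy
    obtain ⟨τ, hτ1, hτ2⟩ := exists_section pr U hcov K hK hKc hKU y (by rw [hy']; exact hs)
    rw [hy'] at hτ2
    have hpt : pr (τ s₀) = s₀ := hτ1.sec s₀ hs₀
    refine ⟨τ s₀, hpt, ?_⟩
    have h2 := eq_on_inter hpr (hS _ hpt).1 hτ1 ⟨hs₀, hs₀⟩ (hS _ hpt).2 s ⟨hs, hs⟩
    exact h2.trans hτ2

end sections

section psi

variable {Y : Type} [TopologicalSpace Y] {y₀ : Y}

/-- the product over the cosets -/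
noncomputable def psiT (N : Subgroup (LG y₀)) [N.FiniteIndex] (h : ∀ t : Y, PH y₀ t → ℂ) (n : ℕ)
    (x : ℂ) (t : Y) (q : PH y₀ t) : ℂ :=
  let : Fintype (LG y₀ ⧸ N) := Fintype.ofFinite _
  ∏ c : LG y₀ ⧸ N, (x - Complex.exp (h t ((c.out)⁻¹ • q) / n))

open Classical in
/-- the product over the cosets, `1` if `t` is not in the path component -/
noncomputable def psi (N : Subgroup (LG y₀)) [N.FiniteIndex] (h : ∀ t : Y, PH y₀ t → ℂ) (n : ℕ)
    (x : ℂ) (t : Y) : ℂ :=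
  if hne : Nonempty (PH y₀ t) then psiT N h n x t hne.some else 1

variable (N : Subgroup (LG y₀)) [N.FiniteIndex] (h : ∀ t : Y, PH y₀ t → ℂ)
  (h0 : ∀ g ∈ N, ∀ t (q : PH y₀ t), h t (g • q) = h t q) (n : ℕ) (x : ℂ)

include h0

omit [N.FiniteIndex] in
theorem h_out (t : Y) (q : PH y₀ t) (g : LG y₀) :
    h t (((QuotientGroup.mk g : LG y₀ ⧸ N).out)⁻¹ • q) = h t (g⁻¹ • q) := by
  obtain ⟨k, hk⟩ := QuotientGroup.mk_out_eq_mul N g
  rw [hk, mul_inv_rev, mul_smul]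
  exact h0 _ (N.inv_mem k.2) t _

theorem psiT_smul (t : Y) (q : PH y₀ t) (g : LG y₀) :
    psiT N h n x t (g • q) = psiT N h n x t q := by
  unfold psiT
  let : Fintype (LG y₀ ⧸ N) := Fintype.ofFinite _
  let φ : LG y₀ ⧸ N → ℂ := fun c => x - Complex.exp (h t ((c.out)⁻¹ • q) / n)
  have h1 : ∀ c : LG y₀ ⧸ N, x - Complex.exp (h t ((c.out)⁻¹ • (g • q)) / n) = φ (g⁻¹ • c) := by
    intro c
    have h2 : g⁻¹ • c = (QuotientGroup.mk (g⁻¹ * c.out) : LG y₀ ⧸ N) := by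
      conv_lhs => rw [← c.out_eq]
      rfl
    show _ = x - Complex.exp (h t (((g⁻¹ • c).out)⁻¹ • q) / n)
    rw [h2, h_out N h h0, mul_inv_rev, inv_inv, mul_smul]
  rw [Finset.prod_congr rfl fun c _ => h1 c]
  exact Equiv.prod_comp (MulAction.toPerm g⁻¹) φ

theorem psi_eq (t : Y) (q : PH y₀ t) : psi N h n x t = psiT N h n x t q := by
  unfold psi
  rw [dif_pos ⟨q⟩]
  obtain ⟨g, hg⟩ := LG_exists_smul q (Nonempty.some ⟨q⟩ : PH y₀ t)
  rw [← hg, psiT_smul N h h0]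

theorem psi_zero (t : Y) (q : PH y₀ t) : psi N h n (Complex.exp (h t q / n)) t = 0 := by
  rw [psi_eq N h h0 n _ t q, psiT]
  let : Fintype (LG y₀ ⧸ N) := Fintype.ofFinite _
  refine Finset.prod_eq_zero (Finset.mem_univ (QuotientGroup.mk 1)) ?_
  rw [h_out N h h0, inv_one, one_smul, sub_self]

theorem psi_local {pr : Y → ℂ} (hh : Hol pr h) {K : Set ℂ} {σ : ℂ → Y} (hσ : Good pr K σ) {s₀ : ℂ}
    (hs₀ : s₀ ∈ K) : ∃ G : ℂ → ℂ, DifferentiableOn ℂ G K ∧ ∀ s ∈ K, psi N h n x (σ s) = G s := by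
  classical
  let : Fintype (LG y₀ ⧸ N) := Fintype.ofFinite _
  by_cases hne : Nonempty (PH y₀ (σ s₀))
  · obtain ⟨q⟩ := hne
    have hex : ∀ c : LG y₀ ⧸ N, ∃ H : ℂ → ℂ, DifferentiableOn ℂ H K ∧ ∀ s ∈ K,
        ∀ γ : Path (σ s₀) (σ s), (∀ τ, γ τ ∈ σ '' K) →
          h (σ s) (((c.out)⁻¹ • q).trans (.mk γ)) = H s :=
      fun c => hh K σ hσ.toSec s₀ hs₀ _
    choose H hHd hH using hex
    refine ⟨fun s => ∏ c, (x - Complex.exp (H c s / n)), ?_, ?_⟩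
    · apply DifferentiableOn.fun_finsetProd
      intro c _
      exact ((hHd c).div_const _).cexp.const_sub _
    · intro s hs
      obtain ⟨γ, hγ⟩ := hσ.exists_path hs₀ hs
      rw [psi_eq N h h0 n x (σ s) (q.trans (.mk γ)), psiT]
      refine Finset.prod_congr rfl fun c _ => ?_
      rw [LG_smul_trans, hH c s hs γ hγ]
  · refine ⟨fun _ => 1, differentiableOn_const _, fun s hs => ?_⟩
    have hne' : ¬ Nonempty (PH y₀ (σ s)) := by
      rintro ⟨q⟩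
      obtain ⟨γ, -⟩ := hσ.exists_path hs hs₀
      exact hne ⟨q.trans (.mk γ)⟩
    unfold psi
    rw [dif_neg hne']

omit h0 in
theorem psi_bound (t : Y) (B : ℝ) (hB : 1 ≤ B)
    (hb : ∀ q : PH y₀ t, ‖x - Complex.exp (h t q / n)‖ ^ n ≤ B) :
    ‖psi N h n x t‖ ^ n ≤ B ^ (Nat.card (LG y₀ ⧸ N)) := by
  classical
  let : Fintype (LG y₀ ⧸ N) := Fintype.ofFinite _
  unfold psi
  split_ifs with hne
  · rw [psiT, norm_prod, ← Finset.prod_pow]
    refine (Finset.prod_le_prod (fun _ _ => by positivity) fun c _ => hb _).trans ?_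
    rw [Finset.prod_const, Finset.card_univ, Nat.card_eq_fintype_card]
  · rw [norm_one, one_pow]
    exact one_le_pow₀ hB

end psi

/-- the complement of the roots is connected -/
theorem compl_roots_preconnected (b : Polynomial ℂ) (hb : b ≠ 0) :
    IsPreconnected {s : ℂ | b.eval s ≠ 0} := by
  classical
  have h : {s : ℂ | b.eval s ≠ 0} = ((b.roots.toFinset : Set ℂ))ᶜ := by
    ext s
    simp [hb]
  rw [h]
  refine ((b.roots.toFinset.countable_toSet).isConnected_compl_of_one_lt_rank ?_).isPreconnected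
  rw [Complex.rank_real_complex]
  exact Cardinal.one_lt_two

theorem InH_const {Y : Type} [TopologicalSpace Y] [T2Space Y] (pr : Y → ℂ)
    (hpr : IsLocalHomeomorph pr) (b : Polynomial ℂ) (hb : b ≠ 0)
    (hcov : IsCoveringMapOn pr {s | b.eval s ≠ 0}) (hfin : ∀ s, (pr ⁻¹' {s}).Finite) {y₀ : Y}
    (N : Subgroup (LG y₀)) [N.FiniteIndex] (h : ∀ t : Y, PH y₀ t → ℂ) (hh : InH pr b N h)
    (h0 : ∀ g ∈ N, ∀ t (q : PH y₀ t), h t (g • q) = h t q) (t : Y) (q : PH y₀ t) :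
    h t q = h y₀ (.refl y₀) := by
  classical
  set U : Set ℂ := {s | b.eval s ≠ 0} with hUdef
  have hUo : IsOpen U := isOpen_ne_fun b.continuous continuous_const
  have hUpre : IsPreconnected U := compl_roots_preconnected b hb
  have hUd : Dense U := dense_compl_roots b hb
  obtain ⟨s₁, hs₁⟩ : ∃ s₁, s₁ ∈ U := hUd.nonempty
  -- the fibres
  let fib : ℂ → Finset Y := fun s => (hfin s).toFinset
  have hfib : ∀ s y, y ∈ fib s ↔ pr y = s := fun s y => by simp [fib]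
  have hloc : ∀ s₀ ∈ U, ∃ K : Set ℂ, IsOpen K ∧ s₀ ∈ K ∧ K ⊆ U ∧ ∃ S : Y → ℂ → Y,
      (∀ t, pr t = s₀ → Good pr K (S t) ∧ S t s₀ = t) ∧
      ∀ s ∈ K, Set.BijOn (fun t => S t s) (pr ⁻¹' {s₀}) (pr ⁻¹' {s}) := by
    intro s₀ hs₀
    obtain ⟨ε, hε, hball⟩ := Metric.isOpen_iff.1 hUo s₀ hs₀
    exact ⟨Metric.ball s₀ ε, Metric.isOpen_ball, Metric.mem_ball_self hε, hball,
      fib_sections pr hpr U hcov _ Metric.isOpen_ball (convex_ball _ _) hball s₀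
        (Metric.mem_ball_self hε)⟩
  have himg : ∀ (s₀ : ℂ) (K : Set ℂ) (S : Y → ℂ → Y),
      (∀ s ∈ K, Set.BijOn (fun t => S t s) (pr ⁻¹' {s₀}) (pr ⁻¹' {s})) → ∀ s ∈ K,
      (fib s₀).image (fun t => S t s) = fib s ∧ Set.InjOn (fun t => S t s) (fib s₀) := by
    intro s₀ K S hS s hs
    have h1 := hS s hs
    constructor
    · ext y
      rw [Finset.mem_image, hfib]
      constructor
      · rintro ⟨t, ht, rfl⟩
        exact h1.mapsTo ((hfib _ _).1 ht)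
      · intro hy
        obtain ⟨t, ht, hty⟩ := h1.surjOn hy
        exact ⟨t, (hfib _ _).2 ht, hty⟩
    · intro t ht t' ht' htt
      exact h1.injOn ((hfib _ _).1 ht) ((hfib _ _).1 ht') htt
  have hcard : ∀ s ∈ U, (fib s).card = (fib s₁).card := by
    have hct : ContinuousOn (fun s => (fib s).card) U := by
      intro s₀ hs₀
      obtain ⟨K, hKo, hsK, hKU, S, hS1, hS2⟩ := hloc s₀ hs₀
      apply ContinuousAt.continuousWithinAt
      have : ∀ᶠ s in 𝓝 s₀, (fib s).card = (fib s₀).card := by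
        filter_upwards [hKo.mem_nhds hsK] with s hs
        obtain ⟨h1, h2⟩ := himg s₀ K S hS2 s hs
        rw [← h1, Finset.card_image_of_injOn h2]
      exact tendsto_nhds_of_eventually_eq this
    intro s hs
    exact hUpre.constant hct hs hs₁
  obtain ⟨C₀, K₀, K₀', hgro⟩ := hh.2.1
  set C := |C₀| with hC
  have hC0 : 0 ≤ C := abs_nonneg _
  have hgro' : ∀ t (q : PH y₀ t), b.eval (pr t) ≠ 0 →
      ‖Complex.exp (h t q)‖ * ‖b.eval (pr t)‖ ^ K₀ ≤ C * (1 + ‖pr t‖) ^ K₀' := by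
    intro t q ht
    refine (hgro t q ht).trans ?_
    have : C₀ ≤ C := le_abs_self _
    gcongr
  obtain ⟨Cb, rb, hCb, hbg⟩ := poly_growth1 b
  set m := Nat.card (LG y₀ ⧸ N) with hm
  set d := (fib s₁).card with hd
  set K₂ := max K₀' (rb * K₀) with hK₂
  set n : ℕ := K₀ * (m * d) * b.natDegree + K₂ * (m * d) + 1 with hn
  have hn0 : n ≠ 0 := by omega
  have hnC : (n : ℂ) ≠ 0 := by exact_mod_cast hn0
  have hexpn : ∀ z : ℂ, ‖Complex.exp (z / n)‖ ^ n = ‖Complex.exp z‖ := by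
    intro z
    rw [← norm_pow, ← Complex.exp_nat_mul]
    congr 2
    field_simp
  let Psi : ℂ → ℂ → ℂ := fun x s => ∏ t ∈ fib s, psi N h n x t
  have hPsid : ∀ x s₀, s₀ ∈ U → DifferentiableAt ℂ (Psi x) s₀ := by
    intro x s₀ hs₀
    obtain ⟨K, hKo, hsK, hKU, S, hS1, hS2⟩ := hloc s₀ hs₀
    have hG : ∀ t, ∃ G : ℂ → ℂ, t ∈ fib s₀ → DifferentiableOn ℂ G K ∧
        ∀ s ∈ K, psi N h n x (S t s) = G s := by
      intro t
      by_cases ht : t ∈ fib s₀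
      · obtain ⟨G, hG1, hG2⟩ := psi_local N h h0 n x hh.1 (hS1 t ((hfib _ _).1 ht)).1 hsK
        exact ⟨G, fun _ => ⟨hG1, hG2⟩⟩
      · exact ⟨fun _ => 0, fun h => absurd h ht⟩
    choose G hG using hG
    have heq : Psi x =ᶠ[𝓝 s₀] fun s => ∏ t ∈ fib s₀, G t s := by
      filter_upwards [hKo.mem_nhds hsK] with s hs
      obtain ⟨h1, h2⟩ := himg s₀ K S hS2 s hs
      show ∏ t ∈ fib s, psi N h n x t = _
      rw [← h1, Finset.prod_image h2]
      exact Finset.prod_congr rfl fun t ht => (hG t ht).2 s hs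
    refine DifferentiableAt.congr_of_eventuallyEq ?_ heq
    apply DifferentiableAt.fun_finsetProd
    intro t ht
    exact ((hG t ht).1 s₀ hsK).differentiableAt (hKo.mem_nhds hsK)
  have hPsic : ∀ x, ∃ c, ∀ s, b.eval s ≠ 0 → Psi x s = c := by
    intro x
    refine const_of_growth2 (Psi x) b hb (fun s hs => hPsid x s hs) n (K₀ * (m * d))
      (K₂ * (m * d)) (by omega) (by omega)
      ((Cb ^ K₀ + 2 ^ (n-1) * ‖x‖ ^ n * Cb ^ K₀ + 2 ^ (n-1) * C) ^ (m * d)) ?_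
    intro s hs
    have hbs : 0 < ‖b.eval s‖ ^ K₀ := by
      have : 0 < ‖b.eval s‖ := norm_pos_iff.2 hs
      positivity
    set B : ℝ := 1 + 2 ^ (n-1) * (‖x‖ ^ n + C * (1 + ‖s‖) ^ K₀' / ‖b.eval s‖ ^ K₀) with hB
    have hB1 : 1 ≤ B := by
      rw [hB]
      have : 0 ≤ 2 ^ (n-1) * (‖x‖ ^ n + C * (1 + ‖s‖) ^ K₀' / ‖b.eval s‖ ^ K₀) := by positivity
      linarith
    have h1 : ∀ t ∈ fib s, ‖psi N h n x t‖ ^ n ≤ B ^ m := by
      intro t ht
      rw [hfib] at ht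
      apply psi_bound N h n x t B hB1
      intro q
      have h2 : ‖x - Complex.exp (h t q / n)‖ ≤ ‖x‖ + ‖Complex.exp (h t q / n)‖ := norm_sub_le _ _
      have h3 := hgro' t q (by rw [ht]; exact hs)
      rw [ht] at h3
      have h4 : ‖Complex.exp (h t q)‖ ≤ C * (1 + ‖s‖) ^ K₀' / ‖b.eval s‖ ^ K₀ := by
        rw [le_div_iff₀ hbs]; exact h3
      calc ‖x - Complex.exp (h t q / n)‖ ^ n ≤ (‖x‖ + ‖Complex.exp (h t q / n)‖) ^ n := by gcongr
        _ ≤ 2 ^ (n-1) * (‖x‖ ^ n + ‖Complex.exp (h t q / n)‖ ^ n) :=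
            add_pow_le (norm_nonneg _) (norm_nonneg _) n
        _ ≤ 2 ^ (n-1) * (‖x‖ ^ n + C * (1 + ‖s‖) ^ K₀' / ‖b.eval s‖ ^ K₀) := by
            rw [hexpn]; gcongr
        _ ≤ B := by rw [hB]; linarith
    have h2 : ‖Psi x s‖ ^ n ≤ B ^ (m * d) := by
      show ‖∏ t ∈ fib s, psi N h n x t‖ ^ n ≤ _
      rw [norm_prod, ← Finset.prod_pow]
      refine (Finset.prod_le_prod (fun _ _ => by positivity) h1).trans ?_
      rw [Finset.prod_const, hcard s hs, ← pow_mul]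
    have h0s : (1:ℝ) ≤ 1 + ‖s‖ := by linarith [norm_nonneg s]
    have h3 : ‖b.eval s‖ ^ K₀ ≤ Cb ^ K₀ * (1 + ‖s‖) ^ K₂ := by
      calc ‖b.eval s‖ ^ K₀ ≤ (Cb * (1 + ‖s‖) ^ rb) ^ K₀ := by
            have := hbg s
            gcongr
        _ = Cb ^ K₀ * (1 + ‖s‖) ^ (rb * K₀) := by rw [mul_pow, ← pow_mul]
        _ ≤ _ := by
            have : (1 + ‖s‖) ^ (rb * K₀) ≤ (1 + ‖s‖) ^ K₂ :=
              pow_le_pow_right₀ h0s (le_max_right _ _)
            gcongr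
    have h4 : B * ‖b.eval s‖ ^ K₀ ≤
        (Cb ^ K₀ + 2 ^ (n-1) * ‖x‖ ^ n * Cb ^ K₀ + 2 ^ (n-1) * C) * (1 + ‖s‖) ^ K₂ := by
      have h5 : B * ‖b.eval s‖ ^ K₀ = ‖b.eval s‖ ^ K₀ + 2 ^ (n-1) * ‖x‖ ^ n * ‖b.eval s‖ ^ K₀ +
          2 ^ (n-1) * C * (1 + ‖s‖) ^ K₀' := by
        rw [hB]
        field_simp
        ring
      rw [h5, add_mul, add_mul]
      have h6 : (1 + ‖s‖) ^ K₀' ≤ (1 + ‖s‖) ^ K₂ := pow_le_pow_right₀ h0s (le_max_left _ _)
      have h7 : 2 ^ (n-1) * ‖x‖ ^ n * ‖b.eval s‖ ^ K₀ ≤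
          2 ^ (n-1) * ‖x‖ ^ n * Cb ^ K₀ * (1 + ‖s‖) ^ K₂ := by
        rw [mul_assoc (2 ^ (n-1) * ‖x‖ ^ n)]
        gcongr
      have h8 : 2 ^ (n-1) * C * (1 + ‖s‖) ^ K₀' ≤ 2 ^ (n-1) * C * (1 + ‖s‖) ^ K₂ := by gcongr
      linarith
    calc ‖Psi x s‖ ^ n * ‖b.eval s‖ ^ (K₀ * (m * d)) ≤ B ^ (m * d) * ‖b.eval s‖ ^ (K₀ * (m * d)) := by
          gcongr
      _ = (B * ‖b.eval s‖ ^ K₀) ^ (m * d) := by rw [mul_pow, ← pow_mul]
      _ ≤ ((Cb ^ K₀ + 2 ^ (n-1) * ‖x‖ ^ n * Cb ^ K₀ + 2 ^ (n-1) * C) * (1 + ‖s‖) ^ K₂) ^ (m * d) := by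
          gcongr
      _ = _ := by rw [mul_pow, ← pow_mul]
  -- the finite set of values
  let F : Set ℂ := ⋃ t ∈ fib s₁, Set.range fun q : PH y₀ t => Complex.exp (h t q / n)
  have hFfin : F.Finite := by
    refine Set.Finite.biUnion (Finset.finite_toSet _) fun t _ => ?_
    by_cases hne : Nonempty (PH y₀ t)
    · obtain ⟨q⟩ := hne
      refine (Set.finite_range fun c : LG y₀ ⧸ N =>
        Complex.exp (h t ((c.out)⁻¹ • q) / n)).subset ?_
      rintro _ ⟨q', rfl⟩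
      obtain ⟨g, hg⟩ := LG_exists_smul q q'
      refine ⟨QuotientGroup.mk g⁻¹, ?_⟩
      simp only
      rw [h_out N h h0, inv_inv, hg]
    · rw [not_nonempty_iff] at hne
      rw [Set.range_eq_empty]
      exact Set.finite_empty
  have hval : ∀ (t : Y) (q : PH y₀ t), b.eval (pr t) ≠ 0 → Complex.exp (h t q / n) ∈ F := by
    intro t q ht
    set x := Complex.exp (h t q / n) with hx
    obtain ⟨c, hc⟩ := hPsic x
    have h1 : Psi x (pr t) = 0 :=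
      Finset.prod_eq_zero ((hfib _ _).2 rfl) (psi_zero N h h0 n t q)
    rw [hc _ ht, ← hc s₁ hs₁] at h1
    obtain ⟨t₁, ht₁, h2⟩ := Finset.prod_eq_zero_iff.1 h1
    have hne : Nonempty (PH y₀ t₁) := by
      by_contra hne
      unfold psi at h2
      rw [dif_neg hne] at h2
      exact one_ne_zero h2
    obtain ⟨q₁⟩ := hne
    rw [psi_eq N h h0 n x t₁ q₁, psiT] at h2
    obtain ⟨c', -, h3⟩ := Finset.prod_eq_zero_iff.1 h2
    exact Set.mem_iUnion₂.2 ⟨t₁, ht₁, (c'.out)⁻¹ • q₁, (sub_eq_zero.1 h3).symm⟩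
  -- local constancy
  have hlc : ∀ (K : Set ℂ) (σ : ℂ → Y), Good pr K σ → ∀ s₀ ∈ K, ∀ q : PH y₀ (σ s₀), ∀ s ∈ K,
      ∀ γ : Path (σ s₀) (σ s), (∀ τ, γ τ ∈ σ '' K) → h (σ s) (q.trans (.mk γ)) = h (σ s₀) q := by
    intro K σ hσ s₀ hs₀ q s hs γ hγ
    obtain ⟨H, hHd, hH⟩ := hh.1 K σ hσ.toSec s₀ hs₀ q
    have hpre : IsPreconnected K := hσ.cv.isPreconnected
    have hgc : ContinuousOn (fun s => Complex.exp (H s / n)) K :=
      (hHd.continuousOn.div_const _).cexp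
    have hU1 : ∀ s' ∈ K, s' ∈ U → Complex.exp (H s' / n) ∈ F := by
      intro s' hs' hsU
      obtain ⟨γ', hγ'⟩ := hσ.exists_path hs₀ hs'
      rw [← hH s' hs' γ' hγ']
      exact hval _ _ (by rw [hσ.sec s' hs']; exact hsU)
    have hmaps : Set.MapsTo (fun s => Complex.exp (H s / n)) K F := by
      intro s' hs'
      by_contra hcon
      have h1 : ContinuousAt (fun s => Complex.exp (H s / n)) s' :=
        hgc.continuousAt (hσ.op.mem_nhds hs')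
      have h2 : ∀ᶠ s'' in 𝓝 s', Complex.exp (H s'' / n) ∈ Fᶜ :=
        h1.eventually (hFfin.isClosed.isOpen_compl.mem_nhds hcon)
      have h3 : ∀ᶠ s'' in 𝓝 s', s'' ∈ K := hσ.op.mem_nhds hs'
      obtain ⟨s'', ⟨h4, h5⟩, h6⟩ := mem_closure_iff_nhds.1 (hUd s') _ (h2.and h3)
      exact h4 (hU1 s'' h5 h6)
    obtain ⟨c, hcF, hc⟩ := hpre.eqOn_const_of_mapsTo hFfin.isDiscrete hgc hmaps ⟨_, hmaps hs₀⟩
    have hder : K.EqOn (deriv H) 0 := by
      intro s' hs'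
      have h1 : HasDerivAt H (deriv H s') s' :=
        ((hHd s' hs').differentiableAt (hσ.op.mem_nhds hs')).hasDerivAt
      have h2 : HasDerivAt (fun s => Complex.exp (H s / n))
          (Complex.exp (H s' / n) * (deriv H s' / n)) s' := (h1.div_const _).cexp
      have h3 : HasDerivAt (fun s => Complex.exp (H s / n)) 0 s' := by
        refine (hasDerivAt_const s' c).congr_of_eventuallyEq ?_
        filter_upwards [hσ.op.mem_nhds hs'] with s'' hs''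
        exact hc hs''
      have h4 := h2.unique h3
      rcases mul_eq_zero.1 h4 with h5 | h5
      · exact absurd h5 (Complex.exp_ne_zero _)
      · rcases div_eq_zero_iff.1 h5 with h6 | h6
        · exact h6
        · exact absurd h6 hnC
    have hconst : H s = H s₀ := hσ.op.is_const_of_deriv_eq_zero hpre hHd hder hs hs₀
    rw [hH s hs γ hγ, hconst, ← hH s₀ hs₀ (Path.refl _) (fun τ => ⟨s₀, hs₀, rfl⟩),
      Path.Homotopic.Quotient.mk_refl, PH_trans_refl]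
  -- conclusion
  let ι : Type := {p : Set ℂ × (ℂ → Y) // Good pr p.1 p.2}
  refine Pool.Agent.W378.F4C.path_space_const (ι := ι) (fun i => img pr i.1.1 i.1.2)
    (fun i => img_open hpr i.2) ?_ y₀ h ?_ t q
  · intro y
    obtain ⟨K, σ, h1, h2⟩ := local_section hpr y
    exact ⟨⟨(K, σ), h1⟩, h2⟩
  · rintro ⟨⟨K, σ⟩, hσ⟩ t t' q γ hγ
    have ht : t ∈ img pr K σ := by have := hγ 0; rwa [γ.source] at this
    have ht' : t' ∈ img pr K σ := by have := hγ 1; rwa [γ.target] at this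
    obtain ⟨s₀, hs₀, rfl⟩ : ∃ s₀ ∈ K, σ s₀ = t := ⟨_, ht.1, ht.2⟩
    obtain ⟨s, hs, rfl⟩ : ∃ s ∈ K, σ s = t' := ⟨_, ht'.1, ht'.2⟩
    refine hlc K σ hσ s₀ hs₀ q s hs γ fun τ => ?_
    rw [← Good.img_eq hσ]
    exact hγ τ

end Pool.Agent.W327.F4
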